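import Pool.Agent.LibBR13.Dyn

/-! The local problem has a Baire-measurable labelling on the circle. -/

namespace BR13

open Topology Filter

/-- The representative in `[0, 1)`. -/
noncomputable def pha (x : UnitAddCircle) : ℝ := (AddCircle.equivIco (1 : ℝ) 0 x : ℝ)

theorem pha_mem (x : UnitAddCircle) : 0 ≤ pha x ∧ pha x < 1 := by
  have h := (AddCircle.equivIco (1 : ℝ) 0 x).2
  exact ⟨h.1, by simpa [pha] using h.2⟩

theorem coe_pha (x : UnitAddCircle) : ((pha x : ℝ) : UnitAddCircle) = x :=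
  AddCircle.coe_equivIco

theorem pha_coe {t : ℝ} (h0 : 0 ≤ t) (h1 : t < 1) : pha (t : UnitAddCircle) = t := by
  unfold pha
  rw [AddCircle.coe_equivIco_mk_apply]
  rw [div_one, mul_one]
  exact Int.fract_eq_self.2 ⟨h0, h1⟩

theorem coe_int (n : ℤ) : ((n : ℝ) : UnitAddCircle) = 0 := by
  rw [AddCircle.coe_eq_zero_iff]
  exact ⟨n, by simp⟩

theorem pha_sub {r : ℝ} (h0 : 0 < r) (h1 : r < 1) (x : UnitAddCircle) :
    pha (x - (r : UnitAddCircle)) = Rm r (pha x) := by
  obtain ⟨p0, p1⟩ := pha_mem x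
  obtain ⟨q0, q1⟩ := Rm_range h0 h1 p0 p1
  rw [← pha_coe q0 q1]
  congr 1
  obtain ⟨n, hn⟩ := Rm_int r (pha x)
  rw [hn, AddCircle.coe_add, AddCircle.coe_sub, coe_int, coe_pha, add_zero]

variable {a b : ℕ → ℝ} {k m : ℕ → ℤ} {M : ℤ}

theorem lab_bd (A : Adm a b k m) (hM : ∀ j, k j ≤ M ∧ m j ≤ M) {j : ℕ} {t : ℝ} {l : Lab}
    (h : LabAt a b k m j t l) : LBd M l := by
  obtain ⟨e, hD, q1, q2, q3⟩ := h
  have hk := A.hk j
  have hm := A.hm j
  have hMj := hM j
  have hT := Typ_range (a (j + 1)) (b (j + 1)) e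
  have hxy : -1 ≤ l.x ∧ l.x ≤ k j - 1 ∧ -1 ≤ l.y ∧ l.y ≤ m j - 1 := by
    rcases hD.2.2.1 with h | h | h | h <;> omega
  unfold LBd
  omega

theorem con_bd (A : Adm a b k m) (hM : ∀ j, k j ≤ M ∧ m j ≤ M) {j : ℕ} {d : Bool} {t : ℝ}
    {c : Cont} (h : Con a b k m j d t c) : CBd M c := by
  induction h with
  | @int1 j t x y e l h hi hl =>
    have hk := A.hk j
    have hm := A.hm j
    have hMj := hM j
    have hl' := lab_bd A hM hl
    have hxy : -1 ≤ x ∧ x ≤ k j - 1 ∧ -1 ≤ y ∧ y ≤ m j - 1 := by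
      rcases h.2.2.1 with h | h | h | h <;> omega
    refine ⟨?_, ?_, hl', ?_, ?_, ?_⟩ <;> dsimp only <;> omega
  | @int2 j t x y e l h hi hl =>
    have hk := A.hk j
    have hm := A.hm j
    have hMj := hM j
    have hl' := lab_bd A hM hl
    have hxy : -1 ≤ x ∧ x ≤ k j - 1 ∧ -1 ≤ y ∧ y ≤ m j - 1 := by
      rcases h.2.2.1 with h | h | h | h <;> omega
    refine ⟨?_, ?_, hl', ?_, ?_, ?_⟩ <;> dsimp only <;> omega
  | bot1 h hi hn hc ih => exact ih
  | left1 h hx hy hc ih => exact ih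
  | left2 h hi hn hc ih => exact ih
  | bot2 h hx hy hc ih => exact ih

/-- The canonical label at a phase. -/
def Full (a b : ℕ → ℝ) (k m : ℕ → ℤ) (t : ℝ) (p : Lab × Cont × Cont) : Prop :=
  LabAt a b k m 0 t p.1 ∧ Con a b k m 0 false t p.2.1 ∧ Con a b k m 0 true t p.2.2

theorem full_uniq (A : Adm a b k m) {t : ℝ} {p p' : Lab × Cont × Cont}
    (h : Full a b k m t p) (h' : Full a b k m t p') : p = p' := by
  refine Prod.ext (A.labAt_uniq h.1 h'.1) (Prod.ext (A.con_uniq h.2.1 h'.2.1)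
    (A.con_uniq h.2.2 h'.2.2))

theorem full_bd (A : Adm a b k m) (hM : ∀ j, k j ≤ M ∧ m j ≤ M) {t : ℝ}
    {p : Lab × Cont × Cont} (h : Full a b k m t p) :
    LBd M p.1 ∧ CBd M p.2.1 ∧ CBd M p.2.2 :=
  ⟨lab_bd A hM h.1, con_bd A hM h.2.1, con_bd A hM h.2.2⟩

theorem full_rule (A : Adm a b k m) {t : ℝ} {p pW pS : Lab × Cont × Cont}
    (h : Full a b k m t p) (hW : Full a b k m (Rm (a 0) t) pW)
    (hS : Full a b k m (Rm (b 0) t) pS) : Rule p pW pS :=
  ⟨A.relH h.1 hS.1 h.2.1, A.relV h.1 hW.1 h.2.2, A.vr h.2.1 rfl h.2.2 hW.2.1 hS.2.2⟩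

/-- The open set of points with locally constant canonical label `p`. -/
def VV (a b : ℕ → ℝ) (k m : ℕ → ℤ) (p : Lab × Cont × Cont) : Set UnitAddCircle :=
  (fun t : ℝ => (t : UnitAddCircle)) ''
    (Set.Ioo 0 1 ∩ {t | ∀ᶠ t' in 𝓝 t, Full a b k m t' p})

theorem isOpen_VV (p : Lab × Cont × Cont) : IsOpen (VV a b k m p) := by
  apply QuotientAddGroup.isOpenMap_coe
  exact isOpen_Ioo.inter isOpen_setOfPred_eventually_nhds

theorem VV_full {p : Lab × Cont × Cont} {x : UnitAddCircle} (h : x ∈ VV a b k m p) :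
    Full a b k m (pha x) p := by
  obtain ⟨t, ⟨h1, h2⟩, rfl⟩ := h
  change Full a b k m (pha (t : UnitAddCircle)) p
  rw [pha_coe h1.1.le h1.2]
  exact h2.self_of_nhds

/-- The union of these open sets. -/
def OO (a b : ℕ → ℝ) (k m : ℕ → ℤ) : Set UnitAddCircle := ⋃ p, VV a b k m p

theorem isOpen_OO : IsOpen (OO a b k m) := isOpen_iUnion fun _ => isOpen_VV _

theorem good_OO {t : ℝ} (h0 : 0 < t) (h1 : t < 1) (h : AllGood a b k m 0 t) :
    (t : UnitAddCircle) ∈ OO a b k m := by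
  obtain ⟨-, ⟨l, hl⟩, hc⟩ := h
  obtain ⟨c1, hc1⟩ := hc false
  obtain ⟨c2, hc2⟩ := hc true
  refine Set.mem_iUnion.2 ⟨(l, c1, c2), t, ⟨⟨h0, h1⟩, ?_⟩, rfl⟩
  filter_upwards [hl, hc1, hc2] with t' g1 g2 g3
  exact ⟨g1, g2, g3⟩

theorem dense_OO (A : Adm a b k m) : Dense (OO a b k m) := by
  rw [dense_iff_inter_open]
  rintro U hU ⟨x, hx⟩
  have hc : Continuous fun t : ℝ => (t : UnitAddCircle) := AddCircle.continuous_mk' 1
  have hU' : IsOpen ((fun t : ℝ => (t : UnitAddCircle)) ⁻¹' U) := hU.preimage hc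
  have hmem : pha x ∈ (fun t : ℝ => (t : UnitAddCircle)) ⁻¹' U := by
    change ((pha x : ℝ) : UnitAddCircle) ∈ U
    rw [coe_pha]
    exact hx
  obtain ⟨e, he, hball⟩ := Metric.isOpen_iff.1 hU' _ hmem
  obtain ⟨p0, p1⟩ := pha_mem x
  obtain ⟨t, h1, h2, h3⟩ := dense_good' A (u := pha x) (v := min 1 (pha x + e)) p0
    (min_le_left _ _) (lt_min p1 (by linarith))
  have h4 : t < 1 := lt_of_lt_of_le h2 (min_le_left _ _)
  have h5 : t < pha x + e := lt_of_lt_of_le h2 (min_le_right _ _)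
  refine ⟨(t : UnitAddCircle), ?_, good_OO (by linarith) h4 h3⟩
  apply hball
  rw [Metric.mem_ball, Real.dist_eq, abs_lt]
  constructor <;> linarith

/-- The rotation homeomorphism. -/
noncomputable def rotH {n : ℕ} (α : Fin n → ℝ) (g : Fin n → ℤ) :
    UnitAddCircle ≃ₜ UnitAddCircle :=
  Homeomorph.addRight ((∑ i, (g i : ℝ) * α i : ℝ) : UnitAddCircle)

theorem rotH_apply {n : ℕ} (α : Fin n → ℝ) (g : Fin n → ℤ) (x : UnitAddCircle) :
    rotH α g x = (rot α).act g x := rfl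

theorem rot_borel {n : ℕ} (α : Fin n → ℝ) : (rot α).IsBorel := by
  intro g
  borelize UnitAddCircle
  exact (rotH α g).continuous.measurable

theorem pha_act {n : ℕ} {α : Fin n → ℝ} {u : Fin n → ℤ} {r : ℝ} {p : ℤ}
    (hr : (∑ i, (u i : ℝ) * α i) + p = r) (h0 : 0 < r) (h1 : r < 1) (x : UnitAddCircle) :
    pha ((rot α).act (-u) x) = Rm r (pha x) := by
  rw [← pha_sub h0 h1]
  congr 1
  change x + _ = _
  have e : (∑ i, (((-u) i : ℤ) : ℝ) * α i) = -r + p := by
    rw [← hr]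
    simp only [Pi.neg_apply, Int.cast_neg, neg_mul, Finset.sum_neg_distrib]
    ring
  rw [e, AddCircle.coe_add, coe_int, AddCircle.coe_neg, add_zero, sub_eq_add_neg]

/-- The circle action solves the local problem. -/
theorem circle_solves {n : ℕ} {α : Fin n → ℝ} {u w : Fin n → ℤ} {p q : ℤ}
    (A : Adm a b k m) (hM : ∀ j, k j ≤ M ∧ m j ≤ M)
    (hu : (∑ i, (u i : ℝ) * α i) + p = a 0) (hw : (∑ i, (w i : ℝ) * α i) + q = b 0)
    (hfree : (rot α).Free) : (rot α).BaireSolves (prob u w M) := by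
  have L := (A.lev 0).a1
  -- the generic set
  let G : Set UnitAddCircle := {x | ∀ g, (rot α).act g x ∈ OO a b k m}
  have hG : G ∈ residual UnitAddCircle := by
    change ∀ᶠ x in residual UnitAddCircle, ∀ g, (rot α).act g x ∈ OO a b k m
    rw [eventually_countable_forall]
    intro g
    have h1 : OO a b k m ∈ residual UnitAddCircle :=
      residual_of_dense_open isOpen_OO (dense_OO A)
    exact (tendsto_residual_of_isOpenMap (rotH α g).continuous (rotH α g).isOpenMap) h1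
  have hGinv : ∀ g x, (rot α).act g x ∈ G ↔ x ∈ G := by
    intro g x
    constructor
    · intro h g'
      have := h (g' - g)
      rw [act_comp, sub_add_cancel] at this
      exact this
    · intro h g'
      rw [act_comp]
      exact h _
  obtain ⟨x0, hx0⟩ := (dense_of_mem_residual hG).nonempty
  -- canonical labels
  have hcan : ∀ x, x ∈ G → ∃ c : Lb M, x ∈ VV a b k m c.1 := by
    intro x hx
    have h1 := hx 0
    rw [(rot α).act_zero] at h1
    obtain ⟨p, hp⟩ := Set.mem_iUnion.1 h1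
    exact ⟨⟨p, full_bd A hM (VV_full hp)⟩, hp⟩
  have hcan_uniq : ∀ x (c c' : Lb M), x ∈ VV a b k m c.1 → x ∈ VV a b k m c'.1 → c = c' :=
    fun x c c' h h' => Subtype.ext (full_uniq A (VV_full h) (VV_full h'))
  obtain ⟨c0, -⟩ := hcan x0 hx0
  have hne : Nonempty (Lb M) := ⟨c0⟩
  choose! F hF using hcan
  have hrule : ∀ x ∈ G, Rule (F x).1 (F ((rot α).act (-u) x)).1 (F ((rot α).act (-w) x)).1 := by
    intro x hx
    have h1 := VV_full (hF x hx)
    have h2 := VV_full (hF _ ((hGinv (-u) x).2 hx))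
    have h3 := VV_full (hF _ ((hGinv (-w) x).2 hx))
    rw [pha_act hu L.1 L.2.1] at h2
    rw [pha_act hw L.2.2.1 L.2.2.2.1] at h3
    exact full_rule A h1 h2 h3
  -- representatives of orbits
  let s : Setoid UnitAddCircle :=
    { r := fun x y => ∃ g, (rot α).act g x = y
      iseqv := ⟨fun x => ⟨0, (rot α).act_zero x⟩,
        fun {x y} ⟨g, hg⟩ => ⟨-g, by rw [← hg, act_comp, neg_add_cancel, (rot α).act_zero]⟩,
        fun {x y z} ⟨g, hg⟩ ⟨h, hh⟩ => ⟨h + g, by rw [← hh, ← hg, act_comp]⟩⟩ }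
  let R : UnitAddCircle → UnitAddCircle := fun x => Quotient.out (Quotient.mk s x)
  have hR : ∀ x, ∃ g, (rot α).act g (R x) = x := fun x => Quotient.mk_out (s := s) x
  have hRinv : ∀ g x, R ((rot α).act g x) = R x := by
    intro g x
    have : Quotient.mk s ((rot α).act g x) = Quotient.mk s x :=
      Quotient.sound (s := s) ⟨-g, by rw [act_comp, neg_add_cancel, (rot α).act_zero]⟩
    change Quotient.out _ = Quotient.out _
    rw [this]
  choose γ hγ using hR
  have hγu : ∀ g x, γ ((rot α).act g x) = g + γ x := by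
    intro g x
    have h1 := hγ ((rot α).act g x)
    rw [hRinv] at h1
    have h2 : (rot α).act (g + γ x) (R x) = (rot α).act g x := by
      rw [(rot α).act_add, hγ]
    have h3 : (rot α).act (γ ((rot α).act g x) - (g + γ x)) ((rot α).act (g + γ x) (R x)) =
        (rot α).act (g + γ x) (R x) := by
      rw [act_comp, sub_add_cancel, h1, h2]
    have := hfree _ _ h3
    exact sub_eq_zero.1 this
  classical
  let f : UnitAddCircle → Lb M := fun x => if x ∈ G then F x else F ((rot α).act (γ x) x0)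
  have hf1 : ∀ x, x ∈ G → f x = F x := fun x hx => if_pos hx
  have hf2 : ∀ x, x ∉ G → f x = F ((rot α).act (γ x) x0) := fun x hx => if_neg hx
  refine ⟨f, ?_, ?_⟩
  · intro c
    refine (isOpen_VV (a := a) (b := b) (k := k) (m := m) c.1).baireMeasurableSet.congr ?_
    rw [Filter.eventuallyEq_set]
    filter_upwards [hG] with x hx
    change x ∈ VV a b k m c.1 ↔ f x = c
    rw [hf1 x hx]
    constructor
    · intro h
      exact hcan_uniq x _ _ (hF x hx) h
    · intro h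
      rw [← h]
      exact hF x hx
  · refine (isLabeling_iff (rot α) u w M f).2 ?_
    intro x
    by_cases hx : x ∈ G
    · rw [hf1 x hx, hf1 _ ((hGinv (-u) x).2 hx), hf1 _ ((hGinv (-w) x).2 hx)]
      exact hrule x hx
    · have h1 : (rot α).act (-u) x ∉ G := fun h => hx ((hGinv _ _).1 h)
      have h2 : (rot α).act (-w) x ∉ G := fun h => hx ((hGinv _ _).1 h)
      rw [hf2 x hx, hf2 _ h1, hf2 _ h2, hγu, hγu, (rot α).act_add, (rot α).act_add]
      exact hrule _ ((hGinv _ _).2 hx0)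

end BR13
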