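import Pool.Agent.LibBR13.Vert

/-! More vertex lemmas and the connectedness of patches. -/

namespace BR13

theorem own_range (l : Lab) : 0 ≤ own l ∧ own l ≤ 3 := by
  unfold own
  split_ifs <;> omega

/-- Left and lower edge at a vertex, both interior to one patch. -/
theorem vert_f {lW lS lSW : Lab} {cE cN cW cS : Cont}
    (h3 : RelH lSW lW cW) (h4 : RelV lSW lS cS) (h : VR cE cN cW cS)
    (ha : InP lW.k lW.m lW.s lW.x (lW.y - 1))
    (hb : InP lS.k lS.m lS.s (lS.x - 1) lS.y) : cW.o = cS.o := by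
  obtain ⟨w1, w2, w3, w4, w5⟩ := relH_val h3
  obtain ⟨u1, u2, u3, u4, u5⟩ := relV_val h4
  obtain ⟨p1, p2, p3, p4, p5, g1, g2, g3, g4, g5, g6⟩ := relH_int h3 ha
  obtain ⟨q1, q2, q3, q4, q5, k1, k2, k3, k4, k5, k6⟩ := relV_int h4 hb
  have hs : lS.s = lW.s := by rw [← q5, p5]
  have hm' : lS.m = lW.m := by rw [← q2, p2]
  have hk' : lS.k = lW.k := by rw [← q1, p1]
  clear h3 h4
  rcases h with h | h | h | h | h | h | h
  · exact h.2.2.2.2.2.2.2.1.trans h.2.2.2.2.2.2.2.2.1.symm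
  · exfalso
    obtain ⟨i1, i2, i3, i4, i5, i6, i7, i8, i9, i10, i11, i12, i13, i14, i15, i16⟩ := h
    clear i16 i13 i14
    have hN1 : cN.k = lW.k := by omega
    have hN2 : cN.m = lW.m := by omega
    have hNx : cN.x = lW.x + 2 := by omega
    rw [k6, k5, k2, hs, hm'] at i12
    rw [k6, hs] at i15
    have hNy : cN.y = lW.y - d2y lW.m lW.s := by omega
    rw [hN1, hN2, hNx, hNy] at i6 i7 i8 i9
    have hr := own_range cN.o
    generalize own cN.o = t at i6 i7 i8 i9 i15 hr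
    clear hb u5 hNy i12 i11 i10 i1 i2 i3 i4 i5 ha
    clear hN1 hN2 hNx g1 g2 g3 g4 g5 g6 k1 k2 k3 k4 k5 k6 p1 p2 p3 p4 p5 q1 q2 q3 q4 q5
    clear hk' hm' hs u1 u2 u3 u4
    generalize lW.x = x at *
    generalize lW.y = y at *
    generalize lW.s = s at *
    generalize lW.k = k at *
    generalize lW.m = m at *
    unfold d2y at *
    grind (splits := 60)
  · exfalso
    obtain ⟨i1, i2, i3, i4, i5, i6, i7, i8, i9, i10, i11, i12, i13, i14, i15, i16⟩ := h
    clear i16 i13 i14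
    have hN1 : cE.k = lW.k := by omega
    have hN2 : cE.m = lW.m := by omega
    have hNx : cE.x = lW.x - lW.k + 1 := by omega
    rw [g6, g5] at i12
    rw [g6] at i15
    have hNy : cE.y = lW.y - d1y lW.s := by omega
    have h5x : lS.x = lW.x + 1 := by omega
    have h5y : lS.y = lW.y - 1 := by omega
    rw [hN1, hN2, hNx, hNy] at i6 i7 i8 i9
    rw [hk', hm', hs, h5x, h5y] at u5
    have hr := own_range cE.o
    generalize own cE.o = t at i6 i7 i8 i9 i15 hr
    clear hb hNy i12 i11 i10 i1 i2 i3 i4 i5 ha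
    clear hN1 hN2 hNx g1 g2 g3 g4 g5 g6 k1 k2 k3 k4 k5 k6 p1 p2 p3 p4 p5 q1 q2 q3 q4 q5
    clear hk' hm' hs u1 u2 u3 u4 h5x h5y
    generalize lW.x = x at *
    generalize lW.y = y at *
    generalize lW.s = s at *
    generalize lW.k = k at *
    generalize lW.m = m at *
    unfold d1y at *
    grind (splits := 60)
  · have := congrArg Cont.d h.1
    omega
  · have := congrArg Cont.d h.1
    omega
  · exact h.2.1
  · exact h.2.1

/-- First corner of a left path. -/
theorem vert_g {l lW lS : Lab} {cE cN cW cS : Cont} (h1 : RelH lS l cE)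
    (h2 : RelV lW l cN) (h : VR cE cN cW cS) (hx : l.x = 0) (hy : l.y = 1) : cS = cW := by
  obtain ⟨v1, v2, v3, v4, v5⟩ := relH_val h1
  have ha : InP l.k l.m l.s (l.x - 1) l.y := by
    rw [hx, hy]; left; omega
  have hb : InP l.k l.m l.s l.x (l.y - 1) := by
    rw [hx, hy]; right; left; omega
  obtain ⟨-, -, -, -, -, e1, e2, e3, e4, e5, e6⟩ := relH_int h1 hb
  obtain ⟨-, -, -, -, -, f1, f2, f3, f4, f5, f6⟩ := relV_int h2 ha
  clear h1 h2
  rcases h with h | h | h | h | h | h | h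
  · exfalso
    obtain ⟨i1, i2, i3, i4, i5, i6, i7, i8, i9, i10, i11, i12, i13, i14, i15, i16, i17, i18,
      i19, i20, i21, i22, i23⟩ := h
    rw [e4, e5, hx, hy] at i23
    rw [e1, e2] at i23
    clear i20 i21 i22 ha hb v5
    grind (splits := 40)
  · exfalso
    obtain ⟨g1, g2, g3, g4, g5, g6, g7, g8, g9⟩ := h
    rw [f1, f2, f6, f4, f5] at g8
    exact g8 hb
  · exfalso
    obtain ⟨g1, g2, g3, g4, g5, g6, g7, g8, g9⟩ := h
    rw [e1, e2, e6, e4, e5] at g8
    exact g8 ha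
  · exact h.1
  · exact h.1
  · have := congrArg Cont.d h.1
    omega
  · have := congrArg Cont.d h.1
    omega

/-- First corner of a bottom path. -/
theorem vert_h {l lW lS : Lab} {cE cN cW cS : Cont} (h1 : RelH lS l cE)
    (h2 : RelV lW l cN) (h : VR cE cN cW cS) (hx : l.x = 1) (hy : l.y = 0) (hs : 2 ≤ l.s) :
    cS = cW := by
  obtain ⟨v1, v2, v3, v4, v5⟩ := relH_val h1
  have ha : InP l.k l.m l.s (l.x - 1) l.y := by
    rw [hx, hy]; right; left; omega
  have hb : InP l.k l.m l.s l.x (l.y - 1) := by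
    rw [hx, hy]; right; right; left; omega
  obtain ⟨-, -, -, -, -, e1, e2, e3, e4, e5, e6⟩ := relH_int h1 hb
  obtain ⟨-, -, -, -, -, f1, f2, f3, f4, f5, f6⟩ := relV_int h2 ha
  clear h1 h2
  rcases h with h | h | h | h | h | h | h
  · exfalso
    obtain ⟨i1, i2, i3, i4, i5, i6, i7, i8, i9, i10, i11, i12, i13, i14, i15, i16, i17, i18,
      i19, i20, i21, i22, i23⟩ := h
    rw [e4, e5, hx, hy] at i23
    rw [e1, e2] at i23
    clear i20 i21 i22 ha hb v5
    grind (splits := 40)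
  · exfalso
    obtain ⟨g1, g2, g3, g4, g5, g6, g7, g8, g9⟩ := h
    rw [f1, f2, f6, f4, f5] at g8
    exact g8 hb
  · exfalso
    obtain ⟨g1, g2, g3, g4, g5, g6, g7, g8, g9⟩ := h
    rw [e1, e2, e6, e4, e5] at g8
    exact g8 ha
  · exact h.1
  · exact h.1
  · have := congrArg Cont.d h.1
    omega
  · have := congrArg Cont.d h.1
    omega

/-- Interior vertex of a patch. -/
theorem vert_i {l lW lS lSW : Lab} {cE cN cW cS : Cont} (h1 : RelH lS l cE)
    (h2 : RelV lW l cN) (h3 : RelH lSW lW cW) (h4 : RelV lSW lS cS) (h : VR cE cN cW cS)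
    (ha : InP l.k l.m l.s (l.x - 1) l.y) (hb : InP l.k l.m l.s l.x (l.y - 1))
    (hc : InP l.k l.m l.s (l.x - 1) (l.y - 1)) :
    cN.o = cE.o ∧ cW.o = cE.o ∧ cS.o = cE.o := by
  obtain ⟨a1, a2, a3, a4, a5, e1, e2, e3, e4, e5, e6⟩ := relH_int h1 hb
  obtain ⟨b1, b2, b3, b4, b5, f1, f2, f3, f4, f5, f6⟩ := relV_int h2 ha
  have hl : InP lW.k lW.m lW.s lW.x (lW.y - 1) := by
    rw [b1, b2, b3, b4, b5]; exact hc
  have hl2 : InP lS.k lS.m lS.s (lS.x - 1) lS.y := by
    rw [a1, a2, a3, a4, a5]; exact hc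
  obtain ⟨-, -, -, -, s1, g1, g2, g3, g4, g5, g6⟩ := relH_int h3 hl
  obtain ⟨-, -, -, -, s2, k1, k2, k3, k4, k5, k6⟩ := relV_int h4 hl2
  clear h1 h2 h3 h4
  rcases h with h | h | h | h | h | h | h
  · exact ⟨h.2.2.2.2.2.2.1, h.2.2.2.2.2.2.2.1, h.2.2.2.2.2.2.2.2.1⟩
  · exfalso
    obtain ⟨g1, g2, g3, g4, g5, g6, g7, g8, g9⟩ := h
    rw [f1, f2, f6, f4, f5] at g8
    exact g8 hb
  · exfalso
    obtain ⟨g1, g2, g3, g4, g5, g6, g7, g8, g9⟩ := h
    rw [e1, e2, e6, e4, e5] at g8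
    exact g8 ha
  · have := congrArg Cont.d h.1
    omega
  · have := congrArg Cont.d h.1
    omega
  · have := congrArg Cont.d h.1
    omega
  · have := congrArg Cont.d h.1
    omega

theorem geo1 {k m s x y : ℤ} (hk : 3 ≤ k) (hm : 4 ≤ m) (h0 : 0 ≤ s) (_h3 : s ≤ 3)
    (h1 : InP k m s x y) (h2 : InP k m s (x + 1) y) (h4 : InP k m s x (y - 1)) :
    InP k m s (x + 1) (y - 1) := by
  grind (splits := 60)

theorem geo2 {k m s x y : ℤ} (hk : 3 ≤ k) (hm : 4 ≤ m) (h0 : 0 ≤ s) (_h3 : s ≤ 3)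
    (h1 : InP k m s x y) (h2 : InP k m s x (y + 1)) (h4 : InP k m s (x - 1) y) :
    InP k m s (x - 1) (y + 1) := by
  grind (splits := 60)

theorem geo3 {k m s x y : ℤ} (hk : 3 ≤ k) (hm : 4 ≤ m) (h0 : 0 ≤ s) (_h3 : s ≤ 3)
    (h1 : InP k m s x y) (h2 : InP k m s (x + 1) y) (h4 : InP k m s (x - 1) y) :
    InP k m s x (y - 1) ∨ InP k m s x (y + 1) := by
  grind (splits := 60)

theorem geo4 {k m s x y : ℤ} (hk : 3 ≤ k) (hm : 4 ≤ m) (h0 : 0 ≤ s) (_h3 : s ≤ 3)
    (h1 : InP k m s x y) (h2 : InP k m s x (y + 1)) (h4 : InP k m s x (y - 1)) :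
    InP k m s (x - 1) y ∨ InP k m s (x + 1) y := by
  grind (splits := 60)

/-- A patch is connected. -/
theorem patch_conn {k m s : ℤ} (hk : 3 ≤ k) (hm : 4 ≤ m) (h0 : 0 ≤ s)
    (Q : ℤ → ℤ → Prop)
    (hR : ∀ x y, InP k m s x y → InP k m s (x + 1) y → (Q x y ↔ Q (x + 1) y))
    (hU : ∀ x y, InP k m s x y → InP k m s x (y + 1) → (Q x y ↔ Q x (y + 1))) :
    ∀ x y, InP k m s x y → (Q x y ↔ Q 0 0) := by
  have row0 : ∀ x : ℤ, 0 ≤ x → x ≤ k - 2 → (Q x 0 ↔ Q 0 0) := by
    intro x hx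
    induction x, hx using Int.leInduction with
    | base => intro _; rfl
    | succ n hn ih =>
      intro h
      rw [← ih (by omega)]
      exact (hR n 0 (by right; left; omega) (by right; left; omega)).symm
  have col : ∀ x y : ℤ, 0 ≤ x → x ≤ k - 2 → 0 ≤ y → y ≤ m - 2 → (Q x y ↔ Q 0 0) := by
    intro x y hx hx' hy
    induction y, hy using Int.leInduction with
    | base => intro _; exact row0 x hx hx'
    | succ n hn ih =>
      intro h
      rw [← ih (by omega)]
      refine (hU x n ?_ (by left; omega)).symm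
      by_cases h0 : n = 0
      · right; left; omega
      · left; omega
  have colm : ∀ y : ℤ, 1 ≤ y → y ≤ m - 2 → (Q (-1) y ↔ Q 0 0) := by
    intro y hy hy'
    rw [← col 0 y le_rfl (by omega) (by omega) hy']
    have := hR (-1) y (by left; omega) (by left; omega)
    simpa using this
  intro x y h
  rcases h with h | h | h | h
  · by_cases hx : x = -1
    · subst hx; exact colm y h.1 h.2.1
    · exact col x y (by omega) h.2.2.2 (by omega) h.2.1
  · obtain ⟨rfl, h2, h3 | h3⟩ := h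
    · exact row0 x h2 h3
    · rw [← row0 (k - 2) (by omega) le_rfl]
      have := hR (k - 2) 0 (by right; left; omega) (by right; left; omega)
      rw [h3.2, this]
      have e : k - 2 + 1 = k - 1 := by ring
      rw [e]
  · obtain ⟨rfl, h2, h3, h4⟩ := h
    have low : ∀ x : ℤ, 1 ≤ x → x ≤ k - 2 → (Q x (-1) ↔ Q 0 0) := by
      intro x hx hx'
      rw [← row0 x (by omega) hx']
      have := hU x (-1) (by right; right; left; omega) (by right; left; omega)
      simpa using this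
    by_cases hx : x ≤ k - 2
    · exact low x h3 hx
    · have hx2 : x = k - 1 := by omega
      rw [← low (k - 2) (by omega) le_rfl]
      have := hR (k - 2) (-1) (by right; right; left; omega) (by right; right; left; omega)
      rw [hx2, this]
      have e : k - 2 + 1 = k - 1 := by ring
      rw [e]
  · obtain ⟨rfl, h2⟩ := h
    have hin : InP k m s x (m - 2) := by left; omega
    have hq : Q x (m - 2) ↔ Q 0 0 := by
      by_cases hx : x = -1
      · subst hx; exact colm _ (by omega) le_rfl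
      · exact col x _ (by omega) (by omega) (by omega) le_rfl
    rw [← hq]
    have := hU x (m - 2) hin (by
      have e : m - 2 + 1 = m - 1 := by ring
      rw [e]; right; right; right; exact ⟨rfl, h2⟩)
    have e : m - 2 + 1 = m - 1 := by ring
    rw [e] at this
    exact this.symm

/-- Step to the right inside a patch. -/
theorem stepR_pure {l l' : Lab} {c : Cont} (h : RelV l l' c)
    (hi : InP l.k l.m l.s (l.x + 1) l.y) :
    l' = ⟨l.k, l.m, l.x + 1, l.y, l.s⟩ := by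
  obtain ⟨⟨v1, v2, v3, v4, v5⟩, ⟨w1, w2, w3, w4, w5⟩, hk, hm, h | h | h⟩ := h
  · obtain ⟨-, e1, e2, e3, -⟩ := h
    ext <;> simp only <;> omega
  · exfalso
    obtain ⟨e0, e1, e2, e3, e4⟩ := h
    have hcl := left_cls w1 w2 w3 w4 w5 e0 e1
    have hx : l.x + 1 = l'.x + l.k := by omega
    rw [hx, e3] at hi
    clear v5 w5 e0 e3 e1 e2
    rw [hk, hm] at hi
    unfold d1y at hi
    grind (splits := 60)
  · exfalso
    obtain ⟨e1, e2, e3, e4, e5⟩ := h
    rw [e1, e2] at w5
    have hs : 2 ≤ l'.s := by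
      clear v5 hi e4
      grind (splits := 40)
    have hs2 := e5.2 hs
    rw [e3, e4, e1, e2] at hi
    unfold d2y at hi
    clear v5 w5 e4
    grind (splits := 60)

/-- Step up inside a patch. -/
theorem stepU_pure {l l' : Lab} {c : Cont} (h : RelH l l' c)
    (hi : InP l.k l.m l.s l.x (l.y + 1)) :
    l' = ⟨l.k, l.m, l.x, l.y + 1, l.s⟩ := by
  obtain ⟨⟨v1, v2, v3, v4, v5⟩, ⟨w1, w2, w3, w4, w5⟩, hk, hm, h | h | h⟩ := h
  · obtain ⟨-, e1, e2, e3, -⟩ := h
    ext <;> simp only <;> omega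
  · exfalso
    obtain ⟨e0, e1, e2, e3, e4⟩ := h
    have hcl := bot_cls w1 w2 w3 w4 w5 e0 e1
    have hy : l.y + 1 = l'.y + d2y l.m l.s := by omega
    rw [hy, e2] at hi
    clear v5 w5 e0 e3 e1 e2
    rw [hk, hm] at hi
    unfold d2y at hi
    grind (splits := 60)
  · exfalso
    obtain ⟨e1, e2, e3, e4, e5⟩ := h
    rw [e3, e4, e1, e2] at hi
    unfold d1y at hi
    clear v5 w5 e4
    grind (splits := 60)

end BR13
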