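import Pool.Agent.LibBR13.Trans
import Pool.Agent.LibBR13.Vert2

/-! Contents of the edges of the canonical labelling; the rules hold. -/

namespace BR13

/-- Admissible sequences of steps and digits. -/
structure Adm (a b : ℕ → ℝ) (k m : ℕ → ℤ) : Prop where
  hk : ∀ j, 3 ≤ k j
  hm : ∀ j, 4 ≤ m j
  hb : ∀ j, 0 < b j
  hab : ∀ j, b j < a j
  hs : ∀ j, a j + b j < 1
  h1 : ∀ j, (k j : ℝ) * a j = 1 + b j * a (j + 1)
  h2 : ∀ j, (m j : ℝ) * b j = a j + b j * b (j + 1)

variable {a b : ℕ → ℝ} {k m : ℕ → ℤ}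

theorem Adm.lev (A : Adm a b k m) (j : ℕ) :
    Lev (k j) (m j) (a j) (b j) (a (j + 1)) (b (j + 1)) :=
  ⟨A.hk j, A.hm j, A.hb j, A.hab j, A.hs j, A.hb (j + 1), A.hab (j + 1), A.hs (j + 1),
    A.h1 j, A.h2 j⟩

/-- Decomposition at level `j`. -/
abbrev Dc (a b : ℕ → ℝ) (k m : ℕ → ℤ) (j : ℕ) (t : ℝ) (x y : ℤ) (e : ℝ) : Prop :=
  Dec (k j) (m j) (a j) (b j) (a (j + 1)) (b (j + 1)) t x y e

/-- `l` is the label of the phase `t` at level `j`. -/
def LabAt (a b : ℕ → ℝ) (k m : ℕ → ℤ) (j : ℕ) (t : ℝ) (l : Lab) : Prop :=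
  ∃ e, Dc a b k m j t l.x l.y e ∧ l.k = k j ∧ l.m = m j ∧ l.s = Typ (a (j + 1)) (b (j + 1)) e

/-- `c` is the content of the bottom (`d = false`) or left (`d = true`) edge of the
phase `t` at level `j`. -/
inductive Con (a b : ℕ → ℝ) (k m : ℕ → ℤ) : ℕ → Bool → ℝ → Cont → Prop
  | int1 {j : ℕ} {t : ℝ} {x y : ℤ} {e : ℝ} {l : Lab} (h : Dc a b k m j t x y e)
      (hi : InP (k j) (m j) (Typ (a (j + 1)) (b (j + 1)) e) x (y - 1)) (hl : LabAt a b k m (j + 1) e l) :
      Con a b k m j false t ⟨k j, m j, l, 1, x, y⟩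
  | bot1 {j : ℕ} {t : ℝ} {x y : ℤ} {e : ℝ} {c : Cont} (h : Dc a b k m j t x y e)
      (hi : ¬ InP (k j) (m j) (Typ (a (j + 1)) (b (j + 1)) e) x (y - 1)) (hn : ¬ (x = -1 ∧ y = 1))
      (hc : Con a b k m (j + 1) false e c) : Con a b k m j false t c
  | left1 {j : ℕ} {t : ℝ} {x y : ℤ} {e : ℝ} {c : Cont} (h : Dc a b k m j t x y e)
      (hx : x = -1) (hy : y = 1)
      (hc : Con a b k m (j + 1) true e c) : Con a b k m j false t c
  | int2 {j : ℕ} {t : ℝ} {x y : ℤ} {e : ℝ} {l : Lab} (h : Dc a b k m j t x y e)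
      (hi : InP (k j) (m j) (Typ (a (j + 1)) (b (j + 1)) e) (x - 1) y) (hl : LabAt a b k m (j + 1) e l) :
      Con a b k m j true t ⟨k j, m j, l, 2, x, y⟩
  | left2 {j : ℕ} {t : ℝ} {x y : ℤ} {e : ℝ} {c : Cont} (h : Dc a b k m j t x y e)
      (hi : ¬ InP (k j) (m j) (Typ (a (j + 1)) (b (j + 1)) e) (x - 1) y) (hn : ¬ (x = 1 ∧ y = -1))
      (hc : Con a b k m (j + 1) true e c) : Con a b k m j true t c
  | bot2 {j : ℕ} {t : ℝ} {x y : ℤ} {e : ℝ} {c : Cont} (h : Dc a b k m j t x y e)
      (hx : x = 1) (hy : y = -1)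
      (hc : Con a b k m (j + 1) false e c) : Con a b k m j true t c

theorem InP_m1_0 {k m s : ℤ} (_hm : 4 ≤ m) : ¬ InP k m s (-1) 0 := by
  intro h
  rcases h with h | h | h | h <;> omega

theorem InP_1_m2 {k m s : ℤ} (hm : 4 ≤ m) : ¬ InP k m s 1 (-2) := by
  intro h
  rcases h with h | h | h | h <;> omega

theorem InP_0_m1 {k m s : ℤ} (hm : 4 ≤ m) : ¬ InP k m s 0 (-1) := by
  intro h
  rcases h with h | h | h | h <;> omega

theorem InP_m2 {k m s y : ℤ} (_hk : 3 ≤ k) : ¬ InP k m s (-2) y := by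
  intro h
  rcases h with h | h | h | h <;> omega

theorem Adm.val (A : Adm a b k m) {j : ℕ} {t : ℝ} {x y : ℤ} {e : ℝ}
    (h : Dc a b k m j t x y e) : Val ⟨k j, m j, x, y, Typ (a (j + 1)) (b (j + 1)) e⟩ :=
  ⟨A.hk j, A.hm j, (Typ_range _ _ _).1, (Typ_range _ _ _).2, h.2.2.1⟩

theorem Adm.labAt_of (_A : Adm a b k m) {j : ℕ} {t : ℝ} {x y : ℤ} {e : ℝ}
    (h : Dc a b k m j t x y e) : LabAt a b k m j t ⟨k j, m j, x, y, Typ (a (j + 1)) (b (j + 1)) e⟩ :=
  ⟨e, h, rfl, rfl, rfl⟩

theorem Adm.labAt_eq (A : Adm a b k m) {j : ℕ} {t : ℝ} {x y : ℤ} {e : ℝ} {l : Lab}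
    (h : Dc a b k m j t x y e) (hl : LabAt a b k m j t l) :
    l = ⟨k j, m j, x, y, Typ (a (j + 1)) (b (j + 1)) e⟩ := by
  obtain ⟨e', h', q1, q2, q3⟩ := hl
  obtain ⟨r1, r2, r3⟩ := h.uniq (A.lev j) h'
  ext
  · exact q1
  · exact q2
  · exact r1.symm
  · exact r2.symm
  · rw [q3, r3]

theorem Adm.labAt_uniq (A : Adm a b k m) {j : ℕ} {t : ℝ} {l l' : Lab}
    (h : LabAt a b k m j t l) (h' : LabAt a b k m j t l') : l = l' := by
  obtain ⟨e, g, q1, q2, q3⟩ := h
  have := A.labAt_eq g h'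
  rw [this]
  ext
  · exact q1
  · exact q2
  · rfl
  · rfl
  · exact q3

theorem Adm.own_labAt (A : Adm a b k m) {j : ℕ} {t : ℝ} {l : Lab}
    (h : LabAt a b k m j t l) : own l = Typ (a j) (b j) t := by
  obtain ⟨e, g, q1, q2, q3⟩ := h
  rw [g.typ (A.lev j)]
  congr 1
  ext
  · exact q1
  · exact q2
  · rfl
  · rfl
  · exact q3

/-- Inversion for bottom edges. -/
theorem Adm.inv1 (A : Adm a b k m) {j : ℕ} {t : ℝ} {x y : ℤ} {e : ℝ} {c : Cont}
    (h : Dc a b k m j t x y e) (hc : Con a b k m j false t c) :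
    (InP (k j) (m j) (Typ (a (j + 1)) (b (j + 1)) e) x (y - 1) ∧ ∃ l, LabAt a b k m (j + 1) e l ∧
      c = ⟨k j, m j, l, 1, x, y⟩) ∨
    (¬ InP (k j) (m j) (Typ (a (j + 1)) (b (j + 1)) e) x (y - 1) ∧ ¬ (x = -1 ∧ y = 1) ∧
      Con a b k m (j + 1) false e c) ∨
    (x = -1 ∧ y = 1 ∧ Con a b k m (j + 1) true e c) := by
  cases hc with
  | int1 h' hi hl =>
    obtain ⟨rfl, rfl, rfl⟩ := h.uniq (A.lev j) h'
    exact Or.inl ⟨hi, _, hl, rfl⟩
  | bot1 h' hi hn hc =>
    obtain ⟨rfl, rfl, rfl⟩ := h.uniq (A.lev j) h'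
    exact Or.inr (Or.inl ⟨hi, hn, hc⟩)
  | left1 h' hx hy hc =>
    obtain ⟨rfl, rfl, rfl⟩ := h.uniq (A.lev j) h'
    exact Or.inr (Or.inr ⟨hx, hy, hc⟩)

/-- Inversion for left edges. -/
theorem Adm.inv2 (A : Adm a b k m) {j : ℕ} {t : ℝ} {x y : ℤ} {e : ℝ} {c : Cont}
    (h : Dc a b k m j t x y e) (hc : Con a b k m j true t c) :
    (InP (k j) (m j) (Typ (a (j + 1)) (b (j + 1)) e) (x - 1) y ∧ ∃ l, LabAt a b k m (j + 1) e l ∧
      c = ⟨k j, m j, l, 2, x, y⟩) ∨
    (¬ InP (k j) (m j) (Typ (a (j + 1)) (b (j + 1)) e) (x - 1) y ∧ ¬ (x = 1 ∧ y = -1) ∧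
      Con a b k m (j + 1) true e c) ∨
    (x = 1 ∧ y = -1 ∧ Con a b k m (j + 1) false e c) := by
  cases hc with
  | int2 h' hi hl =>
    obtain ⟨rfl, rfl, rfl⟩ := h.uniq (A.lev j) h'
    exact Or.inl ⟨hi, _, hl, rfl⟩
  | left2 h' hi hn hc =>
    obtain ⟨rfl, rfl, rfl⟩ := h.uniq (A.lev j) h'
    exact Or.inr (Or.inl ⟨hi, hn, hc⟩)
  | bot2 h' hx hy hc =>
    obtain ⟨rfl, rfl, rfl⟩ := h.uniq (A.lev j) h'
    exact Or.inr (Or.inr ⟨hx, hy, hc⟩)

/-- Contents are unique. -/
theorem Adm.con_uniq (A : Adm a b k m) {j : ℕ} {d : Bool} {t : ℝ} {c : Cont}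
    (h : Con a b k m j d t c) : ∀ {c' : Cont}, Con a b k m j d t c' → c = c' := by
  induction h with
  | @int1 j t x y e l h hi hl =>
    intro c' h'
    rcases A.inv1 h h' with ⟨-, l', hl', rfl⟩ | ⟨q, -, -⟩ | ⟨rfl, rfl, -⟩
    · rw [A.labAt_uniq hl hl']
    · exact absurd hi q
    · exact absurd hi (InP_m1_0 (A.hm j))
  | @bot1 j t x y e c h hi hn hc ih =>
    intro c' h'
    rcases A.inv1 h h' with ⟨q, -⟩ | ⟨-, -, q⟩ | ⟨q1, q2, -⟩
    · exact absurd q hi
    · exact ih q
    · exact absurd ⟨q1, q2⟩ hn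
  | @left1 j t x y e c h hx hy hc ih =>
    intro c' h'
    subst hx
    subst hy
    rcases A.inv1 h h' with ⟨q, -⟩ | ⟨-, q, -⟩ | ⟨-, -, q⟩
    · exact absurd q (InP_m1_0 (A.hm j))
    · exact absurd ⟨rfl, rfl⟩ q
    · exact ih q
  | @int2 j t x y e l h hi hl =>
    intro c' h'
    rcases A.inv2 h h' with ⟨-, l', hl', rfl⟩ | ⟨q, -, -⟩ | ⟨rfl, rfl, -⟩
    · rw [A.labAt_uniq hl hl']
    · exact absurd hi q
    · exact absurd hi (InP_0_m1 (A.hm j))
  | @left2 j t x y e c h hi hn hc ih =>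
    intro c' h'
    rcases A.inv2 h h' with ⟨q, -⟩ | ⟨-, -, q⟩ | ⟨q1, q2, -⟩
    · exact absurd q hi
    · exact ih q
    · exact absurd ⟨q1, q2⟩ hn
  | @bot2 j t x y e c h hx hy hc ih =>
    intro c' h'
    subst hx
    subst hy
    rcases A.inv2 h h' with ⟨q, -⟩ | ⟨-, q, -⟩ | ⟨-, -, q⟩
    · exact absurd q (InP_0_m1 (A.hm j))
    · exact absurd ⟨rfl, rfl⟩ q
    · exact ih q

/-- The rule for vertical neighbours. -/
theorem Adm.relH (A : Adm a b k m) {j : ℕ} {t : ℝ} {l lS : Lab} {c : Cont}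
    (hl : LabAt a b k m j t l) (hS : LabAt a b k m j (Rm (b j) t) lS)
    (hc : Con a b k m j false t c) : RelH lS l c := by
  obtain ⟨e, h, q1, q2, q3⟩ := id hl
  have L := A.lev j
  rw [A.labAt_eq h hl]
  generalize l.x = x at *
  generalize l.y = y at *
  rcases A.inv1 h hc with ⟨q, l', hl', rfl⟩ | ⟨g1, g2, -⟩ | ⟨rfl, rfl, -⟩
  · have h' : Dc a b k m j (Rm (b j) t) x (y - 1) e := h.down_int L q
    rw [A.labAt_eq h' hS]
    exact ⟨A.val h', A.val h, rfl, rfl, Or.inl ⟨q, rfl, rfl, rfl, rfl, rfl, rfl, rfl, rfl,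
      A.own_labAt hl'⟩⟩
  · have h' : Dc a b k m j (Rm (b j) t) (x - 1) _ _ := h.down_B L g1 g2
    rw [A.labAt_eq h' hS]
    exact ⟨A.val h', A.val h, rfl, rfl, Or.inr (Or.inl ⟨g1, g2, rfl, rfl,
      (typ_down L h.1 h.2.1).1⟩)⟩
  · have h' : Dc a b k m j (Rm (b j) t) (k j - 1) _ _ := h.down_L L rfl rfl
    rw [A.labAt_eq h' hS]
    exact ⟨A.val h', A.val h, rfl, rfl, Or.inr (Or.inr ⟨rfl, rfl, by simp only; ring,
      by simp only; ring, (typ_left L h.1 h.2.1).1⟩)⟩

/-- The rule for horizontal neighbours. -/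
theorem Adm.relV (A : Adm a b k m) {j : ℕ} {t : ℝ} {l lW : Lab} {c : Cont}
    (hl : LabAt a b k m j t l) (hW : LabAt a b k m j (Rm (a j) t) lW)
    (hc : Con a b k m j true t c) : RelV lW l c := by
  obtain ⟨e, h, q1, q2, q3⟩ := id hl
  have L := A.lev j
  rw [A.labAt_eq h hl]
  generalize l.x = x at *
  generalize l.y = y at *
  rcases A.inv2 h hc with ⟨q, l', hl', rfl⟩ | ⟨g1, g2, -⟩ | ⟨rfl, rfl, -⟩
  · have h' : Dc a b k m j (Rm (a j) t) (x - 1) y e := h.left_int L q
    rw [A.labAt_eq h' hW]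
    exact ⟨A.val h', A.val h, rfl, rfl, Or.inl ⟨q, rfl, rfl, rfl, rfl, rfl, rfl, rfl, rfl,
      A.own_labAt hl'⟩⟩
  · have h' : Dc a b k m j (Rm (a j) t) (x + k j - 1) _ _ := h.left_L L g1 g2
    rw [A.labAt_eq h' hW]
    exact ⟨A.val h', A.val h, rfl, rfl, Or.inr (Or.inl ⟨g1, g2, rfl, rfl,
      (typ_left L h.1 h.2.1).1⟩)⟩
  · have hB := h.left_B L rfl rfl
    have h' : Dc a b k m j (Rm (a j) t) (-1) _ _ := hB.1
    rw [A.labAt_eq h' hW]
    refine ⟨A.val h', A.val h, rfl, rfl, Or.inr (Or.inr ⟨rfl, rfl, by norm_num, ?_,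
      (typ_down L h.1 h.2.1).1⟩)⟩
    have hne : ¬ Typ (a (j + 1)) (b (j + 1)) (Rm (b (j + 1)) e) = 3 := by
      rcases hB.2 with h | h <;> omega
    simp only
    unfold d2y
    rw [if_neg hne]
    ring

theorem geo6 {k m s x y : ℤ} (hk : 3 ≤ k) (hm : 4 ≤ m) (h0 : 0 ≤ s)
    (h1 : InP k m s x y) (h2 : InP k m s (x - 1) y) (h3 : InP k m s x (y - 1))
    (h4 : ¬ InP k m s (x - 1) (y - 1)) : (x = 0 ∧ y = 1) ∨ (x = 1 ∧ y = 0 ∧ 2 ≤ s) := by
  grind (splits := 60)

/-- The rule at the vertices. -/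
theorem Adm.vr (A : Adm a b k m) {j : ℕ} {d : Bool} {t : ℝ} {cE : Cont}
    (hE : Con a b k m j d t cE) : d = false → ∀ {cN cW cS : Cont},
    Con a b k m j true t cN → Con a b k m j false (Rm (a j) t) cW →
    Con a b k m j true (Rm (b j) t) cS → VR cE cN cW cS := by
  induction hE with
  | @int1 j t x y e l h hi hl =>
    intro _ cN cW cS hN hW hS
    have L := A.lev j
    have hk := A.hk j
    have hm := A.hm j
    have hT := Typ_range (a (j + 1)) (b (j + 1)) e
    have hown : own l = Typ (a (j + 1)) (b (j + 1)) e := A.own_labAt hl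
    by_cases hL : InP (k j) (m j) (Typ (a (j + 1)) (b (j + 1)) e) (x - 1) y
    · rcases A.inv2 h hN with ⟨-, l', hl', rfl⟩ | ⟨q, -, -⟩ | ⟨rfl, rfl, -⟩
      · obtain rfl := A.labAt_uniq hl hl'
        have hWd := h.left_int L hL
        have hSd := h.down_int L hi
        by_cases hc : InP (k j) (m j) (Typ (a (j + 1)) (b (j + 1)) e) (x - 1) (y - 1)
        · rcases A.inv1 hWd hW with ⟨-, l1, hl1, rfl⟩ | ⟨q, -, -⟩ | ⟨q1, q2, -⟩
          · obtain rfl := A.labAt_uniq hl hl1
            rcases A.inv2 hSd hS with ⟨-, l2, hl2, rfl⟩ | ⟨q, -, -⟩ | ⟨q1, q2, -⟩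
            · obtain rfl := A.labAt_uniq hl hl2
              left
              refine ⟨rfl, rfl, rfl, rfl, rfl, rfl, rfl, rfl, rfl, rfl, rfl, rfl, rfl, rfl,
                rfl, rfl, rfl, rfl, rfl, ?_, ?_, ?_, ?_⟩
              · rw [hown]; exact h.2.2.1
              · rw [hown]; exact hL
              · rw [hown]; exact hi
              · rw [hown]; exact hc
            · exact absurd hc q
            · exfalso
              rw [q1, q2] at hc
              exact InP_0_m1 hm (by simpa using hc)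
          · exact absurd hc q
          · exfalso
            have hy' : y - 1 = 0 := by omega
            have hx' : x - 1 = -1 := q1
            rw [hx', hy'] at hc
            exact InP_m1_0 hm hc
        · rcases geo6 hk hm hT.1 h.2.2.1 hL hi hc with ⟨rfl, rfl⟩ | ⟨rfl, rfl, hs⟩
          · -- first corner of a left path
            rcases A.inv1 hWd hW with ⟨q, -⟩ | ⟨-, q, -⟩ | ⟨-, -, cw⟩
            · exact absurd q hc
            · exact absurd ⟨by norm_num, rfl⟩ q
            · rcases A.inv2 hSd hS with ⟨q, -⟩ | ⟨-, -, cs⟩ | ⟨q1, -, -⟩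
              · exact absurd q hc
              · right; right; right; left
                exact ⟨A.con_uniq cs cw, rfl, rfl, rfl, rfl, rfl, rfl, rfl, rfl, rfl⟩
              · exact absurd q1 (by norm_num)
          · -- first corner of a bottom path
            rcases A.inv1 hWd hW with ⟨q, -⟩ | ⟨-, q, cw⟩ | ⟨q1, -, -⟩
            · exact absurd q hc
            · rcases A.inv2 hSd hS with ⟨q, -⟩ | ⟨-, q, cs⟩ | ⟨q1, -, cs⟩
              · exact absurd q hc
              · exact absurd ⟨rfl, by norm_num⟩ q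
              · right; right; right; right; left
                exact ⟨A.con_uniq cs cw, rfl, rfl, rfl, rfl, rfl, rfl, rfl, rfl, rfl,
                  by rw [hown]; exact hs⟩
            · exact absurd q1 (by norm_num)
      · exact absurd hL q
      · exact absurd hL (InP_0_m1 hm)
    · -- straight vertex of a left path
      have hne : ¬ (x = 1 ∧ y = -1) := by
        rintro ⟨rfl, rfl⟩
        exact InP_1_m2 hm hi
      have hcl := left_cls hk hm hT.1 hT.2 h.2.2.1 hL hne
      have hcl2 : x = -1 ∧ 2 ≤ y := by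
        rcases hcl with ⟨rfl, rfl⟩ | ⟨rfl, q1, q2, q3⟩
        · exact absurd hi (InP_0_m1 hm)
        · refine ⟨rfl, ?_⟩
          by_contra hc
          have : y = 1 := by omega
          subst this
          exact InP_m1_0 hm hi
      obtain ⟨rfl, hy2⟩ := hcl2
      rcases A.inv2 h hN with ⟨q, -⟩ | ⟨-, -, cn⟩ | ⟨q1, -, -⟩
      · exact absurd q hL
      · have hWd := h.left_L L hL hne
        have hSd := h.down_int L hi
        rcases A.inv2 hSd hS with ⟨q, -⟩ | ⟨-, -, cs⟩ | ⟨q1, -, -⟩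
        · exact absurd q (InP_m2 hk)
        · obtain rfl := A.con_uniq cn cs
          have hS' := Typ_range (a (j + 1)) (b (j + 1)) (Rm (a (j + 1)) e)
          have hyb : y + d1y (Typ (a (j + 1)) (b (j + 1)) (Rm (a (j + 1)) e)) - 1 ≤ m j - 2 ∧
              0 ≤ y + d1y (Typ (a (j + 1)) (b (j + 1)) (Rm (a (j + 1)) e)) - 1 := by
            have := hcl
            unfold d1y
            split_ifs <;> omega
          have hin : InP (k j) (m j) (Typ (a (j + 1)) (b (j + 1)) (Rm (a (j + 1)) e)) (-1 + k j - 1)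
              (y + d1y (Typ (a (j + 1)) (b (j + 1)) (Rm (a (j + 1)) e)) - 1) := by
            by_cases h0 : y + d1y (Typ (a (j + 1)) (b (j + 1)) (Rm (a (j + 1)) e)) - 1 = 0
            · right; left; omega
            · left; omega
          rcases A.inv1 hWd hW with ⟨-, l1, hl1, rfl⟩ | ⟨q, -, -⟩ | ⟨q1, q2, -⟩
          · have ho1 : own l1 = Typ (a (j + 1)) (b (j + 1)) (Rm (a (j + 1)) e) := A.own_labAt hl1
            right; right; left
            refine ⟨rfl, rfl, rfl, rfl, rfl, ?_, ?_, ?_, ?_, ?_, rfl, ?_, ?_, ?_, ?_, ?_⟩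
            · rw [hown]; exact h.2.2.1
            · rw [hown]; exact hi
            · rw [hown]; exact hL
            · rw [hown]; exact InP_m2 hk
            · simp
            · rw [ho1]
            · rw [ho1]; exact hWd.2.2.1
            · rw [ho1]; exact hin
            · rw [ho1, hown]; exact (typ_left L h.1 h.2.1).1
            · exact A.relV hl hl1 cn
          · exact absurd hin q
          · omega
        · exact absurd q1 (by norm_num)
      · exact absurd q1 (by norm_num)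
  | @bot1 j t x y e c h hi hn hc ih =>
    intro _ cN cW cS hN hW hS
    have L := A.lev j
    have hk := A.hk j
    have hm := A.hm j
    have hT := Typ_range (a (j + 1)) (b (j + 1)) e
    have hcl := bot_cls hk hm hT.1 hT.2 h.2.2.1 hi hn
    have hSd := h.down_B L hi hn
    by_cases h00 : x = 0 ∧ y = 0
    · -- vertex of the next level
      obtain ⟨rfl, rfl⟩ := h00
      have hnL : ¬ InP (k j) (m j) (Typ (a (j + 1)) (b (j + 1)) e) (0 - 1) 0 := InP_m1_0 hm
      have hWd := h.left_L L hnL (by norm_num)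
      rcases A.inv2 h hN with ⟨q, -⟩ | ⟨-, -, cn⟩ | ⟨q1, -, -⟩
      · exact absurd q hnL
      · rcases A.inv2 hSd hS with ⟨q, -⟩ | ⟨-, -, cs⟩ | ⟨q1, -, -⟩
        · exact absurd q (InP_m2 hk)
        · rcases A.inv1 hWd hW with ⟨q, -⟩ | ⟨-, -, cw⟩ | ⟨q1, q2, -⟩
          · exfalso
            have hd : (d1y (Typ (a (j + 1)) (b (j + 1)) (Rm (a (j + 1)) e)) = 0 ∧
                Typ (a (j + 1)) (b (j + 1)) (Rm (a (j + 1)) e) ≤ 1) ∨
                (d1y (Typ (a (j + 1)) (b (j + 1)) (Rm (a (j + 1)) e)) = -1 ∧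
                2 ≤ Typ (a (j + 1)) (b (j + 1)) (Rm (a (j + 1)) e)) := by
              unfold d1y
              split_ifs with h
              · right; exact ⟨rfl, h⟩
              · left; exact ⟨rfl, by omega⟩
            rcases hd with ⟨hd1, hd2⟩ | ⟨hd1, hd2⟩
            · rw [hd1] at q
              rcases q with q | q | q | q <;> omega
            · rw [hd1] at q
              rcases q with q | q | q | q <;> omega
          · exact ih rfl cn cw cs
          · omega
        · omega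
      · exact absurd q1 (by norm_num)
    · by_cases h1m : x = 1 ∧ y = -1
      · -- second corner of a bottom path
        obtain ⟨rfl, rfl⟩ := h1m
        obtain ⟨hWd, hS12⟩ := h.left_B L rfl rfl
        have hd2 : d2y (m j) (Typ (a (j + 1)) (b (j + 1)) (Rm (b (j + 1)) e)) = m j := by
          unfold d2y
          rw [if_neg (by omega)]
        rw [hd2] at hSd
        rcases A.inv2 h hN with ⟨q, -⟩ | ⟨-, q, -⟩ | ⟨-, -, cn⟩
        · exact absurd q (InP_0_m1 hm)
        · exact absurd ⟨rfl, rfl⟩ q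
        · rcases A.inv1 hWd hW with ⟨-, l1, hl1, rfl⟩ | ⟨q, -, -⟩ | ⟨-, q2, -⟩
          · rcases A.inv2 hSd hS with ⟨-, l2, hl2, rfl⟩ | ⟨q, -, -⟩ | ⟨q1, -, -⟩
            · obtain rfl := A.labAt_uniq hl1 hl2
              have ho1 : own l1 = Typ (a (j + 1)) (b (j + 1)) (Rm (b (j + 1)) e) := A.own_labAt hl1
              right; right; right; right; right; right
              refine ⟨A.con_uniq hc cn, rfl, rfl, rfl, rfl, rfl, ?_, rfl, rfl, ?_, ?_⟩
              · rw [ho1]; exact hS12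
              · norm_num
              · simp only; ring
            · exfalso
              apply q
              left
              omega
            · exact absurd q1 (by norm_num)
          · exfalso
            apply q
            left
            omega
          · omega
      · -- straight vertex of a bottom path
        have hcl2 : (y = 0 ∧ 1 ≤ x ∧ x ≤ k j - 1 ∧ Typ (a (j + 1)) (b (j + 1)) e ≤ 1) ∨
            (y = -1 ∧ 2 ≤ x ∧ x ≤ k j - 1 ∧ 2 ≤ Typ (a (j + 1)) (b (j + 1)) e) := by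
          rcases hcl with h | h | h
          · exact absurd h h00
          · left; exact h
          · right; omega
        have hL : InP (k j) (m j) (Typ (a (j + 1)) (b (j + 1)) e) (x - 1) y := by
          rcases hcl2 with h | h
          · right; left; omega
          · right; right; left; omega
        have hWd := h.left_int L hL
        have hSin : InP (k j) (m j) (Typ (a (j + 1)) (b (j + 1)) (Rm (b (j + 1)) e)) (x - 1 - 1)
            (y + d2y (m j) (Typ (a (j + 1)) (b (j + 1)) (Rm (b (j + 1)) e)) - 1) := by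
          have hcv := (typ_down L h.1 h.2.1).1
          have hS' := Typ_range (a (j + 1)) (b (j + 1)) (Rm (b (j + 1)) e)
          unfold d2y
          generalize Typ (a (j + 1)) (b (j + 1)) (Rm (b (j + 1)) e) = S at *
          generalize Typ (a (j + 1)) (b (j + 1)) e = T at *
          clear ih hi hL
          split_ifs
          · rcases hcl2 with h | h
            · left; omega
            · omega
          · rcases hcl2 with h | h
            · right; right; right; omega
            · left; omega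
        rcases A.inv2 h hN with ⟨-, l, hl, rfl⟩ | ⟨q, -, -⟩ | ⟨q1, q2, -⟩
        · have hown : own l = Typ (a (j + 1)) (b (j + 1)) e := A.own_labAt hl
          rcases A.inv1 hWd hW with ⟨q, -⟩ | ⟨hi2, hn2, cw⟩ | ⟨q1, q2, -⟩
          · exfalso
            clear ih hSin hi hL
            rcases hcl2 with h | h
            · rcases q with q | q | q | q <;> omega
            · rcases q with q | q | q | q <;> omega
          · obtain rfl := A.con_uniq hc cw
            rcases A.inv2 hSd hS with ⟨-, l2, hl2, rfl⟩ | ⟨q, -, -⟩ | ⟨q1, q2, -⟩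
            · have ho2 : own l2 = Typ (a (j + 1)) (b (j + 1)) (Rm (b (j + 1)) e) := A.own_labAt hl2
              right; left
              refine ⟨rfl, rfl, rfl, rfl, rfl, ?_, ?_, ?_, ?_, hn2, rfl, ?_, ?_, ?_, ?_, ?_⟩
              · rw [hown]; exact h.2.2.1
              · rw [hown]; exact hL
              · rw [hown]; exact hi
              · rw [hown]; exact hi2
              · rw [ho2]
              · rw [ho2]; exact hSd.2.2.1
              · rw [ho2]; exact hSin
              · rw [ho2, hown]; exact (typ_down L h.1 h.2.1).1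
              · exact A.relH hl hl2 hc
            · exact absurd hSin q
            · exfalso
              rw [q1, q2] at hSin
              exact InP_0_m1 hm hSin
          · exfalso
            omega
        · exact absurd hL q
        · exact absurd ⟨q1, q2⟩ h1m
  | @left1 j t x y e c h hx hy hc ih =>
    intro _ cN cW cS hN hW hS
    subst hx
    subst hy
    have L := A.lev j
    have hk := A.hk j
    have hm := A.hm j
    have hnL : ¬ InP (k j) (m j) (Typ (a (j + 1)) (b (j + 1)) e) (-1 - 1) 1 := InP_m2 hk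
    have hWd := h.left_L L hnL (by norm_num)
    have hSd := h.down_L L rfl rfl
    have hS' := Typ_range (a (j + 1)) (b (j + 1)) (Rm (a (j + 1)) e)
    rcases A.inv2 h hN with ⟨q, -⟩ | ⟨-, -, cn⟩ | ⟨q1, -, -⟩
    · exact absurd q hnL
    · have hin1 : InP (k j) (m j) (Typ (a (j + 1)) (b (j + 1)) (Rm (a (j + 1)) e)) (-1 + k j - 1)
          (1 + d1y (Typ (a (j + 1)) (b (j + 1)) (Rm (a (j + 1)) e)) - 1) := by
        unfold d1y
        split_ifs
        · right; right; left; omega
        · right; left; omega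
      have hin2 : InP (k j) (m j) (Typ (a (j + 1)) (b (j + 1)) (Rm (a (j + 1)) e)) (k j - 1 - 1)
          (d1y (Typ (a (j + 1)) (b (j + 1)) (Rm (a (j + 1)) e))) := by
        unfold d1y
        split_ifs
        · right; right; left; omega
        · right; left; omega
      rcases A.inv1 hWd hW with ⟨-, l1, hl1, rfl⟩ | ⟨q, -, -⟩ | ⟨q1, -, -⟩
      · rcases A.inv2 hSd hS with ⟨-, l2, hl2, rfl⟩ | ⟨q, -, -⟩ | ⟨q1, -, -⟩
        · obtain rfl := A.labAt_uniq hl1 hl2
          have ho1 : own l1 = Typ (a (j + 1)) (b (j + 1)) (Rm (a (j + 1)) e) := A.own_labAt hl1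
          right; right; right; right; right; left
          refine ⟨A.con_uniq hc cn, rfl, rfl, rfl, rfl, rfl, ?_, ?_, rfl, ?_⟩
          · simp only; ring
          · rw [ho1]
          · rw [ho1]
        · exact absurd hin2 q
        · omega
      · exact absurd hin1 q
      · omega
    · exact absurd q1 (by norm_num)
  | int2 h hi hl => intro hd; exact absurd hd (by simp)
  | left2 h hi hn hc ih => intro hd; exact absurd hd (by simp)
  | bot2 h hx hy hc ih => intro hd; exact absurd hd (by simp)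

end BR13
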