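import Mathlib

/-!
Local rules of a self-similar labelling of the square grid.

A label records two digits `k`, `m`, a square `(x, y)` of the patch of type `s`.
A content records the digits, the owner (a label of the next level), the direction `d`
(1: bottom edge, 2: left edge) and the square of the patch that the edge belongs to.
-/

namespace BR13

/-- Label of a square: digits, position in the patch, type of the patch. -/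
@[ext] structure Lab where
  k : ℤ
  m : ℤ
  x : ℤ
  y : ℤ
  s : ℤ

/-- Content of an edge. -/
@[ext] structure Cont where
  k : ℤ
  m : ℤ
  o : Lab
  d : ℤ
  x : ℤ
  y : ℤ

/-- The squares of the patch of type `s`. -/
abbrev InP (k m s x y : ℤ) : Prop :=
  (1 ≤ y ∧ y ≤ m - 2 ∧ -1 ≤ x ∧ x ≤ k - 2) ∨
  (y = 0 ∧ 0 ≤ x ∧ (x ≤ k - 2 ∨ (s ≤ 1 ∧ x = k - 1))) ∨
  (y = -1 ∧ 2 ≤ s ∧ 1 ≤ x ∧ x ≤ k - 1) ∨
  (y = m - 1 ∧ ((s = 0 ∧ -1 ≤ x ∧ x ≤ k - 2) ∨ (1 ≤ s ∧ s ≤ 2 ∧ x = -1)))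

/-- Second coordinate of the step to the right neighbour of a patch of type `s`. -/
def d1y (s : ℤ) : ℤ := if 2 ≤ s then -1 else 0

/-- Second coordinate of the step to the upper neighbour of a patch of type `s`. -/
def d2y (m s : ℤ) : ℤ := if s = 3 then m - 1 else m

/-- The type of a square as a tile of its own. -/
def own (l : Lab) : ℤ :=
  if l.x = -1 then (if l.y = l.m - 1 ∨ (l.y = l.m - 2 ∧ l.s = 3) then 3 else 2)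
  else if l.x = l.k - 1 then 2
  else if l.x = l.k - 2 ∧ l.y = l.m - 2 then (if l.s = 0 then 0 else 1)
  else if l.x = l.k - 2 ∧ l.y = l.m - 1 then 1
  else 0

/-- Valid labels. -/
abbrev Val (l : Lab) : Prop :=
  3 ≤ l.k ∧ 4 ≤ l.m ∧ 0 ≤ l.s ∧ l.s ≤ 3 ∧ InP l.k l.m l.s l.x l.y

/-- Types of a tile `s` and the tile `s'` above it. -/
abbrev CV (s s' : ℤ) : Prop := (s = 1 ∨ s = 2) ↔ 2 ≤ s'

/-- Types of a tile `s` and the tile `s'` to the right of it. -/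
abbrev CH (s s' : ℤ) : Prop := s = 1 ↔ s' = 3

/-- Rule for a square `l`, the square `l'` above it and the content of the common edge. -/
def RelH (l l' : Lab) (c : Cont) : Prop :=
  Val l ∧ Val l' ∧ l.k = l'.k ∧ l.m = l'.m ∧
  ((InP l'.k l'.m l'.s l'.x (l'.y - 1) ∧ l.x = l'.x ∧ l.y = l'.y - 1 ∧ l.s = l'.s ∧
      c.k = l'.k ∧ c.m = l'.m ∧ c.d = 1 ∧ c.x = l'.x ∧ c.y = l'.y ∧ own c.o = l'.s) ∨
   (¬ InP l'.k l'.m l'.s l'.x (l'.y - 1) ∧ ¬ (l'.x = -1 ∧ l'.y = 1) ∧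
      l.x = l'.x - 1 ∧ l.y = l'.y + d2y l.m l.s - 1 ∧ CV l.s l'.s) ∨
   (l'.x = -1 ∧ l'.y = 1 ∧ l.x = l'.x + l.k ∧ l.y = l'.y + d1y l.s - 1 ∧ CH l.s l'.s))

/-- Rule for a square `l`, the square `l'` to the right of it and the content of the
common edge. -/
def RelV (l l' : Lab) (c : Cont) : Prop :=
  Val l ∧ Val l' ∧ l.k = l'.k ∧ l.m = l'.m ∧
  ((InP l'.k l'.m l'.s (l'.x - 1) l'.y ∧ l.x = l'.x - 1 ∧ l.y = l'.y ∧ l.s = l'.s ∧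
      c.k = l'.k ∧ c.m = l'.m ∧ c.d = 2 ∧ c.x = l'.x ∧ c.y = l'.y ∧ own c.o = l'.s) ∨
   (¬ InP l'.k l'.m l'.s (l'.x - 1) l'.y ∧ ¬ (l'.x = 1 ∧ l'.y = -1) ∧
      l.x = l'.x + l.k - 1 ∧ l.y = l'.y + d1y l.s ∧ CH l.s l'.s) ∨
   (l'.x = 1 ∧ l'.y = -1 ∧ l.x = l'.x - 2 ∧ l.y = l'.y + d2y l.m l.s ∧ CV l.s l'.s))

/-- Vertex in the interior of a patch. -/
def VI (cE cN cW cS : Cont) : Prop :=
  cN.k = cE.k ∧ cW.k = cE.k ∧ cS.k = cE.k ∧ cN.m = cE.m ∧ cW.m = cE.m ∧ cS.m = cE.m ∧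
  cN.o = cE.o ∧ cW.o = cE.o ∧ cS.o = cE.o ∧ cE.d = 1 ∧ cN.d = 2 ∧ cW.d = 1 ∧ cS.d = 2 ∧
  cN.x = cE.x ∧ cN.y = cE.y ∧ cW.x = cE.x - 1 ∧ cW.y = cE.y ∧ cS.x = cE.x ∧
  cS.y = cE.y - 1 ∧
  InP cE.k cE.m (own cE.o) cE.x cE.y ∧ InP cE.k cE.m (own cE.o) (cE.x - 1) cE.y ∧
  InP cE.k cE.m (own cE.o) cE.x (cE.y - 1) ∧ InP cE.k cE.m (own cE.o) (cE.x - 1) (cE.y - 1)

/-- Vertex in the straight part of a bottom path. -/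
def VsB (cE cN cW cS : Cont) : Prop :=
  cE = cW ∧ cN.d = 2 ∧ cS.d = 2 ∧ cN.k = cS.k ∧ cN.m = cS.m ∧
  InP cN.k cN.m (own cN.o) cN.x cN.y ∧ InP cN.k cN.m (own cN.o) (cN.x - 1) cN.y ∧
  ¬ InP cN.k cN.m (own cN.o) cN.x (cN.y - 1) ∧
  ¬ InP cN.k cN.m (own cN.o) (cN.x - 1) (cN.y - 1) ∧
  ¬ (cN.x - 1 = -1 ∧ cN.y = 1) ∧
  cS.x = cN.x - 1 ∧ cS.y = cN.y + d2y cS.m (own cS.o) - 1 ∧
  InP cS.k cS.m (own cS.o) cS.x cS.y ∧ InP cS.k cS.m (own cS.o) (cS.x - 1) cS.y ∧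
  CV (own cS.o) (own cN.o) ∧ RelH cS.o cN.o cE

/-- Vertex in the straight part of a left path. -/
def VsL (cE cN cW cS : Cont) : Prop :=
  cN = cS ∧ cE.d = 1 ∧ cW.d = 1 ∧ cE.k = cW.k ∧ cE.m = cW.m ∧
  InP cE.k cE.m (own cE.o) cE.x cE.y ∧ InP cE.k cE.m (own cE.o) cE.x (cE.y - 1) ∧
  ¬ InP cE.k cE.m (own cE.o) (cE.x - 1) cE.y ∧
  ¬ InP cE.k cE.m (own cE.o) (cE.x - 1) (cE.y - 1) ∧
  ¬ (cE.x = 1 ∧ cE.y - 1 = -1) ∧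
  cW.x = cE.x + cW.k - 1 ∧ cW.y = cE.y + d1y (own cW.o) ∧
  InP cW.k cW.m (own cW.o) cW.x cW.y ∧ InP cW.k cW.m (own cW.o) cW.x (cW.y - 1) ∧
  CH (own cW.o) (own cE.o) ∧ RelV cW.o cE.o cN

/-- First corner of a left path. -/
def VcL1 (cE cN cW cS : Cont) : Prop :=
  cS = cW ∧ cE.o = cN.o ∧ cE.k = cN.k ∧ cE.m = cN.m ∧ cE.d = 1 ∧ cN.d = 2 ∧
  cE.x = 0 ∧ cE.y = 1 ∧ cN.x = 0 ∧ cN.y = 1

/-- First corner of a bottom path. -/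
def VcB1 (cE cN cW cS : Cont) : Prop :=
  cS = cW ∧ cE.o = cN.o ∧ cE.k = cN.k ∧ cE.m = cN.m ∧ cE.d = 1 ∧ cN.d = 2 ∧
  cE.x = 1 ∧ cE.y = 0 ∧ cN.x = 1 ∧ cN.y = 0 ∧ 2 ≤ own cE.o

/-- Second corner of a left path. -/
def VcL2 (cE cN cW cS : Cont) : Prop :=
  cE = cN ∧ cW.o = cS.o ∧ cW.k = cS.k ∧ cW.m = cS.m ∧ cW.d = 1 ∧ cS.d = 2 ∧
  cW.x = cW.k - 2 ∧ cW.y = 1 + d1y (own cW.o) ∧ cS.x = cW.k - 1 ∧ cS.y = d1y (own cW.o)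

/-- Second corner of a bottom path. -/
def VcB2 (cE cN cW cS : Cont) : Prop :=
  cE = cN ∧ cW.o = cS.o ∧ cW.k = cS.k ∧ cW.m = cS.m ∧ cW.d = 1 ∧ cS.d = 2 ∧
  (own cW.o = 1 ∨ own cW.o = 2) ∧
  cW.x = -1 ∧ cW.y = cW.m - 1 ∧ cS.x = 0 ∧ cS.y = cW.m - 2

/-- Rule for the four edges at a vertex (right, up, left, down). -/
def VR (cE cN cW cS : Cont) : Prop :=
  VI cE cN cW cS ∨ VsB cE cN cW cS ∨ VsL cE cN cW cS ∨ VcL1 cE cN cW cS ∨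
  VcB1 cE cN cW cS ∨ VcL2 cE cN cW cS ∨ VcB2 cE cN cW cS

end BR13
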