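import Pool.Agent.LibBR13.Family

/-! The set of admissible rotation vectors is dense, and uncountable in every open set. -/

namespace BR13

/-- The rotation vectors with an admissible pair of integer combinations. -/
def Good (n : ℕ) : Set (Fin n → ℝ) :=
  {α | Indep α ∧ ∃ (u w : Fin n → ℤ) (p q : ℤ),
    Admissible ((∑ i, (u i : ℝ) * α i) + p) ((∑ i, (w i : ℝ) * α i) + q)}

theorem indep_snoc {n : ℕ} {α : Fin n → ℝ} (h : Indep α) (t : ℝ) {ε : ℝ} (hε : 0 < ε) :
    ∃ z : ℝ, |z - t| < ε ∧ Indep (Fin.snoc α z : Fin (n + 1) → ℝ) := by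
  have hc : (Submodule.span ℚ (Set.range (Fin.cons 1 α : Fin (n + 1) → ℝ)) : Set ℝ).Countable := by
    have : Countable (Submodule.span ℚ (Set.range (Fin.cons 1 α : Fin (n + 1) → ℝ))) := inferInstance
    exact Set.countable_coe_iff.1 this
  obtain ⟨z, hz, hzt⟩ := (hc.dense_compl ℝ).exists_dist_lt t hε
  refine ⟨z, ?_, ?_⟩
  · rw [dist_comm] at hzt
    rwa [Real.dist_eq] at hzt
  · unfold Indep
    rw [Fin.cons_snoc_eq_snoc_cons]
    exact linearIndependent_finSnoc.2 ⟨h, hz⟩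

theorem extend {x y : ℝ} (h : Indep ![x, y]) {ε : ℝ} (hε : 0 < ε) (l : ℕ) :
    ∀ c : Fin (l + 2) → ℝ, ∃ α : Fin (l + 2) → ℝ, Indep α ∧ α 0 = x ∧ α 1 = y ∧
      ∀ i : Fin (l + 2), 2 ≤ i.val → |α i - c i| < ε := by
  induction l with
  | zero =>
    intro c
    exact ⟨![x, y], h, rfl, rfl, fun i hi => absurd i.isLt (by omega)⟩
  | succ l ih =>
    intro c
    obtain ⟨α, h1, h2, h3, h4⟩ := ih (Fin.init c)
    obtain ⟨z, hz, hi⟩ := indep_snoc h1 (c (Fin.last _)) hε
    refine ⟨Fin.snoc α z, hi, ?_, ?_, ?_⟩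
    · have : (0 : Fin (l + 1 + 2)) = Fin.castSucc 0 := rfl
      rw [this]
      erw [Fin.snoc_castSucc]
      exact h2
    · have : (1 : Fin (l + 1 + 2)) = Fin.castSucc 1 := rfl
      rw [this]
      erw [Fin.snoc_castSucc]
      exact h3
    · intro i
      refine Fin.lastCases ?_ (fun j => ?_) i
      · intro _
        erw [Fin.snoc_last]
        exact hz
      · intro hj
        erw [Fin.snoc_castSucc]
        exact h4 j hj

/-- Scaling an independent pair. -/
theorem indep_scale {x y : ℝ} (h : Indep ![x, y]) {N : ℕ} (hN : 0 < N) (p q : ℤ) :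
    Indep ![(x + p) / N, (y + q) / N] := by
  have hN' : (N : ℝ) ≠ 0 := by positivity
  have key : ∀ r s t : ℤ, (r : ℝ) * x + s * y = t → r = 0 ∧ s = 0 := by
    intro r s t e
    unfold Indep at h
    rw [← LinearIndependent.iff_fractionRing ℤ ℚ, Fintype.linearIndependent_iff] at h
    have h0 := h ![-t, r, s] (by
      rw [Fin.sum_univ_three]
      have e1 : (Fin.cons (1 : ℝ) ![x, y] : Fin 3 → ℝ) 1 = x := rfl
      have e2 : (Fin.cons (1 : ℝ) ![x, y] : Fin 3 → ℝ) 2 = y := rfl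
      have e0 : (Fin.cons (1 : ℝ) ![x, y] : Fin 3 → ℝ) 0 = 1 := rfl
      rw [e0, e1, e2]
      simp only [zsmul_eq_mul, Matrix.cons_val]
      push_cast
      linarith)
    exact ⟨h0 1, h0 2⟩
  apply indep_pair
  intro r s t e
  apply key r s (N * t - r * p - s * q)
  push_cast
  have e' : ((r : ℝ) * ((x + p) / N) + s * ((y + q) / N)) * N = t * N := by rw [e]
  have : ((r : ℝ) * ((x + p) / N) + s * ((y + q) / N)) * N = r * (x + p) + s * (y + q) := by
    field_simp
  rw [this] at e'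
  linarith

theorem approx {x c ε : ℝ} {N : ℕ} (hN : 0 < N) (h : 1 / (N : ℝ) < ε) :
    ∃ p : ℤ, |(x + p) / N - c| < ε := by
  have hN' : (0 : ℝ) < N := by positivity
  refine ⟨⌊N * c - x⌋, ?_⟩
  have h1 := Int.floor_le (N * c - x)
  have h2 := Int.lt_floor_add_one (N * c - x)
  have e : (x + ⌊N * c - x⌋) / N - c = (x + ⌊N * c - x⌋ - N * c) / N := by
    field_simp
  rw [e, abs_div, abs_of_pos hN']
  refine lt_of_le_of_lt ?_ h
  apply div_le_div_of_nonneg_right _ hN'.le
  rw [abs_le]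
  constructor <;> linarith

/-- Near any vector there is a good vector realising a given admissible pair. -/
theorem near {x y : ℝ} (hA : Admissible x y) (l : ℕ) (c : Fin (l + 2) → ℝ) {ε : ℝ}
    (hε : 0 < ε) : ∃ α : Fin (l + 2) → ℝ, Indep α ∧ (∀ i, |α i - c i| < ε) ∧
      ∃ (u w : Fin (l + 2) → ℤ) (p q : ℤ), (∑ i, (u i : ℝ) * α i) + p = x ∧
        (∑ i, (w i : ℝ) * α i) + q = y := by
  obtain ⟨N, hN⟩ := exists_nat_gt (1 / ε)
  have hNpos : (0 : ℝ) < N := lt_trans (by positivity) hN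
  have hN0 : 0 < N := by exact_mod_cast hNpos
  have hN1 : 1 / (N : ℝ) < ε := by
    rw [div_lt_iff₀ hNpos]
    rw [div_lt_iff₀ hε] at hN
    linarith
  obtain ⟨p, hp⟩ := approx (x := x) (c := c 0) hN0 hN1
  obtain ⟨q, hq⟩ := approx (x := y) (c := c 1) hN0 hN1
  obtain ⟨α, h1, h2, h3, h4⟩ := extend (indep_scale hA.indep hN0 p q) hε l c
  refine ⟨α, h1, ?_, Pi.single 0 N, Pi.single 1 N, -p, -q, ?_, ?_⟩
  · intro i
    by_cases hi : 2 ≤ i.val
    · exact h4 i hi
    · have hi' : i = 0 ∨ i = 1 := by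
        rcases Nat.lt_or_ge i.val 1 with h | h
        · exact Or.inl (Fin.ext (show i.val = 0 by omega))
        · exact Or.inr (Fin.ext (show i.val = 1 by omega))
      rcases hi' with rfl | rfl
      · rw [h2]; exact hp
      · rw [h3]; exact hq
  · rw [Finset.sum_eq_single 0]
    · rw [Pi.single_eq_same, h2]
      push_cast
      field_simp
      ring
    · intro i _ hi
      rw [Pi.single_eq_of_ne hi]
      simp
    · intro h
      exact absurd (Finset.mem_univ _) h
  · rw [Finset.sum_eq_single 1]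
    · rw [Pi.single_eq_same, h3]
      push_cast
      field_simp
      ring
    · intro i _ hi
      rw [Pi.single_eq_of_ne hi]
      simp
    · intro h
      exact absurd (Finset.mem_univ _) h

theorem not_countable_seq : ¬ Countable (ℕ → Bool) := by
  intro h
  obtain ⟨f, hf⟩ := exists_surjective_nat (ℕ → Bool)
  obtain ⟨n, hn⟩ := hf fun n => !(f n n)
  have := congrFun hn n
  simp at this

/-- The admissible pairs form an uncountable set. -/
theorem pairs_uncountable : ¬ {P : ℝ × ℝ | Admissible P.1 P.2}.Countable := by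
  intro hc
  apply not_countable_seq
  have hex : ∀ d : ℕ → Bool, ∃ P : ℝ × ℝ, ∃ a b, a 0 = P.1 ∧ b 0 = P.2 ∧
      Adm a b (fun j => if d j then 3 else 4) (fun _ => 4) ∧ Admissible P.1 P.2 := by
    intro d
    obtain ⟨a, b, A, hA⟩ := exists_admissible (k := fun j => if d j then 3 else 4)
      (m := fun _ => 4) (M := 4) (fun j => by split_ifs <;> norm_num)
      (fun j => by norm_num)
    exact ⟨(a 0, b 0), a, b, rfl, rfl, A, hA⟩
  choose F a b h1 h2 h3 h4 using hex
  have hinj : Function.Injective fun d : ℕ → Bool =>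
      (⟨F d, h4 d⟩ : {P : ℝ × ℝ | Admissible P.1 P.2}) := by
    intro d d' e
    have e' : F d = F d' := congrArg Subtype.val e
    funext j
    have := ((h3 d).digits_uniq (h3 d') (by rw [h1, h1, e']) (by rw [h2, h2, e'])
      (j + 1)).2.2 j (by omega)
    have h := this.1
    by_cases hd : d j <;> by_cases hd' : d' j <;> simp_all
  have := hc.to_subtype
  exact hinj.countable

/-- In every non-empty open set there are uncountably many good vectors. -/
theorem good_uncountable {n : ℕ} (hn : 2 ≤ n) {O : Set (Fin n → ℝ)} (hO : IsOpen O)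
    (hne : O.Nonempty) : ¬ (O ∩ Good n).Countable := by
  obtain ⟨l, rfl⟩ : ∃ l, n = l + 2 := ⟨n - 2, by omega⟩
  intro hc
  apply pairs_uncountable
  obtain ⟨c, hcO⟩ := hne
  obtain ⟨ε, hε, hball⟩ := Metric.isOpen_iff.1 hO c hcO
  have hsub : {P : ℝ × ℝ | Admissible P.1 P.2} ⊆
      ⋃ t : (Fin (l + 2) → ℤ) × (Fin (l + 2) → ℤ) × ℤ × ℤ,
        (fun α : Fin (l + 2) → ℝ => ((∑ i, (t.1 i : ℝ) * α i) + t.2.2.1,
          (∑ i, (t.2.1 i : ℝ) * α i) + t.2.2.2)) '' (O ∩ Good (l + 2)) := by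
    rintro ⟨x, y⟩ hP
    obtain ⟨α, h1, h2, u, w, p, q, h3, h4⟩ := near hP l c hε
    rw [Set.mem_iUnion]
    refine ⟨(u, w, p, q), α, ⟨hball ?_, h1, u, w, p, q, ?_⟩, ?_⟩
    · rw [Metric.mem_ball, dist_pi_lt_iff hε]
      intro i
      rw [Real.dist_eq]
      exact h2 i
    · rw [h3, h4]
      exact hP
    · simp only [h3, h4]
  exact (Set.countable_iUnion fun t => hc.image _).mono hsub

/-- Constant digits: roots of `t ^ 3 - k * t + 1`. -/
theorem cubic_adm {k : ℤ} (hk : 4 ≤ k) {t : ℝ} (h0 : 0 < t) (h1 : t < 1 / 3)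
    (h : t ^ 3 - k * t + 1 = 0) : Admissible t (t ^ 2) := by
  refine ⟨fun _ => t, fun _ => t ^ 2, fun _ => k, fun _ => k, k, rfl, rfl,
    ⟨fun _ => ?_, fun _ => ?_, fun _ => ?_, fun _ => ?_, fun _ => ?_, fun _ => ?_, fun _ => ?_⟩,
    fun _ => ⟨le_rfl, le_rfl⟩⟩
  · omega
  · exact hk
  · positivity
  · nlinarith
  · nlinarith
  · linarith
  · linear_combination -t * h

theorem cubic_exists {k : ℤ} (hk : 4 ≤ k) :
    ∃ t : ℝ, 0 < t ∧ t < 1 / 3 ∧ t ^ 3 - k * t + 1 = 0 := by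
  have hk' : (4 : ℝ) ≤ k := by exact_mod_cast hk
  have hcont : ContinuousOn (fun t : ℝ => t ^ 3 - k * t + 1) (Set.Icc 0 (1 / 3)) := by
    fun_prop
  have hI := intermediate_value_Ioo' (a := (0 : ℝ)) (b := 1 / 3) (by norm_num) hcont
  have hmem : (0 : ℝ) ∈ Set.Ioo ((1 / 3 : ℝ) ^ 3 - k * (1 / 3) + 1) ((0 : ℝ) ^ 3 - k * 0 + 1) := by
    constructor
    · nlinarith
    · norm_num
  obtain ⟨t, ht, e⟩ := hI hmem
  exact ⟨t, ht.1, ht.2, e⟩

end BR13
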