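import Pool.Agent.LibBR13.Derive

/-! The derived system. -/

namespace BR13

namespace Sys

variable {X : Type} (S : Sys X)

/-- Origins of patches. -/
abbrev Orig : Type := {x : X // (S.lab x).x = 0 ∧ (S.lab x).y = 0}

/-- The origin of the patch around `x`, as an origin. -/
def rt (x : X) : S.Orig := ⟨S.root x, by rw [S.lab_root]; exact ⟨rfl, rfl⟩⟩

theorem rt_orig (p : S.Orig) : S.rt p.1 = p :=
  Subtype.ext (S.root_of_zero p.2.1 p.2.2)

/-- Step to the right neighbour tile. -/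
def R1 : Equiv.Perm S.Orig where
  toFun p := ⟨S.act (S.lab p.1).k (d1y (S.lab p.1).s) p.1,
    (S.lab_R1 p.2.1 p.2.2).1, (S.lab_R1 p.2.1 p.2.2).2.1⟩
  invFun p := S.rt (S.R.symm p.1)
  left_inv p := by
    obtain ⟨v1, v2, v3, v4, v5⟩ := S.val p.1
    apply Subtype.ext
    change S.root (S.R.symm (S.act (S.lab p.1).k (d1y (S.lab p.1).s) p.1)) = p.1
    rw [S.act_Rs]
    have hin : InP (S.lab p.1).k (S.lab p.1).m (S.lab p.1).s ((S.lab p.1).k - 1)
        (d1y (S.lab p.1).s) := by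
      unfold d1y
      split_ifs
      · right; right; left; omega
      · right; left; omega
    have q := (S.patch0 p.2.1 p.2.2 hin).1
    unfold root
    rw [q, S.act_add]
    simp [S.act_zero]
  right_inv p := by
    obtain ⟨d1, d2, d3, d4, d5⟩ := S.lab_left p.2.1 p.2.2
    apply Subtype.ext
    change S.act (S.lab (S.root (S.R.symm p.1))).k
      (d1y (S.lab (S.root (S.R.symm p.1))).s) (S.root (S.R.symm p.1)) = p.1
    rw [S.lab_root]
    dsimp only
    unfold root
    rw [S.act_add, d1, d2, d3, S.Rs_act, S.act_add]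
    have e1 : (S.lab p.1).k + -((S.lab p.1).k - 1) + -1 = 0 := by ring
    rw [e1]
    simp [S.act_zero]

/-- Step to the upper neighbour tile. -/
def U1 : Equiv.Perm S.Orig where
  toFun p := ⟨S.act (-1) (d2y (S.lab p.1).m (S.lab p.1).s) p.1,
    (S.lab_U1 p.2.1 p.2.2).1, (S.lab_U1 p.2.1 p.2.2).2.1⟩
  invFun p := S.rt (S.U.symm p.1)
  left_inv p := by
    obtain ⟨v1, v2, v3, v4, v5⟩ := S.val p.1
    apply Subtype.ext
    change S.root (S.U.symm (S.act (-1) (d2y (S.lab p.1).m (S.lab p.1).s) p.1)) = p.1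
    rw [S.act_Us]
    have hin : InP (S.lab p.1).k (S.lab p.1).m (S.lab p.1).s (-1)
        (d2y (S.lab p.1).m (S.lab p.1).s - 1) := by
      unfold d2y
      split_ifs
      · left; omega
      · right; right; right; omega
    have q := (S.patch0 p.2.1 p.2.2 hin).1
    unfold root
    rw [q, S.act_add]
    simp [S.act_zero]
  right_inv p := by
    obtain ⟨d1, d2, d3, d4, d5⟩ := S.lab_down p.2.1 p.2.2
    apply Subtype.ext
    change S.act (-1) (d2y (S.lab (S.root (S.U.symm p.1))).m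
      (S.lab (S.root (S.U.symm p.1))).s) (S.root (S.U.symm p.1)) = p.1
    rw [S.lab_root]
    dsimp only
    unfold root
    rw [S.act_add, d1, d2, d4, S.Us_act, S.act_add]
    have e1 : ∀ t : ℤ, t + -(t - 1) + -1 = 0 := by intro t; ring
    rw [e1]
    simp [S.act_zero]

theorem R1_val (p : S.Orig) :
    (S.R1 p).1 = S.act (S.lab p.1).k (d1y (S.lab p.1).s) p.1 := rfl

theorem U1_val (p : S.Orig) :
    (S.U1 p).1 = S.act (-1) (d2y (S.lab p.1).m (S.lab p.1).s) p.1 := rfl

theorem R1_symm (p : S.Orig) : S.R1.symm p = S.rt (S.R.symm p.1) := rfl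

theorem U1_symm (p : S.Orig) : S.U1.symm p = S.rt (S.U.symm p.1) := rfl

/-- The position of the right neighbour. -/
theorem root_R (x : X) :
    (S.lab (S.R x) = ⟨(S.lab x).k, (S.lab x).m, (S.lab x).x + 1, (S.lab x).y, (S.lab x).s⟩ ∧
      S.rt (S.R x) = S.rt x) ∨
    (((S.lab (S.R x)).x = 0 ∧ (S.lab (S.R x)).y = 0 ∨
        (S.lab (S.R x)).x = -1 ∧ 1 ≤ (S.lab (S.R x)).y) ∧
      (S.lab x).x = (S.lab (S.R x)).x + (S.lab x).k - 1 ∧
      (S.lab x).y = (S.lab (S.R x)).y + d1y (S.lab x).s ∧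
      (S.lab (S.R x)).k = (S.lab x).k ∧ (S.lab (S.R x)).m = (S.lab x).m ∧
      S.rt (S.R x) = S.R1 (S.rt x)) ∨
    ((S.lab (S.R x)).x = 1 ∧ (S.lab (S.R x)).y = -1 ∧ (S.lab x).x = -1 ∧
      (S.lab x).y = (S.lab x).m - 1 ∧ ((S.lab x).s = 1 ∨ (S.lab x).s = 2) ∧
      (S.lab (S.R x)).k = (S.lab x).k ∧ (S.lab (S.R x)).m = (S.lab x).m ∧
      S.rt (S.R x) = S.U1 (S.rt x)) := by
  have h := S.hV' x
  have h0 := h
  obtain ⟨⟨v1, v2, v3, v4, v5⟩, ⟨w1, w2, w3, w4, w5⟩, g1, g2, h | h | h⟩ := h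
  · left
    obtain ⟨q1, q2, q3, q4, q5⟩ := h
    have hl : S.lab (S.R x) =
        ⟨(S.lab x).k, (S.lab x).m, (S.lab x).x + 1, (S.lab x).y, (S.lab x).s⟩ := by
      ext <;> simp only <;> omega
    refine ⟨hl, ?_⟩
    apply Subtype.ext
    change S.root _ = S.root _
    unfold root
    rw [hl, S.R_act, S.act_add]
    dsimp only
    congr 1 <;> ring
  · right; left
    obtain ⟨q1, q2, q3, q4, q5⟩ := h
    refine ⟨?_, by omega, by omega, by omega, by omega, ?_⟩
    · rcases left_cls w1 w2 w3 w4 w5 q1 q2 with h | h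
      · left; exact h
      · right; exact ⟨h.1, h.2.1⟩
    · apply Subtype.ext
      rw [S.R1_val]
      change S.root _ = S.act (S.lab (S.root x)).k (d1y (S.lab (S.root x)).s) (S.root x)
      rw [S.lab_root]
      dsimp only
      unfold root
      rw [S.R_act, S.act_add, S.act_add, ← S.R_act]
      congr 1 <;> omega
  · right; right
    obtain ⟨q1, q2, q3, q4, q5⟩ := h
    have hs : 2 ≤ (S.lab (S.R x)).s := by
      rw [q1, q2] at w5
      clear v5 q5
      grind (splits := 40)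
    have hs2 := q5.2 hs
    have hd : d2y (S.lab x).m (S.lab x).s = (S.lab x).m := by
      unfold d2y; split_ifs <;> omega
    rw [hd] at q4
    refine ⟨q1, q2, by omega, by omega, hs2, by omega, by omega, ?_⟩
    apply Subtype.ext
    rw [S.U1_val]
    change S.root _ = S.act (-1) (d2y (S.lab (S.root x)).m (S.lab (S.root x)).s) (S.root x)
    rw [S.lab_root]
    dsimp only
    rw [hd]
    unfold root
    rw [S.R_act, S.act_add, S.act_add, ← S.R_act]
    congr 1 <;> omega

/-- The position of the upper neighbour. -/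
theorem root_U (x : X) :
    (S.lab (S.U x) = ⟨(S.lab x).k, (S.lab x).m, (S.lab x).x, (S.lab x).y + 1, (S.lab x).s⟩ ∧
      S.rt (S.U x) = S.rt x) ∨
    (0 ≤ (S.lab (S.U x)).x ∧
      (S.lab x).x = (S.lab (S.U x)).x - 1 ∧
      (S.lab x).y = (S.lab (S.U x)).y + d2y (S.lab x).m (S.lab x).s - 1 ∧
      (S.lab (S.U x)).k = (S.lab x).k ∧ (S.lab (S.U x)).m = (S.lab x).m ∧
      CV (S.lab x).s (S.lab (S.U x)).s ∧
      ((S.lab (S.U x)).x = 0 ∧ (S.lab (S.U x)).y = 0 ∨
        (S.lab (S.U x)).y = 0 ∧ 1 ≤ (S.lab (S.U x)).x ∧ (S.lab (S.U x)).s ≤ 1 ∨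
        (S.lab (S.U x)).y = -1 ∧ 1 ≤ (S.lab (S.U x)).x ∧ 2 ≤ (S.lab (S.U x)).s) ∧
      S.rt (S.U x) = S.U1 (S.rt x)) ∨
    ((S.lab (S.U x)).x = -1 ∧ (S.lab (S.U x)).y = 1 ∧ (S.lab x).x = (S.lab x).k - 1 ∧
      (S.lab x).y = d1y (S.lab x).s ∧
      (S.lab (S.U x)).k = (S.lab x).k ∧ (S.lab (S.U x)).m = (S.lab x).m ∧
      S.rt (S.U x) = S.R1 (S.rt x)) := by
  have h := S.hH' x
  obtain ⟨⟨v1, v2, v3, v4, v5⟩, ⟨w1, w2, w3, w4, w5⟩, g1, g2, h | h | h⟩ := h
  · left
    obtain ⟨q1, q2, q3, q4, q5⟩ := h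
    have hl : S.lab (S.U x) =
        ⟨(S.lab x).k, (S.lab x).m, (S.lab x).x, (S.lab x).y + 1, (S.lab x).s⟩ := by
      ext <;> simp only <;> omega
    refine ⟨hl, ?_⟩
    apply Subtype.ext
    change S.root _ = S.root _
    unfold root
    rw [hl, S.U_act, S.act_add]
    dsimp only
    congr 1 <;> ring
  · right; left
    obtain ⟨q1, q2, q3, q4, q5⟩ := h
    have hcl := bot_cls w1 w2 w3 w4 w5 q1 q2
    refine ⟨?_, by omega, by omega, by omega, by omega, q5, ?_, ?_⟩
    · rcases hcl with h | h | h <;> omega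
    · rcases hcl with h | h | h
      · left; exact h
      · right; left; exact ⟨h.1, h.2.1, h.2.2.2⟩
      · right; right; exact ⟨h.1, h.2.1, h.2.2.2⟩
    · apply Subtype.ext
      rw [S.U1_val]
      change S.root _ = S.act (-1) (d2y (S.lab (S.root x)).m (S.lab (S.root x)).s) (S.root x)
      rw [S.lab_root]
      dsimp only
      unfold root
      rw [S.U_act, S.act_add, S.act_add, ← S.U_act]
      congr 1 <;> omega
  · right; right
    obtain ⟨q1, q2, q3, q4, q5⟩ := h
    refine ⟨q1, q2, by omega, by omega, by omega, by omega, ?_⟩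
    apply Subtype.ext
    rw [S.R1_val]
    change S.root _ = S.act (S.lab (S.root x)).k (d1y (S.lab (S.root x)).s) (S.root x)
    rw [S.lab_root]
    dsimp only
    unfold root
    rw [S.U_act, S.act_add, S.act_add, ← S.U_act]
    congr 1 <;> omega

/-- The derived system. -/
noncomputable def der : Sys S.Orig where
  R := S.R1
  U := S.U1
  comm := by
    ext p
    obtain ⟨v1, v2, v3, v4, v5⟩ := S.val p.1
    change (S.R1 (S.U1 p)).1 = (S.U1 (S.R1 p)).1
    rw [S.R1_val, S.U1_val, S.U1_val, S.R1_val, S.act_add, S.act_add]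
    have a := S.lab_R1 p.2.1 p.2.2
    have b := S.lab_U1 p.2.1 p.2.2
    rw [b.2.2.1, a.2.2.2.1]
    obtain ⟨w1, w2, w3, w4, -⟩ := S.val (S.act (S.lab p.1).k (d1y (S.lab p.1).s) p.1)
    obtain ⟨u1, u2, u3, u4, -⟩ := S.val (S.act (-1) (d2y (S.lab p.1).m (S.lab p.1).s) p.1)
    have a5 := a.2.2.2.2
    have b5 := b.2.2.2.2
    clear a b v5
    generalize (S.lab (S.act (S.lab p.1).k (d1y (S.lab p.1).s) p.1)).s = t at *
    generalize (S.lab (S.act (-1) (d2y (S.lab p.1).m (S.lab p.1).s) p.1)).s = r at *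
    have e : d1y r + d2y (S.lab p.1).m (S.lab p.1).s =
        d2y (S.lab p.1).m t + d1y (S.lab p.1).s := by
      unfold d1y d2y
      split_ifs <;> omega
    rw [e]
    congr 1
    ring
  lab p := S.O p.1
  c1 p := S.c1 p.1
  c2 p := S.c2 p.1
  hH p := by
    rw [S.U1_symm]
    change RelH (S.O (S.root _)) _ _
    rw [S.O_root]
    exact S.relH1 p.2.1 p.2.2
  hV p := by
    rw [S.R1_symm]
    change RelV (S.O (S.root _)) _ _
    rw [S.O_root]
    exact S.relV1 p.2.1 p.2.2
  hX p := by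
    rw [S.R1_symm, S.U1_symm]
    change VR _ _ (S.c1 (S.root (S.R.symm p.1))) (S.c2 (S.root (S.U.symm p.1)))
    have h := S.hX p.1
    obtain ⟨a1, a2, a3, a4, a5⟩ := S.lab_left p.2.1 p.2.2
    obtain ⟨b1, b2, b3, b4, b5⟩ := S.lab_down p.2.1 p.2.2
    have e1 : S.c1 (S.R.symm p.1) = S.c1 (S.root (S.R.symm p.1)) := by
      have hl := S.lab_root (S.R.symm p.1)
      have := S.path1 (p := S.root (S.R.symm p.1)) (by rw [hl]) (by rw [hl])
      rw [← this, hl]
      dsimp only
      unfold root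
      rw [S.act_add, a1, a2, a3]
      simp [S.act_zero]
    have e2 : S.c2 (S.U.symm p.1) = S.c2 (S.root (S.U.symm p.1)) := by
      have hl := S.lab_root (S.U.symm p.1)
      have := S.path2 (p := S.root (S.U.symm p.1)) (by rw [hl]) (by rw [hl])
      rw [← this, hl]
      dsimp only
      unfold root
      rw [S.act_add, b1, b2, b4]
      simp [S.act_zero]
    rw [← e1, ← e2]
    exact h
  conn Q hR hU p q hp := by
    have key := S.conn (fun x => Q (S.rt x)) (by
      intro x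
      rcases S.root_R x with h | h | h
      · rw [h.2]
      · rw [h.2.2.2.2.2]; exact hR _
      · rw [h.2.2.2.2.2.2.2]; exact hU _) (by
      intro x
      rcases S.root_U x with h | h | h
      · rw [h.2]
      · rw [h.2.2.2.2.2.2.2]; exact hU _
      · rw [h.2.2.2.2.2.2]; exact hR _) p.1 q.1 (by rw [S.rt_orig]; exact hp)
    rw [S.rt_orig] at key
    exact key

end Sys

end BR13
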