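import Pool.Agent.LibBR13.Root

/-! The derived system on the origins of the patches. -/

namespace BR13

namespace Sys

variable {X : Type} (S : Sys X)

theorem b_step {z : X}
    (ha : InP (S.lab z).k (S.lab z).m (S.lab z).s ((S.lab z).x - 1) (S.lab z).y)
    (hb : ¬ InP (S.lab z).k (S.lab z).m (S.lab z).s (S.lab z).x ((S.lab z).y - 1)) :
    S.c1 z = S.c1 (S.R.symm z) ∧ RelH (S.c2 (S.U.symm z)).o (S.c2 z).o (S.c1 z) :=
  vert_b (S.hH z) (S.hV z) (S.hV (S.U.symm z)) (S.hX z) ha hb

theorem c_step {z : X}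
    (ha : ¬ InP (S.lab z).k (S.lab z).m (S.lab z).s ((S.lab z).x - 1) (S.lab z).y)
    (hb : InP (S.lab z).k (S.lab z).m (S.lab z).s (S.lab z).x ((S.lab z).y - 1)) :
    S.c2 z = S.c2 (S.U.symm z) ∧ RelV (S.c1 (S.R.symm z)).o (S.c1 z).o (S.c2 z) :=
  vert_c (S.hH z) (S.hV z) (S.hH (S.R.symm z)) (S.hX z) ha hb

theorem d_step {z : X} (hx : (S.lab z).x = -1) (hy : (S.lab z).y = 1) :
    S.c1 z = S.c2 z := by
  have h4 := S.hV (S.U.symm z)
  rw [S.commss] at h4
  exact vert_d (S.hH z) (S.hV z) (S.hH (S.R.symm z)) h4 (S.hX z) hx hy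

theorem e_step {z : X} (hx : (S.lab z).x = 1) (hy : (S.lab z).y = -1) :
    S.c1 z = S.c2 z := by
  have h4 := S.hV (S.U.symm z)
  rw [S.commss] at h4
  exact vert_e (S.hH z) (S.hV z) (S.hH (S.R.symm z)) h4 (S.hX z) hx hy

theorem g_step {z : X} (hx : (S.lab z).x = 0) (hy : (S.lab z).y = 1) :
    S.c2 (S.U.symm z) = S.c1 (S.R.symm z) :=
  vert_g (S.hH z) (S.hV z) (S.hX z) hx hy

theorem h_step {z : X} (hx : (S.lab z).x = 1) (hy : (S.lab z).y = 0) (hs : 2 ≤ (S.lab z).s) :
    S.c2 (S.U.symm z) = S.c1 (S.R.symm z) :=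
  vert_h (S.hH z) (S.hV z) (S.hX z) hx hy hs

variable {p : X} (hx : (S.lab p).x = 0) (hy : (S.lab p).y = 0)

include hx hy

theorem path1' (hs : 2 ≤ (S.lab p).s) : S.c1 (S.act 1 (-1) p) = S.c1 p := by
  obtain ⟨v1, v2, v3, v4, v5⟩ := S.val p
  have q1 := (S.patch0 hx hy (i := 1) (j := 0) (by right; left; omega)).1
  have q2 := (S.patch0 hx hy (i := 1) (j := -1) (by right; right; left; omega)).1
  have h1 := S.h_step (z := S.act 1 0 p) (by rw [q1]) (by rw [q1]) (by rw [q1]; exact hs)
  rw [S.act_Us, S.act_Rs] at h1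
  simp only [sub_self, zero_sub, S.act_zero] at h1
  have h2 := S.e_step (z := S.act 1 (-1) p) (by rw [q2]) (by rw [q2])
  rw [h2, h1]

theorem path1 : S.c1 (S.act ((S.lab p).k - 1) (d1y (S.lab p).s) p) = S.c1 p := by
  obtain ⟨v1, v2, v3, v4, v5⟩ := S.val p
  by_cases hs : 2 ≤ (S.lab p).s
  · have hd : d1y (S.lab p).s = -1 := by unfold d1y; split_ifs; rfl
    rw [hd]
    have key : ∀ x : ℤ, 1 ≤ x → x ≤ (S.lab p).k - 1 → S.c1 (S.act x (-1) p) = S.c1 p := by
      intro x hx1
      induction x, hx1 using Int.leInduction with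
      | base => intro _; exact S.path1' hx hy hs
      | succ n hn ih =>
        intro h
        have q1 := (S.patch0 hx hy (i := n + 1) (j := -1) (by right; right; left; omega)).1
        have h1 := (S.b_step (z := S.act (n + 1) (-1) p) (by
            rw [q1]; right; right; left; dsimp only; omega) (by
            rw [q1]; simp only
            clear ih q1 v5
            grind (splits := 40))).1
        rw [h1, S.act_Rs]
        have e : n + 1 - 1 = n := by ring
        rw [e]
        exact ih (by omega)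
    exact key _ (by omega) le_rfl
  · have hd : d1y (S.lab p).s = 0 := by unfold d1y; split_ifs; rfl
    rw [hd]
    have key : ∀ x : ℤ, 0 ≤ x → x ≤ (S.lab p).k - 1 → S.c1 (S.act x 0 p) = S.c1 p := by
      intro x hx1
      induction x, hx1 using Int.leInduction with
      | base => intro _; rw [S.act_zero]
      | succ n hn ih =>
        intro h
        have q1 := (S.patch0 hx hy (i := n + 1) (j := 0) (by right; left; omega)).1
        have h1 := (S.b_step (z := S.act (n + 1) 0 p) (by
            rw [q1]; right; left; dsimp only; omega) (by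
            rw [q1]; simp only
            clear ih q1 v5
            grind (splits := 40))).1
        rw [h1, S.act_Rs]
        have e : n + 1 - 1 = n := by ring
        rw [e]
        exact ih (by omega)
    exact key _ (by omega) le_rfl

theorem path2' : S.c2 (S.act (-1) 1 p) = S.c2 p := by
  obtain ⟨v1, v2, v3, v4, v5⟩ := S.val p
  have q1 := (S.patch0 hx hy (i := 0) (j := 1) (by left; omega)).1
  have q2 := (S.patch0 hx hy (i := -1) (j := 1) (by left; omega)).1
  have h1 := S.g_step (z := S.act 0 1 p) (by rw [q1]) (by rw [q1])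
  rw [S.act_Us, S.act_Rs] at h1
  simp only [sub_self, zero_sub, S.act_zero] at h1
  have h2 := S.d_step (z := S.act (-1) 1 p) (by rw [q2]) (by rw [q2])
  rw [← h2, ← h1]

theorem path2 : S.c2 (S.act (-1) (d2y (S.lab p).m (S.lab p).s - 1) p) = S.c2 p := by
  obtain ⟨v1, v2, v3, v4, v5⟩ := S.val p
  have key : ∀ y : ℤ, 1 ≤ y → y ≤ d2y (S.lab p).m (S.lab p).s - 1 →
      S.c2 (S.act (-1) y p) = S.c2 p := by
    intro y hy1
    induction y, hy1 using Int.leInduction with
    | base => intro _; exact S.path2' hx hy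
    | succ n hn ih =>
      intro h
      have hin : InP (S.lab p).k (S.lab p).m (S.lab p).s (-1) (n + 1) := by
        clear ih v5
        unfold d2y at h
        split_ifs at h
        · left; omega
        · by_cases hn2 : n + 1 = (S.lab p).m - 1
          · right; right; right; omega
          · left; omega
      have q1 := (S.patch0 hx hy (i := -1) (j := n + 1) hin).1
      have h1 := (S.c_step (z := S.act (-1) (n + 1) p) (by
          rw [q1]; simp only
          clear ih q1 v5 hin
          grind (splits := 40)) (by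
          rw [q1]; simp only; left
          unfold d2y at h
          split_ifs at h <;> omega)).1
      rw [h1, S.act_Us]
      have e : n + 1 - 1 = n := by ring
      rw [e]
      exact ih (by omega)
  refine key _ ?_ le_rfl
  unfold d2y
  split_ifs <;> omega

/-- The tile below. -/
theorem lab_down : (S.lab (S.U.symm p)).x = -1 ∧
    (S.lab (S.U.symm p)).y = d2y (S.lab p).m (S.lab (S.U.symm p)).s - 1 ∧
    (S.lab (S.U.symm p)).k = (S.lab p).k ∧ (S.lab (S.U.symm p)).m = (S.lab p).m ∧
    CV (S.lab (S.U.symm p)).s (S.lab p).s := by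
  obtain ⟨v1, v2, v3, v4, v5⟩ := S.val p
  have hb : ¬ InP (S.lab p).k (S.lab p).m (S.lab p).s (S.lab p).x ((S.lab p).y - 1) := by
    rw [hx, hy]; clear v5
    grind (splits := 40)
  obtain ⟨e1, e2, e3, e4, e5⟩ := relH_B (S.hH p) hb (by omega)
  refine ⟨by omega, ?_, e1, e2, e5⟩
  rw [e4, hy, e2]; ring

/-- The tile on the left. -/
theorem lab_left : (S.lab (S.R.symm p)).x = (S.lab p).k - 1 ∧
    (S.lab (S.R.symm p)).y = d1y (S.lab (S.R.symm p)).s ∧
    (S.lab (S.R.symm p)).k = (S.lab p).k ∧ (S.lab (S.R.symm p)).m = (S.lab p).m ∧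
    CH (S.lab (S.R.symm p)).s (S.lab p).s := by
  obtain ⟨v1, v2, v3, v4, v5⟩ := S.val p
  have hb : ¬ InP (S.lab p).k (S.lab p).m (S.lab p).s ((S.lab p).x - 1) (S.lab p).y := by
    rw [hx, hy]; clear v5
    grind (splits := 40)
  obtain ⟨e1, e2, e3, e4, e5⟩ := relV_L (S.hV p) hb (by omega)
  refine ⟨by omega, ?_, e1, e2, e5⟩
  rw [e4, hy]; ring

theorem relH1 : RelH (S.O (S.U.symm p)) (S.O p) (S.c1 p) := by
  obtain ⟨v1, v2, v3, v4, v5⟩ := S.val p
  obtain ⟨d1, d2, d3, d4, d5⟩ := S.lab_down hx hy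
  obtain ⟨w1, w2, w3, w4, w5⟩ := S.val (S.U.symm p)
  by_cases hs : 2 ≤ (S.lab p).s
  · have q := S.patch0 hx hy (i := 2) (j := -1) (by right; right; left; omega)
    have hs2 := d5.2 hs
    have hd : d2y (S.lab p).m (S.lab (S.U.symm p)).s = (S.lab p).m := by
      unfold d2y; split_ifs <;> omega
    rw [hd] at d2
    have r := S.patch (S.U.symm p) (i := 1) (j := (S.lab p).m - 2) (by left; omega)
    have e1 : S.act (1 - (S.lab (S.U.symm p)).x) ((S.lab p).m - 2 - (S.lab (S.U.symm p)).y)
        (S.U.symm p) = S.U.symm (S.act 2 (-1) p) := by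
      rw [d1, d2, S.act_Us, S.Us_act, S.act_add]
      congr 1; ring
    rw [e1] at r
    have hb := S.b_step (z := S.act 2 (-1) p) (by
        rw [q.1]; right; right; left; dsimp only; omega) (by
        rw [q.1]; simp only
        clear q r v5 w5
        grind (splits := 40))
    rw [S.act_Rs] at hb
    have e2 : (2 : ℤ) - 1 = 1 := by norm_num
    rw [e2, S.path1' hx hy hs] at hb
    obtain ⟨hb1, hb2⟩ := hb
    have o1 : (S.c2 (S.act 2 (-1) p)).o = S.O p := by
      rw [S.O_left (by rw [q.1]; right; right; left; dsimp only; omega), q.2]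
    have o2 : (S.c2 (S.U.symm (S.act 2 (-1) p))).o = S.O (S.U.symm p) := by
      rw [S.O_left (by rw [r.1]; left; dsimp only; omega), r.2]
    rw [o1, o2, hb1] at hb2
    exact hb2
  · have q := S.patch0 hx hy (i := 1) (j := 0) (by right; left; omega)
    have hs2 : ¬ ((S.lab (S.U.symm p)).s = 1 ∨ (S.lab (S.U.symm p)).s = 2) :=
      fun h => hs (d5.1 h)
    have hin : InP (S.lab (S.U.symm p)).k (S.lab (S.U.symm p)).m (S.lab (S.U.symm p)).s 0
        (d2y (S.lab p).m (S.lab (S.U.symm p)).s - 1) := by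
      unfold d2y
      split_ifs
      · left; omega
      · right; right; right; omega
    have r := S.patch (S.U.symm p) (i := 0) (j := d2y (S.lab p).m (S.lab (S.U.symm p)).s - 1)
      hin
    have e1 : S.act (0 - (S.lab (S.U.symm p)).x)
        (d2y (S.lab p).m (S.lab (S.U.symm p)).s - 1 - (S.lab (S.U.symm p)).y)
        (S.U.symm p) = S.U.symm (S.act 1 0 p) := by
      rw [← d2, d1, sub_self, S.act_Us, S.Us_act, S.act_add]
      congr 1
    rw [e1] at r
    have hb := S.b_step (z := S.act 1 0 p) (by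
        rw [q.1]; right; left; dsimp only; omega) (by
        rw [q.1]; simp only
        clear q r v5 w5 hin
        grind (splits := 40))
    rw [S.act_Rs] at hb
    simp only [sub_self, S.act_zero] at hb
    obtain ⟨hb1, hb2⟩ := hb
    have o1 : (S.c2 (S.act 1 0 p)).o = S.O p := by
      rw [S.O_left (by rw [q.1]; right; left; dsimp only; omega), q.2]
    have o2 : (S.c2 (S.U.symm (S.act 1 0 p))).o = S.O (S.U.symm p) := by
      rw [S.O_left (by
        rw [r.1]; simp only
        rw [← d2, zero_sub, ← d1]; exact w5), r.2]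
    rw [o1, o2, hb1] at hb2
    exact hb2

theorem relV1 : RelV (S.O (S.R.symm p)) (S.O p) (S.c2 p) := by
  obtain ⟨v1, v2, v3, v4, v5⟩ := S.val p
  obtain ⟨d1, d2, d3, d4, d5⟩ := S.lab_left hx hy
  obtain ⟨w1, w2, w3, w4, w5⟩ := S.val (S.R.symm p)
  have q := S.patch0 hx hy (i := -1) (j := 2) (by left; omega)
  have hin : InP (S.lab (S.R.symm p)).k (S.lab (S.R.symm p)).m (S.lab (S.R.symm p)).s
      ((S.lab p).k - 2) (d1y (S.lab (S.R.symm p)).s + 2) := by
    unfold d1y
    split_ifs
    · left; omega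
    · left; omega
  have hin2 : InP (S.lab (S.R.symm p)).k (S.lab (S.R.symm p)).m (S.lab (S.R.symm p)).s
      ((S.lab p).k - 2) (d1y (S.lab (S.R.symm p)).s + 2 - 1) := by
    unfold d1y
    split_ifs
    · right; left; omega
    · left; omega
  have r := S.patch (S.R.symm p) hin
  have e1 : S.act ((S.lab p).k - 2 - (S.lab (S.R.symm p)).x)
      (d1y (S.lab (S.R.symm p)).s + 2 - (S.lab (S.R.symm p)).y)
      (S.R.symm p) = S.R.symm (S.act (-1) 2 p) := by
    rw [← d2, d1, S.act_Rs, S.Rs_act, S.act_add]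
    congr 1 <;> ring
  rw [e1] at r
  have hb := S.c_step (z := S.act (-1) 2 p) (by
      rw [q.1]; simp only
      clear q r v5 w5 hin hin2
      grind (splits := 40)) (by
      rw [q.1]; left; dsimp only; omega)
  rw [S.act_Us] at hb
  have e2 : (2 : ℤ) - 1 = 1 := by norm_num
  rw [e2, S.path2' hx hy] at hb
  obtain ⟨hb1, hb2⟩ := hb
  have o1 : (S.c1 (S.act (-1) 2 p)).o = S.O p := by
    rw [S.O_bot (by rw [q.1]; left; dsimp only; omega), q.2]
  have o2 : (S.c1 (S.R.symm (S.act (-1) 2 p))).o = S.O (S.R.symm p) := by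
    rw [S.O_bot (by rw [r.1]; exact hin2), r.2]
  rw [o1, o2, hb1] at hb2
  exact hb2

end Sys

end BR13
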