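import Pool.Agent.LibBR13.Content

/-! Generic phases: labels and contents are locally constant on a dense open set. -/

namespace BR13

open Filter Topology

variable {a b : ℕ → ℝ} {k m : ℕ → ℤ}

/-- The type is locally constant. -/
def LocTyp (a b : ℕ → ℝ) (j : ℕ) (t : ℝ) (s : ℤ) : Prop :=
  ∀ᶠ t' in 𝓝 t, 0 ≤ t' ∧ t' < 1 ∧ Typ (a j) (b j) t' = s

/-- All data are locally constant at `t`. -/
def AllGood (a b : ℕ → ℝ) (k m : ℕ → ℤ) (j : ℕ) (t : ℝ) : Prop :=
  (∃ s, LocTyp a b j t s) ∧ (∃ l, ∀ᶠ t' in 𝓝 t, LabAt a b k m j t' l) ∧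
    ∀ d, ∃ c, ∀ᶠ t' in 𝓝 t, Con a b k m j d t' c

theorem isOpen_allGood (j : ℕ) : IsOpen {t | AllGood a b k m j t} := by
  have h1 : ∀ (P : ℝ → Prop), IsOpen {t | ∀ᶠ t' in 𝓝 t, P t'} := fun P =>
    isOpen_setOfPred_eventually_nhds
  have e : {t | AllGood a b k m j t} =
      (⋃ s, {t | ∀ᶠ t' in 𝓝 t, 0 ≤ t' ∧ t' < 1 ∧ Typ (a j) (b j) t' = s}) ∩
      ((⋃ l, {t | ∀ᶠ t' in 𝓝 t, LabAt a b k m j t' l}) ∩
      ((⋃ c, {t | ∀ᶠ t' in 𝓝 t, Con a b k m j false t' c}) ∩
       (⋃ c, {t | ∀ᶠ t' in 𝓝 t, Con a b k m j true t' c}))) := by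
    ext t
    simp only [AllGood, LocTyp, Set.mem_ofPred_eq, Set.mem_inter_iff, Set.mem_iUnion,
      Bool.forall_bool]
  rw [e]
  exact (isOpen_iUnion fun _ => h1 _).inter ((isOpen_iUnion fun _ => h1 _).inter
    ((isOpen_iUnion fun _ => h1 _).inter (isOpen_iUnion fun _ => h1 _)))

theorem Typ_mono {a b t t' : ℝ} (hb : 0 < b) (hab : b < a) (h : t ≤ t') :
    Typ a b t ≤ Typ a b t' := by
  rcases Typ_cases (a := a) (b := b) t hb hab with c | c | c | c <;>
  rcases Typ_cases (a := a) (b := b) t' hb hab with d | d | d | d <;>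
  first
    | omega
    | (exfalso; linarith)

theorem tend (p c : ℝ) (hc : 0 < c) (e : ℝ) :
    Tendsto (fun t' : ℝ => (t' - p) / c) (𝓝 (p + c * e)) (𝓝 e) := by
  have h : Continuous fun t' : ℝ => (t' - p) / c := by fun_prop
  have := h.tendsto (p + c * e)
  have e1 : (p + c * e - p) / c = e := by field_simp; ring
  rwa [e1] at this

/-- One level up. -/
theorem up0 (A : Adm a b k m) {j : ℕ} {e : ℝ} {s x y : ℤ} (h : LocTyp a b (j + 1) e s)
    (hP : InP (k j) (m j) s x y) :
    ∀ᶠ t' in 𝓝 (ph (a j) (b j) x y + b j * e),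
      Dc a b k m j t' x y ((t' - ph (a j) (b j) x y) / b j) ∧
      Typ (a (j + 1)) (b (j + 1)) ((t' - ph (a j) (b j) x y) / b j) = s := by
  have hb := A.hb j
  filter_upwards [(tend (ph (a j) (b j) x y) (b j) hb e).eventually h] with t' ht'
  refine ⟨⟨ht'.1, ht'.2.1, ?_, ?_⟩, ht'.2.2⟩
  · rw [ht'.2.2]; exact hP
  · field_simp
    ring

theorem up_lab (A : Adm a b k m) {j : ℕ} {e : ℝ} {s x y : ℤ} (h : LocTyp a b (j + 1) e s)
    (hP : InP (k j) (m j) s x y) :
    ∀ᶠ t' in 𝓝 (ph (a j) (b j) x y + b j * e), LabAt a b k m j t' ⟨k j, m j, x, y, s⟩ := by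
  filter_upwards [up0 A h hP] with t' ht'
  exact ⟨_, ht'.1, rfl, rfl, ht'.2.symm⟩

theorem up_typ (A : Adm a b k m) {j : ℕ} {e : ℝ} {s x y : ℤ} (h : LocTyp a b (j + 1) e s)
    (hP : InP (k j) (m j) s x y) :
    LocTyp a b j (ph (a j) (b j) x y + b j * e) (own ⟨k j, m j, x, y, s⟩) := by
  unfold LocTyp
  filter_upwards [up0 A h hP] with t' ht'
  have hr := ht'.1.range (A.lev j)
  refine ⟨hr.1, hr.2, ?_⟩
  rw [ht'.1.typ (A.lev j), ht'.2]

/-- Good phases lift. -/
theorem up_good (A : Adm a b k m) {j : ℕ} {e : ℝ} {x y : ℤ} (h : AllGood a b k m (j + 1) e)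
    (hP : InP (k j) (m j) (Typ (a (j + 1)) (b (j + 1)) e) x y) :
    AllGood a b k m j (ph (a j) (b j) x y + b j * e) := by
  obtain ⟨⟨s, hs⟩, ⟨l, hl⟩, hc⟩ := h
  have hse : Typ (a (j + 1)) (b (j + 1)) e = s := hs.self_of_nhds.2.2
  rw [hse] at hP
  have hb := A.hb j
  have hD := up0 A hs hP
  have hT := tend (ph (a j) (b j) x y) (b j) hb e
  refine ⟨⟨_, up_typ A hs hP⟩, ⟨_, up_lab A hs hP⟩, ?_⟩
  intro d
  cases d with
  | false =>
    by_cases h1 : InP (k j) (m j) s x (y - 1)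
    · refine ⟨⟨k j, m j, l, 1, x, y⟩, ?_⟩
      filter_upwards [hD, hT.eventually hl] with t' h3 h4
      exact Con.int1 h3.1 (by rw [h3.2]; exact h1) h4
    · by_cases h2 : x = -1 ∧ y = 1
      · obtain ⟨c, hc⟩ := hc true
        refine ⟨c, ?_⟩
        filter_upwards [hD, hT.eventually hc] with t' h3 h4
        exact Con.left1 h3.1 h2.1 h2.2 h4
      · obtain ⟨c, hc⟩ := hc false
        refine ⟨c, ?_⟩
        filter_upwards [hD, hT.eventually hc] with t' h3 h4
        exact Con.bot1 h3.1 (by rw [h3.2]; exact h1) h2 h4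
  | true =>
    by_cases h1 : InP (k j) (m j) s (x - 1) y
    · refine ⟨⟨k j, m j, l, 2, x, y⟩, ?_⟩
      filter_upwards [hD, hT.eventually hl] with t' h3 h4
      exact Con.int2 h3.1 (by rw [h3.2]; exact h1) h4
    · by_cases h2 : x = 1 ∧ y = -1
      · obtain ⟨c, hc⟩ := hc false
        refine ⟨c, ?_⟩
        filter_upwards [hD, hT.eventually hc] with t' h3 h4
        exact Con.bot2 h3.1 h2.1 h2.2 h4
      · obtain ⟨c, hc⟩ := hc true
        refine ⟨c, ?_⟩
        filter_upwards [hD, hT.eventually hc] with t' h3 h4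
        exact Con.left2 h3.1 (by rw [h3.2]; exact h1) h2 h4

theorem loc0 (A : Adm a b k m) (j : ℕ) : ∃ t, LocTyp a b j t 0 := by
  have hs := A.hs j
  have hb := A.hb j
  have hab := A.hab j
  refine ⟨(1 - a j - b j) / 2, ?_⟩
  have h1 : ∀ᶠ t' in 𝓝 ((1 - a j - b j) / 2), (0 : ℝ) < t' :=
    lt_mem_nhds (by linarith)
  have h2 : ∀ᶠ t' in 𝓝 ((1 - a j - b j) / 2), t' < 1 - a j - b j :=
    gt_mem_nhds (by linarith)
  unfold LocTyp
  filter_upwards [h1, h2] with t' h3 h4
  refine ⟨h3.le, by linarith, ?_⟩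
  unfold Typ
  rw [if_pos h4]

theorem own11 {k m : ℤ} (hk : 3 ≤ k) (hm : 4 ≤ m) : own ⟨k, m, 1, 1, 0⟩ = 0 := by
  unfold own
  dsimp only
  rw [if_neg (by omega), if_neg (by omega), if_neg (by omega), if_neg (by omega)]

/-- A good phase of type 0. -/
theorem good0 (A : Adm a b k m) (j : ℕ) : ∃ t, AllGood a b k m j t ∧ Typ (a j) (b j) t = 0 := by
  obtain ⟨t2, h2⟩ := loc0 A (j + 2)
  have hk := A.hk
  have hm := A.hm
  have hP : ∀ i, InP (k i) (m i) 0 1 1 := by
    intro i
    have := hk i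
    have := hm i
    left; omega
  have h1 : LocTyp a b (j + 1) (ph (a (j + 1)) (b (j + 1)) 1 1 + b (j + 1) * t2) 0 := by
    have := up_typ A h2 (hP (j + 1))
    rwa [own11 (hk _) (hm _)] at this
  have hl := up_lab A h2 (hP (j + 1))
  set t1 := ph (a (j + 1)) (b (j + 1)) 1 1 + b (j + 1) * t2 with ht1
  have h0 : LocTyp a b j (ph (a j) (b j) 1 1 + b j * t1) 0 := by
    have := up_typ A h1 (hP j)
    rwa [own11 (hk _) (hm _)] at this
  refine ⟨ph (a j) (b j) 1 1 + b j * t1, ⟨⟨0, h0⟩, ⟨_, up_lab A h1 (hP j)⟩, ?_⟩,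
    h0.self_of_nhds.2.2⟩
  have hD := up0 A h1 (hP j)
  have hT := tend (ph (a j) (b j) 1 1) (b j) (A.hb j) t1
  have hk' := hk j
  have hm' := hm j
  intro d
  cases d with
  | false =>
    refine ⟨⟨k j, m j, ⟨k (j + 1), m (j + 1), 1, 1, 0⟩, 1, 1, 1⟩, ?_⟩
    filter_upwards [hD, hT.eventually hl] with t' h3 h4
    exact Con.int1 h3.1 (by rw [h3.2]; right; left; omega) h4
  | true =>
    refine ⟨⟨k j, m j, ⟨k (j + 1), m (j + 1), 1, 1, 0⟩, 2, 1, 1⟩, ?_⟩
    filter_upwards [hD, hT.eventually hl] with t' h3 h4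
    exact Con.int2 h3.1 (by rw [h3.2]; left; omega) h4

/-- Good phases of every type. -/
theorem goodS (A : Adm a b k m) (j : ℕ) {s : ℤ} (h0 : 0 ≤ s) (h3 : s ≤ 3) :
    ∃ t, AllGood a b k m j t ∧ Typ (a j) (b j) t = s ∧ 0 ≤ t ∧ t < 1 := by
  obtain ⟨e, he, he0⟩ := good0 A (j + 1)
  have hk := A.hk j
  have hm := A.hm j
  obtain ⟨s', hs'⟩ := id he.1
  have hs0 : s' = 0 := by
    rw [← he0]; exact hs'.self_of_nhds.2.2.symm
  subst hs0
  have fin : ∀ x y : ℤ, InP (k j) (m j) 0 x y → own ⟨k j, m j, x, y, 0⟩ = s →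
      ∃ t, AllGood a b k m j t ∧ Typ (a j) (b j) t = s ∧ 0 ≤ t ∧ t < 1 := by
    intro x y hP ho
    have h1 := up_good A he (x := x) (y := y) (by rw [he0]; exact hP)
    have h2 := (up_typ A hs' hP).self_of_nhds
    exact ⟨_, h1, h2.2.2.trans ho, h2.1, h2.2.1⟩
  have hcases : s = 0 ∨ s = 1 ∨ s = 2 ∨ s = 3 := by omega
  rcases hcases with rfl | rfl | rfl | rfl
  · exact fin 1 1 (by left; omega) (own11 hk hm)
  · refine fin (k j - 2) (m j - 1) (by right; right; right; omega) ?_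
    unfold own
    dsimp only
    rw [if_neg (by omega), if_neg (by omega), if_neg (by omega), if_pos (by omega)]
  · refine fin (-1) 1 (by left; omega) ?_
    unfold own
    dsimp only
    rw [if_pos rfl, if_neg (by omega)]
  · refine fin (-1) (m j - 1) (by right; right; right; omega) ?_
    unfold own
    dsimp only
    rw [if_pos rfl, if_pos (by omega)]

theorem Adm.b8 (A : Adm a b k m) (j : ℕ) : b j < 1 / 8 := by
  have L := A.lev j
  have h3 := L.a3
  have h1 := L.h1
  have hk : (3 : ℝ) ≤ k j := by exact_mod_cast L.hk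
  have hba := L.ba
  have ha := L.a1
  nlinarith

/-- Good phases are dense. -/
theorem dense_good (A : Adm a b k m) (N : ℕ) : ∀ (j : ℕ) (u v : ℝ), 0 ≤ u → v ≤ 1 →
    (1 / 4 : ℝ) ^ N < v - u → ∃ t, u < t ∧ t < v ∧ AllGood a b k m j t := by
  induction N with
  | zero =>
    intro j u v h0 h1 h
    exfalso
    rw [pow_zero] at h
    linarith
  | succ N ih =>
    intro j u v h0 h1 h
    have hpos : (0 : ℝ) < (1 / 4) ^ (N + 1) := by positivity
    have huv : u < v := by linarith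
    have L := A.lev j
    have hb := L.hb
    have hb8 := A.b8 j
    have hb' := L.hb'
    have hab' := L.hab'
    have hs' := L.hs'
    have h4 : (1 / 4 : ℝ) ^ N = 4 * (1 / 4) ^ (N + 1) := by rw [pow_succ]; ring
    set r := (u + v) / 2 with hr
    obtain ⟨x, y, e, hD⟩ := Dec.exists L (t := r) (by linarith) (by linarith)
    obtain ⟨he0, he1, hP, hre⟩ := id hD
    set p := ph (a j) (b j) x y with hp
    have hTr := Typ_range (a (j + 1)) (b (j + 1)) e
    have hru : (u - p) / b j = e - (r - u) / b j := by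
      rw [hre]; field_simp; ring
    have hrv : (v - p) / b j = e + (v - r) / b j := by
      rw [hre]; field_simp; ring
    have hgrow : (1 / 4 : ℝ) ^ N < (v - u) / 2 / b j := by
      rw [lt_div_iff₀ hb]
      nlinarith
    have hgpos : 0 < (v - u) / 2 / b j := by positivity
    have hru2 : r - u = (v - u) / 2 := by rw [hr]; ring
    have hrv2 : v - r = (v - u) / 2 := by rw [hr]; ring
    rw [hru2] at hru
    rw [hrv2] at hrv
    set g := (v - u) / 2 / b j with hg
    have hbg : b j * g = (v - u) / 2 := by rw [hg]; field_simp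
    by_cases c1 : 0 ≤ e - g ∧
        Typ (a (j + 1)) (b (j + 1)) (e - g) = Typ (a (j + 1)) (b (j + 1)) e
    · obtain ⟨t, ht1, ht2, ht3⟩ := ih (j + 1) (e - g) e c1.1 he1.le (by linarith)
      have hty : Typ (a (j + 1)) (b (j + 1)) t = Typ (a (j + 1)) (b (j + 1)) e := by
        have m1 := Typ_mono hb' hab' ht1.le
        have m2 := Typ_mono hb' hab' ht2.le
        omega
      refine ⟨p + b j * t, ?_, ?_, up_good A ht3 (by rw [hty]; exact hP)⟩
      · have := mul_lt_mul_of_pos_left ht1 hb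
        linarith
      · have := mul_lt_mul_of_pos_left ht2 hb
        linarith
    · by_cases c2 : e + g ≤ 1 ∧
          Typ (a (j + 1)) (b (j + 1)) (e + g) = Typ (a (j + 1)) (b (j + 1)) e
      · obtain ⟨t, ht1, ht2, ht3⟩ := ih (j + 1) e (e + g) he0 c2.1 (by linarith)
        have hty : Typ (a (j + 1)) (b (j + 1)) t = Typ (a (j + 1)) (b (j + 1)) e := by
          have m1 := Typ_mono hb' hab' ht1.le
          have m2 := Typ_mono hb' hab' ht2.le
          omega
        refine ⟨p + b j * t, ?_, ?_, up_good A ht3 (by rw [hty]; exact hP)⟩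
        · have := mul_lt_mul_of_pos_left ht1 hb
          linarith
        · have := mul_lt_mul_of_pos_left ht2 hb
          linarith
      · obtain ⟨t, ht1, ht2, ht3, ht4⟩ := goodS A (j + 1) hTr.1 hTr.2
        refine ⟨p + b j * t, ?_, ?_, up_good A ht1 (by rw [ht2]; exact hP)⟩
        · have : e - g < t := by
            by_contra hc
            push Not at hc
            apply c1
            have m1 := Typ_mono hb' hab' hc
            have m2 := Typ_mono hb' hab' (show e - g ≤ e by linarith)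
            exact ⟨ht3.trans hc, by omega⟩
          have := mul_lt_mul_of_pos_left this hb
          linarith
        · have : t < e + g := by
            by_contra hc
            push Not at hc
            apply c2
            have m1 := Typ_mono hb' hab' hc
            have m2 := Typ_mono hb' hab' (show e ≤ e + g by linarith)
            exact ⟨hc.trans ht4.le, by omega⟩
          have := mul_lt_mul_of_pos_left this hb
          linarith

theorem dense_good' (A : Adm a b k m) {u v : ℝ} (h0 : 0 ≤ u) (h1 : v ≤ 1) (h : u < v) :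
    ∃ t, u < t ∧ t < v ∧ AllGood a b k m 0 t := by
  obtain ⟨N, hN⟩ := exists_pow_lt_of_lt_one (sub_pos.2 h) (show (1 / 4 : ℝ) < 1 by norm_num)
  exact dense_good A N 0 u v h0 h1 hN

end BR13
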