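import Pool.Agent.LibBR13.Toeplitz
import Pool.Agent.LibBR13.Good

/-!
Actions of `ℤ^n`, local problems on `ℤ^n`, Baire-measurable labellings, the class
`BAIRE(ℤ^n)` and Baire-universality.
-/

namespace BR13

open Topology

/-- A local (LCL) problem on `ℤ^n`: a finite window `W`, a finite set of labels and a set
`A` of allowed labellings of the window. -/
structure LCL (n : ℕ) where
  W : Finset (Fin n → ℤ)
  Lbl : Type
  fin : Finite Lbl
  A : Set (W → Lbl)

/-- An action of `ℤ^n` on `X`. -/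
structure Act (n : ℕ) (X : Type) where
  act : (Fin n → ℤ) → X → X
  act_zero : ∀ x, act 0 x = x
  act_add : ∀ g h x, act (g + h) x = act g (act h x)

namespace Act

variable {n : ℕ} {X : Type} (T : Act n X)

/-- The action is free. -/
def Free : Prop := ∀ g x, T.act g x = x → g = 0

/-- The action is by Borel maps. -/
def IsBorel [TopologicalSpace X] : Prop := ∀ g, @Measurable X X (borel X) (borel X) (T.act g)

/-- `f` is a labelling for the local problem `P`. -/
def IsLabeling (P : LCL n) (f : X → P.Lbl) : Prop := ∀ x, (fun w : P.W => f (T.act w x)) ∈ P.A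

/-- There is a Baire-measurable labelling for the local problem `P`. -/
def BaireSolves [TopologicalSpace X] (P : LCL n) : Prop :=
  ∃ f : X → P.Lbl, (∀ c, BaireMeasurableSet (f ⁻¹' {c})) ∧ T.IsLabeling P f

end Act

theorem act_comp {n : ℕ} {X : Type} (T : Act n X) (g h : Fin n → ℤ) (x : X) :
    T.act g (T.act h x) = T.act (g + h) x := (T.act_add g h x).symm

/-- The class `BAIRE(ℤ^n)`: the local problems with a Baire-measurable labelling on every
free Borel action of `ℤ^n` on a Polish space. -/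
def BAIRE (n : ℕ) : Set (LCL n) :=
  {P | ∀ (X : Type) [TopologicalSpace X] [PolishSpace X] (T : Act n X),
    T.IsBorel → T.Free → T.BaireSolves P}

/-- A free Borel action on a Polish space is Baire-universal if the local problems with a
Baire-measurable labelling on it are exactly the members of `BAIRE(ℤ^n)`. -/
def BaireUniversal {n : ℕ} {X : Type} [TopologicalSpace X] [PolishSpace X] (T : Act n X) :
    Prop :=
  T.IsBorel ∧ T.Free ∧ ∀ P : LCL n, T.BaireSolves P ↔ P ∈ BAIRE n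

/-- The action of `ℤ^n` on the circle `ℝ/ℤ` by rotations: `e_i` acts by `x ↦ x + α i`. -/
noncomputable def rot {n : ℕ} (α : Fin n → ℝ) : Act n UnitAddCircle where
  act g x := x + ((∑ i, (g i : ℝ) * α i : ℝ) : UnitAddCircle)
  act_zero x := by simp
  act_add g h x := by
    have e : (∑ i, (((g + h) i : ℤ) : ℝ) * α i) =
        (∑ i, (h i : ℝ) * α i) + ∑ i, (g i : ℝ) * α i := by
      rw [← Finset.sum_add_distrib]
      refine Finset.sum_congr rfl fun i _ => ?_
      rw [Pi.add_apply]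
      push_cast
      ring
    rw [e, AddCircle.coe_add]
    abel

/-- `1, α_1, ..., α_n` are linearly independent over `ℚ`. -/
def Indep {n : ℕ} (α : Fin n → ℝ) : Prop := LinearIndependent ℚ (Fin.cons 1 α : Fin (n + 1) → ℝ)

/-- The 2-adic odometer. -/
noncomputable def odo (n : ℕ) : Act n (Fin n → ℤ_[2]) where
  act g x := fun i => x i + (g i : ℤ_[2])
  act_zero x := by ext i; simp
  act_add g h x := by
    funext i
    rw [Pi.add_apply, Int.cast_add]
    ring

/-- The entries of labels and contents are bounded by `M`. -/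
def LBd (M : ℤ) (l : Lab) : Prop :=
  (-M ≤ l.k ∧ l.k ≤ M) ∧ (-M ≤ l.m ∧ l.m ≤ M) ∧ (-M ≤ l.x ∧ l.x ≤ M) ∧
    (-M ≤ l.y ∧ l.y ≤ M) ∧ (-M ≤ l.s ∧ l.s ≤ M)

/-- The entries of contents are bounded by `M`. -/
def CBd (M : ℤ) (c : Cont) : Prop :=
  (-M ≤ c.k ∧ c.k ≤ M) ∧ (-M ≤ c.m ∧ c.m ≤ M) ∧ LBd M c.o ∧ (-M ≤ c.d ∧ c.d ≤ M) ∧
    (-M ≤ c.x ∧ c.x ≤ M) ∧ (-M ≤ c.y ∧ c.y ≤ M)

theorem finite_LBd (M : ℤ) : {l | LBd M l}.Finite := by
  have hI := Set.finite_Icc (-M) M
  have hs := hI.prod (hI.prod (hI.prod (hI.prod hI)))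
  have hinj : Function.Injective fun l : Lab => (l.k, l.m, l.x, l.y, l.s) := by
    intro l l' h
    simp only [Prod.mk.injEq] at h
    ext
    · exact h.1
    · exact h.2.1
    · exact h.2.2.1
    · exact h.2.2.2.1
    · exact h.2.2.2.2
  refine (hs.preimage hinj.injOn).subset ?_
  rintro l ⟨h1, h2, h3, h4, h5⟩
  exact ⟨h1, h2, h3, h4, h5⟩

theorem finite_CBd (M : ℤ) : {c | CBd M c}.Finite := by
  have hI := Set.finite_Icc (-M) M
  have hs := hI.prod (hI.prod ((finite_LBd M).prod (hI.prod (hI.prod hI))))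
  have hinj : Function.Injective fun c : Cont => (c.k, c.m, c.o, c.d, c.x, c.y) := by
    intro c c' h
    simp only [Prod.mk.injEq] at h
    cases c
    cases c'
    simp only at h
    obtain ⟨rfl, rfl, rfl, rfl, rfl, rfl⟩ := h
    rfl
  refine (hs.preimage hinj.injOn).subset ?_
  rintro c ⟨h1, h2, h3, h4, h5, h6⟩
  exact ⟨h1, h2, h3, h4, h5, h6⟩

/-- The labels of the local problem. -/
abbrev Lb (M : ℤ) : Type := {p : Lab × Cont × Cont // LBd M p.1 ∧ CBd M p.2.1 ∧ CBd M p.2.2}

theorem finite_Lb (M : ℤ) : Finite (Lb M) := by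
  have h := (finite_LBd M).prod ((finite_CBd M).prod (finite_CBd M))
  refine (h.subset (s := {p : Lab × Cont × Cont | LBd M p.1 ∧ CBd M p.2.1 ∧ CBd M p.2.2})
    ?_).to_subtype
  rintro p ⟨h1, h2, h3⟩
  exact ⟨h1, h2, h3⟩

/-- The local rule. -/
def Rule (p pW pS : Lab × Cont × Cont) : Prop :=
  RelH pS.1 p.1 p.2.1 ∧ RelV pW.1 p.1 p.2.2 ∧ VR p.2.1 p.2.2 pW.2.1 pS.2.2

/-- The local problem with window `{0, -u, -w}`. -/
def prob {n : ℕ} (u w : Fin n → ℤ) (M : ℤ) : LCL n where
  W := {0, -u, -w}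
  Lbl := Lb M
  fin := finite_Lb M
  A := {g | Rule (g ⟨0, by simp⟩).1 (g ⟨-u, by simp⟩).1 (g ⟨-w, by simp⟩).1}

theorem isLabeling_iff {n : ℕ} {X : Type} (T : Act n X) (u w : Fin n → ℤ) (M : ℤ)
    (f : X → Lb M) : T.IsLabeling (prob u w M) f ↔
      ∀ x, Rule (f x).1 (f (T.act (-u) x)).1 (f (T.act (-w) x)).1 := by
  unfold Act.IsLabeling
  refine forall_congr' fun x => ?_
  change Rule (f (T.act 0 x)).1 _ _ ↔ _
  rw [T.act_zero]

end BR13
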