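import Pool.Agent.LibBR13.Phase

/-! Exact phases exist, and are never rational. -/

namespace BR13

namespace Sys

theorem digits {X : Type} (S : Sys X) (x0 : X) :
    ∃ k m : ℤ, 3 ≤ k ∧ 4 ≤ m ∧ (∀ x, (S.lab x).k = k) ∧ ∀ x, (S.lab x).m = m := by
  refine ⟨(S.lab x0).k, (S.lab x0).m, (S.val x0).1, (S.val x0).2.1, ?_⟩
  have key := S.conn (fun x => (S.lab x).k = (S.lab x0).k ∧ (S.lab x).m = (S.lab x0).m) (by
    intro x
    obtain ⟨-, -, g1, g2, -⟩ := S.hV' x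
    rw [g1, g2]) (by
    intro x
    obtain ⟨-, -, g1, g2, -⟩ := S.hH' x
    rw [g1, g2])
  exact ⟨fun x => (key x0 x ⟨rfl, rfl⟩).1, fun x => (key x0 x ⟨rfl, rfl⟩).2⟩

/-- The pair of steps obtained from the steps of the derived system. -/
theorem steps {k m : ℤ} (hk : 3 ≤ k) (hm : 4 ≤ m) {a' b' : ℝ} (_ha0 : 0 ≤ a') (ha1 : a' ≤ 1)
    (_hb0 : 0 ≤ b') (hb1 : b' ≤ 1) :
    ∃ a b : ℝ, (k : ℝ) * a = 1 + b * a' ∧ (m : ℝ) * b = a + b * b' ∧ 0 < b ∧ b ≤ 1 / 8 ∧
      0 ≤ a ∧ a ≤ 1 ∧ b ≤ a := by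
  have hk' : (3 : ℝ) ≤ k := by exact_mod_cast hk
  have hm' : (4 : ℝ) ≤ m := by exact_mod_cast hm
  have hc : (3 : ℝ) ≤ m - b' := by linarith
  have hQ : (8 : ℝ) ≤ k * (m - b') - a' := by nlinarith
  refine ⟨(m - b') * (1 / (k * (m - b') - a')), 1 / (k * (m - b') - a'), ?_, ?_, ?_, ?_, ?_, ?_,
    ?_⟩
  · have : (k * (m - b') - a') * (1 / (k * (m - b') - a')) = 1 :=
      mul_one_div_cancel (by linarith)
    linear_combination this
  · ring
  · positivity
  · exact one_div_le_one_div_of_le (by norm_num) hQ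
  · have : 0 < 1 / ((k : ℝ) * (m - b') - a') := by positivity
    nlinarith
  · rw [mul_one_div, div_le_one (by linarith)]
    nlinarith
  · have : 0 < 1 / ((k : ℝ) * (m - b') - a') := by positivity
    nlinarith

theorem phi_bound {l : Lab} (hl : Val l) {a b a' b' : ℝ} (h1 : (l.k : ℝ) * a = 1 + b * a')
    (h2 : (l.m : ℝ) * b = a + b * b') (ha1 : a' ≤ 1) (hb1 : b' ≤ 1)
    (hb : 0 < b) (hb8 : b ≤ 1 / 8) (ha : 0 ≤ a) (hab : b ≤ a) (haa : a ≤ 1) :
    |phi a b l| ≤ 9 / 8 := by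
  obtain ⟨v1, v2, v3, v4, v5⟩ := hl
  unfold phi
  have hba : b * a' ≤ 1 / 8 := by nlinarith
  have hbb : b * b' ≤ b := by nlinarith
  have hxb : -1 ≤ l.x ∧ -1 ≤ l.y := by
    rcases v5 with h | h | h | h <;> omega
  have key : ∀ x y : ℤ, 0 ≤ x → (x ≤ l.k - 1 ∧ y ≤ 0 ∨ x ≤ l.k - 2 ∧ y ≤ l.m - 1) →
      -1 ≤ y → |(x : ℝ) * a + y * b| ≤ 9 / 8 := by
    intro x y hx h hy
    have hx' : (0 : ℝ) ≤ x := by exact_mod_cast hx
    have hy' : (-1 : ℝ) ≤ y := by exact_mod_cast hy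
    have lo : -(1 / 8 : ℝ) ≤ x * a + y * b := by
      have : 0 ≤ (x : ℝ) * a := mul_nonneg hx' ha
      nlinarith
    have up : (x : ℝ) * a + y * b ≤ 9 / 8 := by
      rcases h with ⟨h3, h4⟩ | ⟨h3, h4⟩
      · have h3' : (x : ℝ) ≤ l.k - 1 := by exact_mod_cast h3
        have h4' : (y : ℝ) ≤ 0 := by exact_mod_cast h4
        have e1 : (x : ℝ) * a ≤ (l.k - 1) * a := mul_le_mul_of_nonneg_right h3' ha
        have e2 : (y : ℝ) * b ≤ 0 := mul_nonpos_of_nonpos_of_nonneg h4' hb.le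
        nlinarith
      · have h3' : (x : ℝ) ≤ l.k - 2 := by exact_mod_cast h3
        have h4' : (y : ℝ) ≤ l.m - 1 := by exact_mod_cast h4
        have e1 : (x : ℝ) * a ≤ (l.k - 2) * a := mul_le_mul_of_nonneg_right h3' ha
        have e2 : (y : ℝ) * b ≤ (l.m - 1) * b := mul_le_mul_of_nonneg_right h4' hb.le
        nlinarith
    rw [abs_le]
    constructor <;> linarith
  by_cases hx : l.x < 0
  · have hx' : l.x = -1 := by omega
    have hy1 : 1 ≤ l.y ∧ l.y ≤ l.m - 1 := by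
      rcases v5 with h | h | h | h <;> omega
    rw [if_pos hx, hx']
    have hy' : (1 : ℝ) ≤ l.y := by exact_mod_cast hy1.1
    have hy'' : (l.y : ℝ) ≤ l.m - 1 := by exact_mod_cast hy1.2
    have e2 : (l.y : ℝ) * b ≤ (l.m - 1) * b := mul_le_mul_of_nonneg_right hy'' hb.le
    have e3 : 0 ≤ (l.y : ℝ) * b := by positivity
    push_cast
    rw [abs_le]
    constructor <;> nlinarith
  · rw [if_neg hx, add_zero]
    apply key _ _ (by omega) _ hxb.2
    rcases v5 with h | h | h | h <;> omega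

/-- A bounded phase. -/
def BPh {X : Type} (S : Sys X) (a b : ℝ) (t : X → ℝ) (e : ℝ) : Prop :=
  0 ≤ a ∧ a ≤ 1 ∧ 0 ≤ b ∧ b ≤ 1 ∧ (∀ x, |t x| ≤ 2) ∧ S.Ph a b t e

theorem bph_lift {X : Type} (S : Sys X) {k m : ℤ} (hk3 : 3 ≤ k) (hm4 : 4 ≤ m)
    (hk : ∀ x, (S.lab x).k = k) (hm : ∀ x, (S.lab x).m = m)
    {a' b' e : ℝ} {t : S.Orig → ℝ} (ht : S.der.BPh a' b' t e) :
    ∃ a b : ℝ, (k : ℝ) * a = 1 + b * a' ∧ (m : ℝ) * b = a + b * b' ∧ 0 < b ∧ b ≤ 1 / 8 ∧
      S.BPh a b (fun x => phi a b (S.lab x) + b * t (S.rt x)) (b * e) := by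
  obtain ⟨c1, c2, c3, c4, c5, c6⟩ := ht
  obtain ⟨a, b, h1, h2, h3, h4, h5, h6, h7⟩ := steps hk3 hm4 c1 c2 c3 c4
  refine ⟨a, b, h1, h2, h3, h4, h5, h6, h3.le, by linarith, ?_, S.lift hk hm h1 h2 h3.le c6⟩
  intro x
  have hp := phi_bound (S.val x) (a := a) (b := b) (a' := a') (b' := b') (by rw [hk x]; exact h1)
    (by rw [hm x]; exact h2) c2 c4 h3 h4 h5 h7 h6
  have hq : |b * t (S.rt x)| ≤ 1 / 4 := by
    rw [abs_mul, abs_of_pos h3]
    have := c5 (S.rt x)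
    have h0 := abs_nonneg (t (S.rt x))
    nlinarith
  calc |phi a b (S.lab x) + b * t (S.rt x)| ≤ |phi a b (S.lab x)| + |b * t (S.rt x)| :=
        abs_add_le _ _
    _ ≤ 2 := by linarith

theorem approx (n : ℕ) : ∀ (X : Type) (S : Sys X) (_ : X), ∃ a b t, S.BPh a b t ((1 / 8 : ℝ) ^ n) := by
  induction n with
  | zero =>
    intro X S x0
    refine ⟨1 / 2, 1 / 2, fun _ => 0, by norm_num, by norm_num, by norm_num, by norm_num,
      by intro x; norm_num, ?_, ?_⟩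
    · intro x
      unfold wR
      split_ifs <;> norm_num
    · intro x
      unfold wU
      split_ifs <;> norm_num
  | succ n ih =>
    intro X S x0
    obtain ⟨k, m, hk3, hm4, hk, hm⟩ := S.digits x0
    obtain ⟨a', b', t, ht⟩ := ih S.Orig S.der (S.rt x0)
    obtain ⟨a, b, -, -, h3, h4, h5⟩ := S.bph_lift hk3 hm4 hk hm ht
    refine ⟨a, b, _, h5.1, h5.2.1, h5.2.2.1, h5.2.2.2.1, h5.2.2.2.2.1, ?_⟩
    have hle : b * (1 / 8 : ℝ) ^ n ≤ (1 / 8 : ℝ) ^ (n + 1) := by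
      rw [pow_succ, mul_comm]
      exact mul_le_mul_of_nonneg_left h4 (by positivity)
    exact ⟨fun x => (h5.2.2.2.2.2.1 x).trans hle, fun x => (h5.2.2.2.2.2.2 x).trans hle⟩

theorem exact {X : Type} (S : Sys X) (x0 : X) : ∃ a b t, S.BPh a b t 0 := by
  let K : ℕ → Set (ℝ × ℝ × (X → ℝ)) := fun n =>
    {p | S.BPh p.1 p.2.1 p.2.2 ((1 / 8 : ℝ) ^ n)}
  have hclosed : ∀ n, IsClosed (K n) := by
    intro n
    have e : K n = {p | 0 ≤ p.1} ∩ ({p | p.1 ≤ 1} ∩ ({p | 0 ≤ p.2.1} ∩ ({p | p.2.1 ≤ 1} ∩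
        ((⋂ x, {p | |p.2.2 x| ≤ 2}) ∩
        ((⋂ x, {p | |p.2.2 (S.R x) - p.2.2 x - p.1 + S.wR x| ≤ (1 / 8 : ℝ) ^ n}) ∩
         (⋂ x, {p | |p.2.2 (S.U x) - p.2.2 x - p.2.1 + S.wU x| ≤ (1 / 8 : ℝ) ^ n})))))) := by
      ext p
      simp only [K, BPh, Ph, Set.mem_ofPred_eq, Set.mem_inter_iff, Set.mem_iInter]
    rw [e]
    have c1 : Continuous fun p : ℝ × ℝ × (X → ℝ) => p.1 := continuous_fst
    have c2 : Continuous fun p : ℝ × ℝ × (X → ℝ) => p.2.1 := continuous_fst.comp continuous_snd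
    have c3 : ∀ x, Continuous fun p : ℝ × ℝ × (X → ℝ) => p.2.2 x := fun x =>
      (continuous_apply x).comp (continuous_snd.comp continuous_snd)
    refine (isClosed_le continuous_const c1).inter ((isClosed_le c1 continuous_const).inter
      ((isClosed_le continuous_const c2).inter ((isClosed_le c2 continuous_const).inter
      ((isClosed_iInter fun x => isClosed_le (c3 x).abs continuous_const).inter
      ((isClosed_iInter fun x => isClosed_le ?_ continuous_const).inter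
      (isClosed_iInter fun x => isClosed_le ?_ continuous_const))))))
    · exact ((((c3 _).sub (c3 _)).sub c1).add continuous_const).abs
    · exact ((((c3 _).sub (c3 _)).sub c2).add continuous_const).abs
  have hne : ∀ n, (K n).Nonempty := by
    intro n
    obtain ⟨a, b, t, h⟩ := approx n X S x0
    exact ⟨(a, b, t), h⟩
  have hmono : ∀ n, K (n + 1) ⊆ K n := by
    rintro n p ⟨c1, c2, c3, c4, c5, c6, c7⟩
    have hle : (1 / 8 : ℝ) ^ (n + 1) ≤ (1 / 8 : ℝ) ^ n := by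
      rw [pow_succ]
      have : (0 : ℝ) ≤ (1 / 8) ^ n := by positivity
      nlinarith
    exact ⟨c1, c2, c3, c4, c5, fun x => (c6 x).trans hle, fun x => (c7 x).trans hle⟩
  have hcomp : IsCompact (K 0) := by
    have hbox : IsCompact (Set.Icc (0 : ℝ) 1 ×ˢ (Set.Icc (0 : ℝ) 1 ×ˢ
        (Set.pi Set.univ fun _ : X => Set.Icc (-2 : ℝ) 2))) :=
      isCompact_Icc.prod (isCompact_Icc.prod (isCompact_univ_pi fun _ => isCompact_Icc))
    refine hbox.of_isClosed_subset (hclosed 0) ?_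
    rintro p ⟨c1, c2, c3, c4, c5, c6⟩
    refine ⟨⟨c1, c2⟩, ⟨c3, c4⟩, ?_⟩
    intro x _
    exact abs_le.1 (c5 x)
  obtain ⟨p, hp⟩ := IsCompact.nonempty_iInter_of_sequence_nonempty_isCompact_isClosed K hmono
    hne hcomp hclosed
  rw [Set.mem_iInter] at hp
  have hlim : Filter.Tendsto (fun n : ℕ => (1 / 8 : ℝ) ^ n) Filter.atTop (nhds 0) :=
    tendsto_pow_atTop_nhds_zero_of_lt_one (by norm_num) (by norm_num)
  refine ⟨p.1, p.2.1, p.2.2, (hp 0).1, (hp 0).2.1, (hp 0).2.2.1, (hp 0).2.2.2.1,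
    (hp 0).2.2.2.2.1, ?_, ?_⟩
  · intro x
    exact ge_of_tendsto' hlim fun n => (hp n).2.2.2.2.2.1 x
  · intro x
    exact ge_of_tendsto' hlim fun n => (hp n).2.2.2.2.2.2 x

theorem ph_zero {X : Type} {S : Sys X} {a b : ℝ} {t : X → ℝ} (h : S.BPh a b t 0) :
    (∀ x, t (S.R x) = t x + a - S.wR x) ∧ ∀ x, t (S.U x) = t x + b - S.wU x := by
  obtain ⟨-, -, -, -, -, c6, c7⟩ := h
  constructor
  · intro x
    have := abs_nonpos_iff.1 (c6 x)
    linarith
  · intro x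
    have := abs_nonpos_iff.1 (c7 x)
    linarith

theorem bounded_lin {c : ℝ} (h : ∀ n : ℕ, |(n : ℝ) * c| ≤ 8) : c = 0 := by
  by_contra hc
  have hpos : 0 < |c| := abs_pos.2 hc
  obtain ⟨n, hn⟩ := exists_nat_gt (8 / |c|)
  have := h n
  rw [abs_mul, Nat.abs_cast] at this
  rw [div_lt_iff₀ hpos] at hn
  linarith

theorem uniq {X : Type} (S : Sys X) (x0 : X) {a b a2 b2 : ℝ} {t t2 : X → ℝ}
    (h : S.BPh a b t 0) (h2 : S.BPh a2 b2 t2 0) : a = a2 ∧ b = b2 := by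
  obtain ⟨e1, e2⟩ := ph_zero h
  obtain ⟨f1, f2⟩ := ph_zero h2
  have hb1 := h.2.2.2.2.1
  have hb2 := h2.2.2.2.2.1
  constructor
  · have key : ∀ n : ℕ, ∀ x, t ((S.R ^ n) x) - t2 ((S.R ^ n) x) = t x - t2 x + n * (a - a2) := by
      intro n
      induction n with
      | zero => intro x; simp
      | succ n ih =>
        intro x
        rw [pow_succ', Equiv.Perm.mul_apply, e1, f1]
        have := ih x
        rw [Nat.cast_succ]
        linarith
    have : a - a2 = 0 := by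
      apply bounded_lin
      intro n
      have h1 := key n x0
      have h3 := abs_le.1 (hb1 x0)
      have h4 := abs_le.1 (hb2 x0)
      have h5 := abs_le.1 (hb1 ((S.R ^ n) x0))
      have h6 := abs_le.1 (hb2 ((S.R ^ n) x0))
      rw [abs_le]
      constructor <;> linarith
    linarith
  · have key : ∀ n : ℕ, ∀ x, t ((S.U ^ n) x) - t2 ((S.U ^ n) x) = t x - t2 x + n * (b - b2) := by
      intro n
      induction n with
      | zero => intro x; simp
      | succ n ih =>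
        intro x
        rw [pow_succ', Equiv.Perm.mul_apply, e2, f2]
        have := ih x
        rw [Nat.cast_succ]
        linarith
    have : b - b2 = 0 := by
      apply bounded_lin
      intro n
      have h1 := key n x0
      have h3 := abs_le.1 (hb1 x0)
      have h4 := abs_le.1 (hb2 x0)
      have h5 := abs_le.1 (hb1 ((S.U ^ n) x0))
      have h6 := abs_le.1 (hb2 ((S.U ^ n) x0))
      rw [abs_le]
      constructor <;> linarith
    linarith

/-- The steps of a system are never both rational. -/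
theorem irrational (q : ℕ) : ∀ (X : Type) (S : Sys X) (_ : X) (a b : ℝ) (t : X → ℝ),
    S.BPh a b t 0 → 0 < q → ¬ ∃ A B : ℤ, a * q = A ∧ b * q = B := by
  induction q using Nat.strong_induction_on with
  | _ q ih =>
    rintro X S x0 a b t h hq ⟨A, B, hA, hB⟩
    obtain ⟨k, m, hk3, hm4, hk, hm⟩ := S.digits x0
    obtain ⟨a', b', t', ht⟩ := S.der.exact (S.rt x0)
    obtain ⟨a1, b1, h1, h2, h3, h4, h5⟩ := S.bph_lift hk3 hm4 hk hm ht
    rw [mul_zero] at h5
    obtain ⟨ea, eb⟩ := S.uniq x0 h h5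
    subst ea
    subst eb
    have hq' : (0 : ℝ) < q := by exact_mod_cast hq
    have hBpos : (0 : ℝ) < B := by rw [← hB]; positivity
    have hBlt : (B : ℝ) < q := by rw [← hB]; nlinarith
    have hBpos' : 0 < B := by exact_mod_cast hBpos
    have hBlt' : B < q := by exact_mod_cast hBlt
    have hcast : ((B.toNat : ℕ) : ℝ) = B := by
      have : ((B.toNat : ℕ) : ℤ) = B := Int.toNat_of_nonneg hBpos'.le
      exact_mod_cast congrArg (Int.cast : ℤ → ℝ) this
    refine ih B.toNat (by omega) S.Orig S.der (S.rt x0) a' b' t' ht (by omega)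
      ⟨k * A - q, m * B - A, ?_, ?_⟩
    · rw [hcast]
      push_cast
      rw [← hA, ← hB]
      linear_combination (-(q : ℝ)) * h1
    · rw [hcast]
      push_cast
      rw [← hA, ← hB]
      linear_combination (-(q : ℝ)) * h2

end Sys

end BR13
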