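import Pool.Agent.LibBR13.Odo
import Pool.Agent.LibBR13.Circle

/-! The family of rotations that are not Baire-universal. -/

namespace BR13

/-- `(x, y)` has a bounded two-digit expansion: `x = a 0`, `y = b 0` for sequences with
`k j * a j = 1 + b j * a (j + 1)` and `m j * b j = a j + b j * b (j + 1)`, with bounded
integer digits `k j ≥ 3`, `m j ≥ 4`. -/
def Admissible (x y : ℝ) : Prop :=
  ∃ (a b : ℕ → ℝ) (k m : ℕ → ℤ) (M : ℤ), a 0 = x ∧ b 0 = y ∧ Adm a b k m ∧
    ∀ j, k j ≤ M ∧ m j ≤ M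

theorem rot_free {n : ℕ} {α : Fin n → ℝ} (h : Indep α) : (rot α).Free := by
  intro g x hx
  have h1 : ((∑ i, (g i : ℝ) * α i : ℝ) : UnitAddCircle) = 0 := by
    have : x + ((∑ i, (g i : ℝ) * α i : ℝ) : UnitAddCircle) = x := hx
    simpa using this
  rw [AddCircle.coe_eq_zero_iff] at h1
  obtain ⟨N, hN⟩ := h1
  unfold Indep at h
  rw [Fintype.linearIndependent_iff] at h
  have h2 := h (Fin.cons (-(N : ℚ)) fun i => (g i : ℚ)) (by
    rw [Fin.sum_univ_succ]
    simp only [Fin.cons_zero, Fin.cons_succ]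
    rw [Rat.smul_def, mul_one]
    have : ∑ i, ((g i : ℚ) • α i) = ∑ i, (g i : ℝ) * α i := by
      refine Finset.sum_congr rfl fun i _ => ?_
      rw [Rat.smul_def]
      push_cast
      ring
    rw [this, ← hN]
    simp)
  funext i
  have := h2 i.succ
  simp only [Fin.cons_succ] at this
  exact_mod_cast this

/-- Every rotation with an admissible pair of combinations is not Baire-universal. -/
theorem not_universal {n : ℕ} {α : Fin n → ℝ} (h : Indep α) {u w : Fin n → ℤ} {p q : ℤ}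
    (hA : Admissible ((∑ i, (u i : ℝ) * α i) + p) ((∑ i, (w i : ℝ) * α i) + q)) :
    ∃ P : LCL n, P ∉ BAIRE n ∧ (rot α).BaireSolves P := by
  obtain ⟨a, b, k, m, M, ha, hb, A, hM⟩ := hA
  refine ⟨prob u w M, ?_, circle_solves A hM ha.symm hb.symm (rot_free h)⟩
  intro hP
  exact odo_not_solves u w M (hP _ (odo n) (odo_borel n) (odo_free n))

/-- Basic bounds for a level. -/
theorem lev_bounds {k m : ℤ} {a b a' b' : ℝ} (hk : 3 ≤ k) (hm : 4 ≤ m) (_ha0 : 0 ≤ a')
    (ha1 : a' ≤ 1) (_hb0 : 0 ≤ b') (hb1 : b' ≤ 1) (h1 : (k : ℝ) * a = 1 + b * a')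
    (h2 : (m : ℝ) * b = a + b * b') :
    0 < b ∧ b ≤ 1 / 8 ∧ 3 * b ≤ a ∧ a ≤ 3 / 8 := by
  have hk' : (3 : ℝ) ≤ k := by exact_mod_cast hk
  have hm' : (4 : ℝ) ≤ m := by exact_mod_cast hm
  have hc : (3 : ℝ) ≤ m - b' := by linarith
  have hQ : (8 : ℝ) ≤ k * (m - b') - a' := by nlinarith
  have ha : a = b * (m - b') := by linarith
  have hbQ : b * (k * (m - b') - a') = 1 := by
    rw [ha] at h1
    linarith
  have hb : 0 < b := by
    by_contra hc
    push Not at hc
    nlinarith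
  have hb8 : b ≤ 1 / 8 := by nlinarith
  refine ⟨hb, hb8, by rw [ha]; nlinarith, ?_⟩
  have hapos : 0 ≤ a := by rw [ha]; positivity
  nlinarith

theorem Adm.bounds {a b : ℕ → ℝ} {k m : ℕ → ℤ} (A : Adm a b k m) (j : ℕ) :
    0 < b j ∧ b j ≤ 1 / 8 ∧ 3 * b j ≤ a j ∧ a j ≤ 3 / 8 := by
  have L := (A.lev (j + 1)).a1
  exact lev_bounds (A.hk j) (A.hm j) L.1.le L.2.1.le L.2.2.1.le L.2.2.2.1.le (A.h1 j) (A.h2 j)

/-- An admissible pair satisfies no integer relation with 1. -/
theorem Adm.no_rel {a b : ℕ → ℝ} {k m : ℕ → ℤ} (A : Adm a b k m) (N : ℕ) :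
    ∀ (j : ℕ) (p q r : ℤ), |p| + |q| ≤ N → (p : ℝ) * a j + q * b j = r → p = 0 ∧ q = 0 := by
  induction N using Nat.strong_induction_on with
  | _ N ih =>
    intro j p q r hN h
    obtain ⟨b1, b2, b3, b4⟩ := A.bounds j
    obtain ⟨c1, c2, c3, c4⟩ := A.bounds (j + 1)
    have h1 := A.h1 j
    have h2 := A.h2 j
    have hk : (3 : ℝ) ≤ k j := by exact_mod_cast A.hk j
    by_cases h0 : p = 0 ∧ q = 0
    · exact h0
    · exfalso
      -- the new relation
      have hb0 : b j ≠ 0 := b1.ne'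
      have hq' : ((r * k j - p : ℤ) : ℝ) = b j * (p * a (j + 1) + q * k j) := by
        push_cast
        rw [← h]
        linear_combination (p : ℝ) * h1
      have hrel : ((r : ℤ) : ℝ) * a (j + 1) + ((r * k j - p : ℤ) : ℝ) * b (j + 1) =
          ((m j * (r * k j - p) - q : ℤ) : ℝ) := by
        apply mul_left_cancel₀ hb0
        push_cast
        rw [← h]
        linear_combination (-(p : ℝ) * a j - q * b j) * h1 +
          (-(((p : ℝ) * a j + q * b j) * k j - p)) * h2
      -- size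
      have hpa := abs_nonneg (p : ℝ)
      have hqa := abs_nonneg (q : ℝ)
      have s1 : |(r : ℝ)| ≤ |(p : ℝ)| * (3 / 8) + |(q : ℝ)| * (1 / 8) := by
        rw [← h]
        calc |(p : ℝ) * a j + q * b j| ≤ |(p : ℝ) * a j| + |(q : ℝ) * b j| := abs_add_le _ _
          _ = |(p : ℝ)| * a j + |(q : ℝ)| * b j := by
              rw [abs_mul (p : ℝ), abs_mul (q : ℝ), abs_of_pos b1,
                abs_of_pos (show 0 < a j by linarith)]
          _ ≤ _ := by gcongr
      have hbk : b j * k j ≤ 3 / 8 := by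
        have : 3 * (b j * k j) ≤ k j * a j := by nlinarith
        nlinarith
      have s2 : |((r * k j - p : ℤ) : ℝ)| ≤ |(p : ℝ)| * (1 / 8) + |(q : ℝ)| * (3 / 8) := by
        rw [hq']
        have e : b j * (p * a (j + 1) + q * k j) = p * (b j * a (j + 1)) + q * (b j * k j) := by
          ring
        rw [e]
        have t1 : 0 ≤ b j * a (j + 1) := by
          have : 0 < a (j + 1) := by linarith
          positivity
        have t2 : b j * a (j + 1) ≤ 1 / 8 := by nlinarith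
        have t3 : 0 ≤ b j * k j := by positivity
        calc |(p : ℝ) * (b j * a (j + 1)) + q * (b j * k j)|
            ≤ |(p : ℝ) * (b j * a (j + 1))| + |(q : ℝ) * (b j * k j)| := abs_add_le _ _
          _ = |(p : ℝ)| * (b j * a (j + 1)) + |(q : ℝ)| * (b j * k j) := by
              rw [abs_mul (p : ℝ) _, abs_mul (q : ℝ) _, abs_of_nonneg t1, abs_of_nonneg t3]
          _ ≤ _ := by gcongr
      have hsum : |(r : ℝ)| + |((r * k j - p : ℤ) : ℝ)| ≤ (|(p : ℝ)| + |(q : ℝ)|) / 2 := by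
        linarith
      have hpos : 0 < |p| + |q| := by
        by_contra hc
        push Not at hc
        have e1 : |p| = 0 := le_antisymm (by linarith [abs_nonneg q]) (abs_nonneg p)
        have e2 : |q| = 0 := le_antisymm (by linarith [abs_nonneg p]) (abs_nonneg q)
        exact h0 ⟨abs_eq_zero.1 e1, abs_eq_zero.1 e2⟩
      have hlt : |r| + |r * k j - p| < |p| + |q| := by
        have h3 : ((|r| + |r * k j - p| : ℤ) : ℝ) ≤ ((|p| + |q| : ℤ) : ℝ) / 2 := by
          push_cast at hsum ⊢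
          exact hsum
        have h4 : (0 : ℝ) < ((|p| + |q| : ℤ) : ℝ) := by exact_mod_cast hpos
        have h5 : ((|r| + |r * k j - p| : ℤ) : ℝ) < ((|p| + |q| : ℤ) : ℝ) := by linarith
        exact_mod_cast h5
      have hnn : 0 ≤ |r| + |r * k j - p| := by positivity
      obtain ⟨g1, g2⟩ := ih (|r| + |r * k j - p|).toNat (by omega) (j + 1) r (r * k j - p)
        (m j * (r * k j - p) - q) (by rw [Int.toNat_of_nonneg hnn]) hrel
      subst g1
      have hp : p = 0 := by
        rw [zero_mul, zero_sub, neg_eq_zero] at g2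
        exact g2
      subst hp
      have : (q : ℝ) * b j = 0 := by
        push_cast at h
        linarith
      rcases mul_eq_zero.1 this with h | h
      · exact h0 ⟨rfl, by exact_mod_cast h⟩
      · exact hb0 h

theorem indep_pair {x y : ℝ} (h : ∀ p q r : ℤ, (p : ℝ) * x + q * y = r → p = 0 ∧ q = 0) :
    Indep ![x, y] := by
  unfold Indep
  rw [← LinearIndependent.iff_fractionRing ℤ ℚ]
  rw [Fintype.linearIndependent_iff]
  intro g hg
  rw [Fin.sum_univ_three] at hg
  simp only [Fin.cons_zero, zsmul_eq_mul, mul_one] at hg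
  have e1 : (Fin.cons (1 : ℝ) ![x, y] : Fin 3 → ℝ) 1 = x := rfl
  have e2 : (Fin.cons (1 : ℝ) ![x, y] : Fin 3 → ℝ) 2 = y := rfl
  rw [e1, e2] at hg
  obtain ⟨h1, h2⟩ := h (g 1) (g 2) (-g 0) (by push_cast; linarith)
  have h0 : g 0 = 0 := by
    rw [h1, h2] at hg
    simpa using hg
  intro i
  fin_cases i
  · exact h0
  · exact h1
  · exact h2

/-- An admissible pair is rationally independent together with 1. -/
theorem Admissible.indep {x y : ℝ} (h : Admissible x y) : Indep ![x, y] := by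
  obtain ⟨a, b, k, m, M, rfl, rfl, A, hM⟩ := h
  apply indep_pair
  intro p q r hr
  exact A.no_rel (|p| + |q|).toNat 0 p q r (by rw [Int.toNat_of_nonneg (by positivity)]) hr

/-- Uniqueness of the expansion. -/
theorem Adm.digits_uniq {a b a2 b2 : ℕ → ℝ} {k m k2 m2 : ℕ → ℤ} (A : Adm a b k m)
    (B : Adm a2 b2 k2 m2) (ha : a 0 = a2 0) (hb : b 0 = b2 0) (j : ℕ) :
    a j = a2 j ∧ b j = b2 j ∧ (∀ i < j, k i = k2 i ∧ m i = m2 i) := by
  induction j with
  | zero => exact ⟨ha, hb, fun i hi => absurd hi (Nat.not_lt_zero _)⟩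
  | succ j ih =>
    obtain ⟨e1, e2, e3⟩ := ih
    obtain ⟨b1, b2', b3, b4⟩ := A.bounds j
    obtain ⟨c1, c2, c3, c4⟩ := A.bounds (j + 1)
    obtain ⟨d1, d2, d3, d4⟩ := B.bounds (j + 1)
    have h1 := A.h1 j
    have h2 := A.h2 j
    have g1 := B.h1 j
    have g2 := B.h2 j
    rw [← e1, ← e2] at g1 g2
    have hm : m j = m2 j ∧ b (j + 1) = b2 (j + 1) := by
      have : ((m j - m2 j : ℤ) : ℝ) = b (j + 1) - b2 (j + 1) := by
        apply mul_left_cancel₀ b1.ne'
        push_cast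
        linarith
      have k1 : ((m j - m2 j : ℤ) : ℝ) < 1 := by rw [this]; linarith
      have k2 : (-1 : ℝ) < ((m j - m2 j : ℤ) : ℝ) := by rw [this]; linarith
      have k1' : m j - m2 j < 1 := by exact_mod_cast k1
      have k2' : -1 < m j - m2 j := by exact_mod_cast k2
      have hz : m j - m2 j = 0 := by omega
      refine ⟨by omega, ?_⟩
      rw [hz] at this
      push_cast at this
      linarith
    have hk : k j = k2 j ∧ a (j + 1) = a2 (j + 1) := by
      have : ((k j - k2 j : ℤ) : ℝ) * a j = b j * (a (j + 1) - a2 (j + 1)) := by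
        push_cast
        linarith
      have hlt : |((k j - k2 j : ℤ) : ℝ)| < 1 := by
        by_contra hc
        push Not at hc
        have h3 : |((k j - k2 j : ℤ) : ℝ) * a j| ≤ b j * 1 := by
          rw [this, abs_mul, abs_of_pos b1]
          apply mul_le_mul_of_nonneg_left _ b1.le
          rw [abs_le]
          constructor <;> linarith
        rw [abs_mul, abs_of_pos (show 0 < a j by linarith)] at h3
        nlinarith
      rw [abs_lt] at hlt
      have k1' : k j - k2 j < 1 := by exact_mod_cast hlt.2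
      have k2' : -1 < k j - k2 j := by exact_mod_cast hlt.1
      have hz : k j - k2 j = 0 := by omega
      refine ⟨by omega, ?_⟩
      rw [hz] at this
      push_cast at this
      have : b j * (a (j + 1) - a2 (j + 1)) = 0 := by linarith
      rcases mul_eq_zero.1 this with h | h
      · exact absurd h b1.ne'
      · linarith
    refine ⟨hk.2, hm.2, fun i hi => ?_⟩
    rcases Nat.lt_succ_iff_lt_or_eq.1 hi with h | rfl
    · exact e3 i h
    · exact ⟨hk.1, hm.1⟩

/-- Approximate expansions. -/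
theorem exists_upto (N : ℕ) : ∀ (k m : ℕ → ℤ), (∀ j, 3 ≤ k j) → (∀ j, 4 ≤ m j) →
    ∃ s : ℕ → ℝ × ℝ, (∀ j, (0 ≤ (s j).1 ∧ (s j).1 ≤ 1) ∧ (0 ≤ (s j).2 ∧ (s j).2 ≤ 1)) ∧
      ∀ j < N, (k j : ℝ) * (s j).1 = 1 + (s j).2 * (s (j + 1)).1 ∧
        (m j : ℝ) * (s j).2 = (s j).1 + (s j).2 * (s (j + 1)).2 := by
  induction N with
  | zero =>
    intro k m _ _
    exact ⟨fun _ => (0, 0), fun j => by norm_num, fun j hj => absurd hj (Nat.not_lt_zero _)⟩
  | succ N ih =>
    intro k m hk hm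
    obtain ⟨s, hs1, hs2⟩ := ih (fun j => k (j + 1)) (fun j => m (j + 1)) (fun j => hk _)
      (fun j => hm _)
    obtain ⟨a, b, h1, h2, h3, h4, h5, h6, h7⟩ := Sys.steps (hk 0) (hm 0) (hs1 0).1.1 (hs1 0).1.2
      (hs1 0).2.1 (hs1 0).2.2
    refine ⟨fun j => Nat.casesOn j (a, b) s, ?_, ?_⟩
    · intro j
      cases j with
      | zero => exact ⟨⟨h5, h6⟩, ⟨h3.le, show b ≤ 1 by linarith⟩⟩
      | succ j => exact hs1 j
    · intro j hj
      cases j with
      | zero => exact ⟨h1, h2⟩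
      | succ j => exact hs2 j (by omega)

/-- Every bounded sequence of digits is the expansion of a pair. -/
theorem exists_adm {k m : ℕ → ℤ} (hk : ∀ j, 3 ≤ k j) (hm : ∀ j, 4 ≤ m j) :
    ∃ a b, Adm a b k m := by
  let K : ℕ → Set (ℕ → ℝ × ℝ) := fun N =>
    {s | (∀ j, (0 ≤ (s j).1 ∧ (s j).1 ≤ 1) ∧ (0 ≤ (s j).2 ∧ (s j).2 ≤ 1)) ∧
      ∀ j < N, (k j : ℝ) * (s j).1 = 1 + (s j).2 * (s (j + 1)).1 ∧
        (m j : ℝ) * (s j).2 = (s j).1 + (s j).2 * (s (j + 1)).2}
  have hclosed : ∀ N, IsClosed (K N) := by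
    intro N
    have e : K N = (⋂ j, ({s : ℕ → ℝ × ℝ | 0 ≤ (s j).1} ∩ {s | (s j).1 ≤ 1} ∩
        ({s | 0 ≤ (s j).2} ∩ {s | (s j).2 ≤ 1}))) ∩
        ⋂ j, ⋂ (_ : j < N), ({s : ℕ → ℝ × ℝ |
            (k j : ℝ) * (s j).1 = 1 + (s j).2 * (s (j + 1)).1} ∩
          {s | (m j : ℝ) * (s j).2 = (s j).1 + (s j).2 * (s (j + 1)).2}) := by
      ext s
      simp only [K, Set.mem_ofPred_eq, Set.mem_inter_iff, Set.mem_iInter]
    rw [e]
    have c1 : ∀ j, Continuous fun s : ℕ → ℝ × ℝ => (s j).1 := fun j =>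
      continuous_fst.comp (continuous_apply j)
    have c2 : ∀ j, Continuous fun s : ℕ → ℝ × ℝ => (s j).2 := fun j =>
      continuous_snd.comp (continuous_apply j)
    refine (isClosed_iInter fun j => ((isClosed_le continuous_const (c1 j)).inter
      (isClosed_le (c1 j) continuous_const)).inter ((isClosed_le continuous_const (c2 j)).inter
      (isClosed_le (c2 j) continuous_const))).inter
      (isClosed_iInter fun j => isClosed_iInter fun _ => (isClosed_eq ?_ ?_).inter
        (isClosed_eq ?_ ?_))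
    · exact continuous_const.mul (c1 j)
    · exact continuous_const.add ((c2 j).mul (c1 _))
    · exact continuous_const.mul (c2 j)
    · exact (c1 j).add ((c2 j).mul (c2 _))
  have hmono : ∀ N, K (N + 1) ⊆ K N := fun N s hs => ⟨hs.1, fun j hj => hs.2 j (by omega)⟩
  have hcomp : IsCompact (K 0) := by
    have hbox : IsCompact (Set.pi Set.univ fun _ : ℕ =>
        (Set.Icc (0 : ℝ) 1 ×ˢ Set.Icc (0 : ℝ) 1)) :=
      isCompact_univ_pi fun _ => isCompact_Icc.prod isCompact_Icc
    refine hbox.of_isClosed_subset (hclosed 0) ?_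
    rintro s hs j _
    exact ⟨(hs.1 j).1, (hs.1 j).2⟩
  obtain ⟨s, hs⟩ := IsCompact.nonempty_iInter_of_sequence_nonempty_isCompact_isClosed K hmono
    (fun N => exists_upto N k m hk hm) hcomp hclosed
  rw [Set.mem_iInter] at hs
  have hbox := (hs 0).1
  have heq : ∀ j, (k j : ℝ) * (s j).1 = 1 + (s j).2 * (s (j + 1)).1 ∧
        (m j : ℝ) * (s j).2 = (s j).1 + (s j).2 * (s (j + 1)).2 := fun j =>
    (hs (j + 1)).2 j (by omega)
  have hb : ∀ j, 0 < (s j).2 ∧ (s j).2 ≤ 1 / 8 ∧ 3 * (s j).2 ≤ (s j).1 ∧ (s j).1 ≤ 3 / 8 :=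
    fun j => lev_bounds (hk j) (hm j) (hbox (j + 1)).1.1 (hbox (j + 1)).1.2
      (hbox (j + 1)).2.1 (hbox (j + 1)).2.2 (heq j).1 (heq j).2
  refine ⟨fun j => (s j).1, fun j => (s j).2, hk, hm, fun j => (hb j).1, fun j => ?_,
    fun j => ?_, fun j => (heq j).1, fun j => (heq j).2⟩
  · have := hb j
    show (s j).2 < (s j).1
    linarith
  · have := hb j
    show (s j).1 + (s j).2 < 1
    linarith

/-- Every bounded sequence of digits gives an admissible pair. -/
theorem exists_admissible {k m : ℕ → ℤ} {M : ℤ} (hk : ∀ j, 3 ≤ k j ∧ k j ≤ M)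
    (hm : ∀ j, 4 ≤ m j ∧ m j ≤ M) :
    ∃ a b, Adm a b k m ∧ Admissible (a 0) (b 0) := by
  obtain ⟨a, b, A⟩ := exists_adm (fun j => (hk j).1) (fun j => (hm j).1)
  exact ⟨a, b, A, a, b, k, m, M, rfl, rfl, A, fun j => ⟨(hk j).2, (hm j).2⟩⟩

end BR13
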