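import Pool.Agent.LibBR13.Defs

/-! One level of the phase decomposition of the interval. -/

namespace BR13

/-- Type of a phase. -/
noncomputable def Typ (a b t : ℝ) : ℤ :=
  if t < 1 - a - b then 0 else if t < 1 - a then 1 else if t < 1 - b then 2 else 3

/-- Phase of a square of a patch. -/
noncomputable def ph (a b : ℝ) (x y : ℤ) : ℝ :=
  x * a + y * b + (if x < 0 then 1 else 0)

/-- Parameters of one level. -/
structure Lev (k m : ℤ) (a b a' b' : ℝ) : Prop where
  hk : 3 ≤ k
  hm : 4 ≤ m
  hb : 0 < b
  hab : b < a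
  hs : a + b < 1
  hb' : 0 < b'
  hab' : b' < a'
  hs' : a' + b' < 1
  h1 : (k : ℝ) * a = 1 + b * a'
  h2 : (m : ℝ) * b = a + b * b'

/-- The decomposition of a phase. -/
def Dec (k m : ℤ) (a b a' b' t : ℝ) (x y : ℤ) (e : ℝ) : Prop :=
  0 ≤ e ∧ e < 1 ∧ InP k m (Typ a' b' e) x y ∧ t = ph a b x y + b * e

/-- Inverse rotation on `[0, 1)`. -/
noncomputable def Rm (a t : ℝ) : ℝ := if t < a then t - a + 1 else t - a

theorem Typ_cases {a b : ℝ} (t : ℝ) (_hb : 0 < b) (_hab : b < a) :
    (Typ a b t = 0 ∧ t < 1 - a - b) ∨ (Typ a b t = 1 ∧ 1 - a - b ≤ t ∧ t < 1 - a) ∨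
    (Typ a b t = 2 ∧ 1 - a ≤ t ∧ t < 1 - b) ∨ (Typ a b t = 3 ∧ 1 - b ≤ t) := by
  unfold Typ
  split_ifs with h1 h2 h3
  · left; exact ⟨rfl, h1⟩
  · right; left; exact ⟨rfl, not_lt.1 h1, h2⟩
  · right; right; left; exact ⟨rfl, not_lt.1 h2, h3⟩
  · right; right; right; exact ⟨rfl, not_lt.1 h3⟩

theorem Typ_range (a b t : ℝ) : 0 ≤ Typ a b t ∧ Typ a b t ≤ 3 := by
  unfold Typ; split_ifs <;> omega

variable {k m : ℤ} {a b a' b' : ℝ}

theorem Lev.a3 (L : Lev k m a b a' b') : 3 * b < a := by
  have hm : (4 : ℝ) ≤ m := by exact_mod_cast L.hm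
  have := L.h2
  have := L.hb
  have := L.hs'
  have := L.hab'
  have := L.hb'
  nlinarith

theorem Lev.ba (L : Lev k m a b a' b') : 0 < b * a' ∧ b * a' < b ∧ 0 < b * b' ∧ b * b' < b ∧
    b * a' + b * b' < b := by
  have h1 := L.hb
  have h2 := L.hb'
  have h3 := L.hab'
  have h4 := L.hs'
  have h5 : 0 < a' := h2.trans h3
  refine ⟨by positivity, by nlinarith, by positivity, by nlinarith, by nlinarith⟩

/-- Columns. -/
theorem Dec.col (L : Lev k m a b a' b') {t : ℝ} {x y : ℤ} {e : ℝ}
    (h : Dec k m a b a' b' t x y e) :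
    (0 ≤ x ∧ x ≤ k - 1 ∧ x * a - b * a' ≤ t ∧ t < (x + 1) * a - b * a' ∧ t < 1 - a + b ∧
      0 ≤ t) ∨ (x = -1 ∧ 1 - a + b ≤ t ∧ t < 1) := by
  obtain ⟨he0, he1, hP, ht⟩ := h
  have hb := L.hb
  have ha : 0 < a := L.hb.trans L.hab
  have hba := L.ba
  have ha3 := L.a3
  have hs1 := L.hs
  have h1 := L.h1
  have h2 := L.h2
  have hk : (3 : ℝ) ≤ k := by exact_mod_cast L.hk
  have hm : (4 : ℝ) ≤ m := by exact_mod_cast L.hm
  have hbe0 : 0 ≤ b * e := by positivity
  have hbe1 : b * e < b := by nlinarith
  have hT := Typ_cases (a := a') (b := b') e L.hb' L.hab'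
  have hxy : ∀ (u v : ℝ), u ≤ v → u * b ≤ v * b := fun u v h => mul_le_mul_of_nonneg_right h hb.le
  have hxa : ∀ (u v : ℝ), u ≤ v → u * a ≤ v * a := fun u v h => mul_le_mul_of_nonneg_right h ha.le
  unfold ph at ht
  rcases hP with h | h | h | h
  · obtain ⟨y1, y2, x1, x2⟩ := h
    have y1' : (1 : ℝ) ≤ y := by exact_mod_cast y1
    have y2' : (y : ℝ) ≤ m - 2 := by exact_mod_cast y2
    have x2' : (x : ℝ) ≤ k - 2 := by exact_mod_cast x2
    have q1 := hxy _ _ y1'
    have q2 := hxy _ _ y2'
    have q3 := hxa _ _ x2'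
    by_cases hx : x = -1
    · right
      subst hx
      norm_num at ht
      refine ⟨rfl, by linarith, by linarith⟩
    · left
      have x0 : 0 ≤ x := by omega
      have x0' : (0 : ℝ) ≤ x := by exact_mod_cast x0
      have q4 := hxa _ _ x0'
      rw [if_neg (by omega)] at ht
      refine ⟨x0, by omega, by linarith, by linarith, by linarith, by linarith⟩
  · obtain ⟨rfl, x1, hx⟩ := h
    left
    have x0' : (0 : ℝ) ≤ x := by exact_mod_cast x1
    have q4 := hxa _ _ x0'
    rw [if_neg (by omega)] at ht
    push_cast at ht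
    rcases hx with hx | ⟨hs, hx⟩
    · have x2' : (x : ℝ) ≤ k - 2 := by exact_mod_cast hx
      have q3 := hxa _ _ x2'
      refine ⟨x1, by omega, by linarith, by linarith, by linarith, by linarith⟩
    · have x2' : (x : ℝ) = k - 1 := by rw [hx]; push_cast; ring
      have he : b * e < b * (1 - a') := by
        apply mul_lt_mul_of_pos_left _ hb
        rcases hT with h | h | h | h
        · linarith [L.hb']
        · linarith
        · omega
        · omega
      rw [x2'] at ht ⊢
      refine ⟨x1, by omega, by linarith, by linarith, by linarith, by linarith⟩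
  · obtain ⟨rfl, hs, x1, x2⟩ := h
    left
    have x1' : (1 : ℝ) ≤ x := by exact_mod_cast x1
    have x2' : (x : ℝ) ≤ k - 1 := by exact_mod_cast x2
    have q3 := hxa _ _ x2'
    have q4 := hxa _ _ x1'
    have he : b * (1 - a') ≤ b * e := by
      apply mul_le_mul_of_nonneg_left _ hb.le
      rcases hT with h | h | h | h
      · omega
      · omega
      · linarith
      · linarith [L.hab']
    rw [if_neg (by omega)] at ht
    push_cast at ht
    refine ⟨by omega, x2, by linarith, by linarith, by linarith, by linarith⟩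
  · obtain ⟨rfl, h⟩ := h
    push_cast at ht
    have he2 : b * e < b * (1 - b') := by
      apply mul_lt_mul_of_pos_left _ hb
      rcases hT with h' | h' | h' | h'
      · linarith [L.hb', L.hab']
      · linarith [L.hab']
      · linarith
      · omega
    by_cases hx : x = -1
    · right
      subst hx
      norm_num at ht
      refine ⟨rfl, by nlinarith, by nlinarith⟩
    · left
      have hs : Typ a' b' e = 0 := by
        rcases h with h | h
        · exact h.1
        · omega
      have x0 : 0 ≤ x := by omega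
      have x2 : x ≤ k - 2 := by omega
      have x0' : (0 : ℝ) ≤ x := by exact_mod_cast x0
      have x2' : (x : ℝ) ≤ k - 2 := by exact_mod_cast x2
      have q3 := hxa _ _ x2'
      have q4 := hxa _ _ x0'
      rw [if_neg (by omega)] at ht
      have he : b * e < b * (1 - a' - b') := by
        apply mul_lt_mul_of_pos_left _ hb
        rcases hT with h' | h' | h' | h'
        · exact h'.2
        · omega
        · omega
        · omega
      refine ⟨x0, by omega, by nlinarith, by nlinarith, by nlinarith, by nlinarith⟩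

theorem Dec.range (L : Lev k m a b a' b') {t : ℝ} {x y : ℤ} {e : ℝ}
    (h : Dec k m a b a' b' t x y e) : 0 ≤ t ∧ t < 1 := by
  have := L.hb
  have := L.hab
  have := L.hs
  rcases h.col L with h | h
  · exact ⟨h.2.2.2.2.2, by linarith⟩
  · exact ⟨by linarith, h.2.2⟩

/-- Uniqueness of the decomposition. -/
theorem Dec.uniq (L : Lev k m a b a' b') {t : ℝ} {x y x2 y2 : ℤ} {e e2 : ℝ}
    (h : Dec k m a b a' b' t x y e) (h2 : Dec k m a b a' b' t x2 y2 e2) :
    x = x2 ∧ y = y2 ∧ e = e2 := by
  have ha : 0 < a := L.hb.trans L.hab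
  have hx : x = x2 := by
    rcases h.col L with c | c <;> rcases h2.col L with d | d
    · have k1 : (x : ℝ) < x2 + 1 := by
        by_contra hc
        push Not at hc
        have := mul_le_mul_of_nonneg_right hc ha.le
        linarith [c.2.2.1, d.2.2.2.1]
      have k2 : (x2 : ℝ) < x + 1 := by
        by_contra hc
        push Not at hc
        have := mul_le_mul_of_nonneg_right hc ha.le
        linarith [d.2.2.1, c.2.2.2.1]
      have k1' : x < x2 + 1 := by exact_mod_cast k1
      have k2' : x2 < x + 1 := by exact_mod_cast k2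
      omega
    · linarith [c.2.2.2.2.1, d.2.1]
    · linarith [d.2.2.2.2.1, c.2.1]
    · rw [c.1, d.1]
  subst hx
  obtain ⟨he0, he1, hP, ht⟩ := h
  obtain ⟨he0', he1', hP', ht'⟩ := h2
  have hb := L.hb
  unfold ph at ht ht'
  have hye : (y : ℝ) + e = y2 + e2 := by
    have : b * (y + e) = b * (y2 + e2) := by linarith
    exact mul_left_cancel₀ hb.ne' this
  have k1 : (y : ℝ) < y2 + 1 := by linarith
  have k2 : (y2 : ℝ) < y + 1 := by linarith
  have k1' : y < y2 + 1 := by exact_mod_cast k1
  have k2' : y2 < y + 1 := by exact_mod_cast k2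
  have hy : y = y2 := by omega
  subst hy
  exact ⟨rfl, rfl, by linarith⟩

/-- Existence of the decomposition. -/
theorem Dec.exists (L : Lev k m a b a' b') {t : ℝ} (h0 : 0 ≤ t) (h1 : t < 1) :
    ∃ x y e, Dec k m a b a' b' t x y e := by
  have hb := L.hb
  have ha : 0 < a := L.hb.trans L.hab
  obtain ⟨hba1, hba2, hba3, hba4, hba5⟩ := L.ba
  have ha3 := L.a3
  have e1 := L.h1
  have e2 := L.h2
  set x0 : ℤ := ⌊(t + b * a') / a⌋ with hx0
  have f1 : (x0 : ℝ) * a ≤ t + b * a' := by
    have := Int.floor_le ((t + b * a') / a)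
    rwa [le_div_iff₀ ha] at this
  have f2 : t + b * a' < (x0 + 1) * a := by
    have := Int.lt_floor_add_one ((t + b * a') / a)
    rwa [div_lt_iff₀ ha] at this
  have hx0' : 0 ≤ x0 := Int.floor_nonneg.2 (by positivity)
  have hx1 : x0 ≤ k - 1 := by
    have : (x0 : ℝ) < k := by
      by_contra hc
      push Not at hc
      have := mul_le_mul_of_nonneg_right hc ha.le
      linarith
    have : x0 < k := by exact_mod_cast this
    omega
  -- general constructor
  have mk : ∀ (x y : ℤ) (e : ℝ), 0 ≤ e → e < 1 → (t = ph a b x y + b * e) →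
      InP k m (Typ a' b' e) x y → ∃ x y e, Dec k m a b a' b' t x y e :=
    fun x y e g1 g2 g3 g4 => ⟨x, y, e, g1, g2, g4, g3⟩
  by_cases hc : x0 = k - 1 ∧ (t - x0 * a) / b ≥ 1 - a'
  · -- left column
    obtain ⟨hc1, hc2⟩ := hc
    set v := (t - 1 + a) / b with hv
    have hbv : b * v = t - 1 + a := by rw [hv]; field_simp
    have hc1' : (x0 : ℝ) = k - 1 := by rw [hc1]; push_cast; ring
    rw [ge_iff_le, le_div_iff₀ hb, hc1'] at hc2
    have hv1 : 1 ≤ v := by
      rw [hv, le_div_iff₀ hb]
      linarith
    have hv2 : v < m - b' := by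
      rw [hv, div_lt_iff₀ hb]
      linarith
    have hfl := Int.floor_le v
    have hfr := Int.fract_nonneg v
    have hfr1 := Int.fract_lt_one v
    have hsum : (⌊v⌋ : ℝ) + Int.fract v = v := Int.floor_add_fract v
    have hy1 : 1 ≤ ⌊v⌋ := Int.le_floor.2 (by exact_mod_cast hv1)
    have hy2 : ⌊v⌋ ≤ m - 1 := by
      have : (⌊v⌋ : ℝ) < m := by linarith [L.hb']
      have : ⌊v⌋ < m := by exact_mod_cast this
      omega
    refine mk (-1) ⌊v⌋ (Int.fract v) hfr hfr1 ?_ ?_
    · unfold ph
      norm_num
      have : b * (⌊v⌋ : ℝ) + b * Int.fract v = t - 1 + a := by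
        rw [← mul_add, hsum, hbv]
      linarith
    · by_cases hy : ⌊v⌋ = m - 1
      · right; right; right
        refine ⟨hy, ?_⟩
        have hy' : (⌊v⌋ : ℝ) = m - 1 := by rw [hy]; push_cast; ring
        have hT := Typ_cases (a := a') (b := b') (Int.fract v) L.hb' L.hab'
        rcases hT with h | h | h | h
        · left; have := L.hk; omega
        · right; omega
        · right; omega
        · exfalso; linarith
      · left
        have := L.hk
        omega
  · set u := (t - x0 * a) / b with hu
    have hbu : b * u = t - x0 * a := by rw [hu]; field_simp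
    have hu1 : -a' ≤ u := by
      rw [hu, le_div_iff₀ hb]
      linarith
    have hfl := Int.floor_le u
    have hfr := Int.fract_nonneg u
    have hfr1 := Int.fract_lt_one u
    have hsum : (⌊u⌋ : ℝ) + Int.fract u = u := Int.floor_add_fract u
    have hT := Typ_cases (a := a') (b := b') (Int.fract u) L.hb' L.hab'
    have heq : t = ph a b x0 ⌊u⌋ + b * Int.fract u := by
      unfold ph
      rw [if_neg (by omega)]
      have : b * (⌊u⌋ : ℝ) + b * Int.fract u = t - x0 * a := by
        rw [← mul_add, hsum, hbu]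
      linarith
    have hy1 : -1 ≤ ⌊u⌋ := Int.le_floor.2 (by push_cast; linarith [L.hs', L.hb'])
    refine mk x0 ⌊u⌋ (Int.fract u) hfr hfr1 heq ?_
    by_cases hx2 : x0 = k - 1
    · have hu2 : u < 1 - a' := by
        by_contra hcc
        exact hc ⟨hx2, not_lt.1 hcc⟩
      have hy2 : ⌊u⌋ ≤ 0 := by
        have : (⌊u⌋ : ℝ) < 1 := by linarith [L.hb', L.hab']
        have : ⌊u⌋ < 1 := by exact_mod_cast this
        omega
      by_cases hy : ⌊u⌋ = 0
      · right; left
        refine ⟨hy, hx0', Or.inr ⟨?_, hx2⟩⟩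
        have hy' : (⌊u⌋ : ℝ) = 0 := by rw [hy]; simp
        rcases hT with h | h | h | h
        · omega
        · omega
        · linarith
        · linarith [L.hab']
      · have hy3 : ⌊u⌋ = -1 := by omega
        right; right; left
        have hy' : (⌊u⌋ : ℝ) = -1 := by rw [hy3]; simp
        refine ⟨hy3, ?_, ?_, by omega⟩
        · rcases hT with h | h | h | h
          · linarith [L.hb']
          · linarith
          · omega
          · omega
        · have := L.hk; omega
    · have hx3 : x0 ≤ k - 2 := by omega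
      have hu2 : u < m - b' - a' := by
        rw [hu, div_lt_iff₀ hb]
        linarith
      have hy2 : ⌊u⌋ ≤ m - 1 := by
        have : (⌊u⌋ : ℝ) < m := by linarith [L.hb', L.hab']
        have : ⌊u⌋ < m := by exact_mod_cast this
        omega
      by_cases hy : ⌊u⌋ = m - 1
      · right; right; right
        have hy' : (⌊u⌋ : ℝ) = m - 1 := by rw [hy]; push_cast; ring
        refine ⟨hy, Or.inl ⟨?_, by omega, hx3⟩⟩
        rcases hT with h | h | h | h
        · exact h.1
        · linarith
        · linarith [L.hb']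
        · linarith [L.hb', L.hab']
      · by_cases hy3 : ⌊u⌋ = -1
        · right; right; left
          have hy' : (⌊u⌋ : ℝ) = -1 := by rw [hy3]; simp
          refine ⟨hy3, ?_, ?_, by omega⟩
          · rcases hT with h | h | h | h
            · linarith [L.hb']
            · linarith
            · omega
            · omega
          · by_contra hx
            have hx' : x0 = 0 := by omega
            have : u < 0 := by linarith
            rw [hu, hx', div_lt_iff₀ hb] at this
            push_cast at this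
            linarith
        · by_cases hy4 : ⌊u⌋ = 0
          · right; left; exact ⟨hy4, hx0', Or.inl hx3⟩
          · left; omega

end BR13
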