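import Pool.Agent.LibBR13.Dyn

/-! The local problem has no Baire-measurable labelling on the 2-adic odometer. -/

namespace BR13

open Topology Filter

/-- The homeomorphism of the odometer given by `g`. -/
noncomputable def odoH (n : ℕ) (g : Fin n → ℤ) : (Fin n → ℤ_[2]) ≃ₜ (Fin n → ℤ_[2]) :=
  Homeomorph.addRight fun i => (g i : ℤ_[2])

theorem odoH_apply (n : ℕ) (g : Fin n → ℤ) (x : Fin n → ℤ_[2]) :
    odoH n g x = (odo n).act g x := rfl

theorem odo_free (n : ℕ) : (odo n).Free := by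
  intro g x h
  funext i
  have := congrFun h i
  change x i + (g i : ℤ_[2]) = x i at this
  have h0 : ((g i : ℤ) : ℤ_[2]) = 0 := by
    simpa using this
  exact_mod_cast h0

theorem odo_borel (n : ℕ) : (odo n).IsBorel := by
  intro g
  borelize (Fin n → ℤ_[2])
  exact (odoH n g).continuous.measurable

theorem odo_near (n : ℕ) (x : Fin n → ℤ_[2]) (g : Fin n → ℤ) {V : Set (Fin n → ℤ_[2])}
    (hV : IsOpen V) (hx : (odo n).act g x ∈ V) :
    ∃ J : ℕ, ∀ h : Fin n → ℤ, (odo n).act (fun i => g i + 2 ^ J * h i) x ∈ V := by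
  obtain ⟨e, he, hball⟩ := Metric.isOpen_iff.1 hV _ hx
  obtain ⟨J, hJ⟩ := exists_pow_lt_of_lt_one he (show (1 / 2 : ℝ) < 1 by norm_num)
  refine ⟨J, fun h => hball ?_⟩
  rw [Metric.mem_ball, dist_pi_lt_iff he]
  intro i
  rw [dist_eq_norm]
  change ‖x i + ((g i + 2 ^ J * h i : ℤ) : ℤ_[2]) - (x i + (g i : ℤ_[2]))‖ < e
  have e1 : x i + ((g i + 2 ^ J * h i : ℤ) : ℤ_[2]) - (x i + (g i : ℤ_[2])) =
      (2 : ℤ_[2]) ^ J * (h i : ℤ_[2]) := by
    push_cast
    ring
  rw [e1, norm_mul]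
  have h1 : ‖(2 : ℤ_[2]) ^ J‖ = (1 / 2 : ℝ) ^ J := by
    have := PadicInt.norm_p_pow (p := 2) J
    have h2 : ((2 : ℕ) : ℤ_[2]) = 2 := by norm_num
    rw [h2] at this
    rw [this]
    simp
  rw [h1]
  calc (1 / 2 : ℝ) ^ J * ‖((h i : ℤ) : ℤ_[2])‖ ≤ (1 / 2 : ℝ) ^ J * 1 :=
        mul_le_mul_of_nonneg_left (PadicInt.norm_le_one _) (by positivity)
    _ < e := by rwa [mul_one]

theorem odo_not_solves {n : ℕ} (u w : Fin n → ℤ) (M : ℤ) :
    ¬ (odo n).BaireSolves (prob u w M) := by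
  rintro ⟨f, hf, hlab⟩
  replace hlab := (isLabeling_iff (odo n) u w M f).1 hlab
  change ∀ c : Lb M, BaireMeasurableSet (f ⁻¹' {c}) at hf
  choose V hVo hV using fun c : Lb M => (hf c).residualEq_isOpen
  have := finite_Lb M
  have hres : ∀ᶠ x in residual (Fin n → ℤ_[2]), ∀ g : Fin n → ℤ, ∀ c : Lb M,
      ((odo n).act g x ∈ f ⁻¹' {c} ↔ (odo n).act g x ∈ V c) := by
    rw [eventually_countable_forall]
    intro g
    rw [eventually_countable_forall]
    intro c
    have ht := tendsto_residual_of_isOpenMap (odoH n g).continuous (odoH n g).isOpenMap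
    have h1 := Filter.eventuallyEq_set.1 (hV c)
    exact ht.eventually h1
  obtain ⟨x, hx⟩ := (dense_of_mem_residual hres).nonempty
  -- positions
  let pt : ℤ × ℤ → (Fin n → ℤ) := fun z i => z.1 * u i + z.2 * w i
  have hpu : ∀ z : ℤ × ℤ, -u + pt z = pt (z.1 - 1, z.2) := by
    intro z; funext i; simp only [pt, Pi.add_apply, Pi.neg_apply]; ring
  have hpw : ∀ z : ℤ × ℤ, -w + pt z = pt (z.1, z.2 - 1) := by
    intro z; funext i; simp only [pt, Pi.add_apply, Pi.neg_apply]; ring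
  let F : ℤ × ℤ → Lb M := fun z => f ((odo n).act (pt z) x)
  have hrule : ∀ z : ℤ × ℤ, Rule (F z).1 (F (z.1 - 1, z.2)).1 (F (z.1, z.2 - 1)).1 := by
    intro z
    have := hlab ((odo n).act (pt z) x)
    rw [act_comp, act_comp, hpu, hpw] at this
    exact this
  refine no_toeplitz (fun z => (F z).1.1) (fun z => (F z).1.2.1) (fun z => (F z).1.2.2)
    (fun z => (hrule z).1) (fun z => (hrule z).2.1) (fun z => (hrule z).2.2) ?_
  intro z
  have hz : (odo n).act (pt z) x ∈ V (F z) := (hx (pt z) (F z)).1 rfl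
  obtain ⟨J, hJ⟩ := odo_near n x (pt z) (hVo (F z)) hz
  refine ⟨J, fun v => ?_⟩
  have e : pt (sh J v z) = fun i => pt z i + 2 ^ J * pt v i := by
    funext i
    simp only [pt, sh]
    ring
  have hmem := hJ (pt v)
  rw [← e] at hmem
  have : F (sh J v z) = F z := (hx (pt (sh J v z)) (F z)).2 hmem
  change (F (sh J v z)).1.1 = (F z).1.1
  rw [this]

end BR13
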