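import Pool.Agent.LibBR13.Der

/-! Phases of a system. -/

namespace BR13

namespace Sys

variable {X : Type} (S : Sys X)

/-- Wrap of the horizontal step. -/
noncomputable def wR (x : X) : ℝ := if 2 ≤ own (S.lab x) then 1 else 0

/-- Wrap of the vertical step. -/
noncomputable def wU (x : X) : ℝ := if own (S.lab x) = 3 then 1 else 0

/-- `t` is a phase with steps `a`, `b` up to the error `e`. -/
def Ph (a b : ℝ) (t : X → ℝ) (e : ℝ) : Prop :=
  (∀ x, |t (S.R x) - t x - a + S.wR x| ≤ e) ∧ (∀ x, |t (S.U x) - t x - b + S.wU x| ≤ e)

/-- Phase offset of a square in its patch. -/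
noncomputable def phi (a b : ℝ) (l : Lab) : ℝ :=
  l.x * a + l.y * b + (if l.x < 0 then 1 else 0)

theorem der_own (x : X) : own (S.der.lab (S.rt x)) = (S.lab x).s := by
  change own (S.O (S.root x)) = _
  rw [S.O_root, S.own_O]

theorem der_wR (x : X) : S.der.wR (S.rt x) = if 2 ≤ (S.lab x).s then 1 else 0 := by
  unfold wR
  rw [S.der_own]

theorem der_wU (x : X) : S.der.wU (S.rt x) = if (S.lab x).s = 3 then 1 else 0 := by
  unfold wU
  rw [S.der_own]

theorem lift {k m : ℤ} (hk : ∀ x, (S.lab x).k = k) (hm : ∀ x, (S.lab x).m = m)
    {a b a' b' e : ℝ} (h1 : (k : ℝ) * a = 1 + b * a') (h2 : (m : ℝ) * b = a + b * b')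
    (hb : 0 ≤ b) {t : S.Orig → ℝ} (ht : S.der.Ph a' b' t e) :
    S.Ph a b (fun x => phi a b (S.lab x) + b * t (S.rt x)) (b * e) := by
  have hR : ∀ r : S.Orig, |t (S.R1 r) - t r - a' + S.der.wR r| ≤ e := ht.1
  have hU : ∀ r : S.Orig, |t (S.U1 r) - t r - b' + S.der.wU r| ≤ e := ht.2
  constructor
  · intro x
    obtain ⟨v1, v2, v3, v4, v5⟩ := S.val x
    obtain ⟨w1, w2, w3, w4, w5⟩ := S.val (S.R x)
    have he : 0 ≤ e := le_trans (abs_nonneg _) (hR (S.rt x))
    rcases S.root_R x with h | h | h
    · obtain ⟨q1, q2⟩ := h
      have hval : phi a b (S.lab (S.R x)) + b * t (S.rt (S.R x)) -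
          (phi a b (S.lab x) + b * t (S.rt x)) - a + S.wR x = 0 := by
        rw [q2, q1]
        unfold phi wR
        rw [q1] at w5
        dsimp only at w5 ⊢
        push_cast
        by_cases hx : (S.lab x).x < 0
        · have hx' : (S.lab x).x = -1 := by
            clear w5
            grind (splits := 40)
          have ho : 2 ≤ own (S.lab x) := by
            unfold own
            split_ifs <;> omega
          rw [if_pos hx, if_pos ho, if_neg (by omega)]
          ring
        · have ho : ¬ 2 ≤ own (S.lab x) := by
            have : (S.lab x).x ≤ (S.lab x).k - 2 := by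
              clear v5
              grind (splits := 40)
            unfold own
            split_ifs <;> omega
          rw [if_neg hx, if_neg ho, if_neg (by omega)]
          ring
      rw [hval, abs_zero]
      positivity
    · obtain ⟨q0, q1, q2, q3, q4, q5⟩ := h
      have hval : phi a b (S.lab (S.R x)) + b * t (S.rt (S.R x)) -
          (phi a b (S.lab x) + b * t (S.rt x)) - a + S.wR x =
          b * (t (S.R1 (S.rt x)) - t (S.rt x) - a' + S.der.wR (S.rt x)) := by
        rw [q5, S.der_wR]
        have hx1 : ((S.lab x).x : ℝ) = (S.lab (S.R x)).x + k - 1 := by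
          rw [q1, hk x]; push_cast; ring
        have hx2 : ((S.lab x).y : ℝ) = (S.lab (S.R x)).y - if 2 ≤ (S.lab x).s then 1 else 0 := by
          rw [q2]; unfold d1y; split_ifs <;> push_cast <;> ring
        have hn : ¬ (S.lab x).x < 0 := by
          rcases q0 with h | h <;> omega
        have hw : S.wR x = 1 - if (S.lab (S.R x)).x < 0 then 1 else 0 := by
          unfold wR
          rcases q0 with h | h
          · have ho : 2 ≤ own (S.lab x) := by
              unfold own
              split_ifs <;> omega
            rw [if_pos ho, if_neg (by omega)]; ring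
          · have ho : ¬ 2 ≤ own (S.lab x) := by
              unfold own
              split_ifs <;> omega
            rw [if_neg ho, if_pos (by omega)]; ring
        rw [hw]
        unfold phi
        rw [if_neg hn, hx1, hx2]
        linear_combination (-1 : ℝ) * h1
      rw [hval, abs_mul, abs_of_nonneg hb]
      exact mul_le_mul_of_nonneg_left (hR _) hb
    · obtain ⟨q1, q2, q3, q4, q5, q6, q7, q8⟩ := h
      have hval : phi a b (S.lab (S.R x)) + b * t (S.rt (S.R x)) -
          (phi a b (S.lab x) + b * t (S.rt x)) - a + S.wR x =
          b * (t (S.U1 (S.rt x)) - t (S.rt x) - b' + S.der.wU (S.rt x)) := by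
        rw [q8, S.der_wU, if_neg (by omega)]
        have ho : 2 ≤ own (S.lab x) := by
          unfold own
          split_ifs <;> omega
        unfold phi wR
        rw [if_pos ho, q1, q2, q3, q4, hm x]
        norm_num
        linear_combination (-1 : ℝ) * h2
      rw [hval, abs_mul, abs_of_nonneg hb]
      exact mul_le_mul_of_nonneg_left (hU _) hb
  · intro x
    obtain ⟨v1, v2, v3, v4, v5⟩ := S.val x
    obtain ⟨w1, w2, w3, w4, w5⟩ := S.val (S.U x)
    have he : 0 ≤ e := le_trans (abs_nonneg _) (hR (S.rt x))
    rcases S.root_U x with h | h | h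
    · obtain ⟨q1, q2⟩ := h
      have hval : phi a b (S.lab (S.U x)) + b * t (S.rt (S.U x)) -
          (phi a b (S.lab x) + b * t (S.rt x)) - b + S.wU x = 0 := by
        rw [q2, q1]
        unfold phi wU
        rw [q1] at w5
        dsimp only at w5 ⊢
        push_cast
        have ho : ¬ own (S.lab x) = 3 := by
          unfold own
          clear v5
          split_ifs
          · exfalso
            clear q1 q2
            grind (splits := 40)
          all_goals omega
        rw [if_neg ho]
        ring
      rw [hval, abs_zero]
      positivity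
    · obtain ⟨q0, q1, q2, q3, q4, q5, q6, q7⟩ := h
      have hval : phi a b (S.lab (S.U x)) + b * t (S.rt (S.U x)) -
          (phi a b (S.lab x) + b * t (S.rt x)) - b + S.wU x =
          b * (t (S.U1 (S.rt x)) - t (S.rt x) - b' + S.der.wU (S.rt x)) := by
        rw [q7, S.der_wU]
        have hx1 : ((S.lab x).x : ℝ) = (S.lab (S.U x)).x - 1 := by
          rw [q1]; push_cast; ring
        have hx2 : ((S.lab x).y : ℝ) = (S.lab (S.U x)).y + m - 1 -
            if (S.lab x).s = 3 then 1 else 0 := by
          rw [q2, hm x]; unfold d2y; split_ifs <;> push_cast <;> ring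
        have hn : ¬ (S.lab (S.U x)).x < 0 := by omega
        have hw : S.wU x = if (S.lab x).x < 0 then 1 else 0 := by
          unfold wU
          by_cases hx : (S.lab x).x < 0
          · have hx0 : (S.lab (S.U x)).x = 0 := by omega
            have hx' : (S.lab x).x = -1 := by omega
            have hy0 : (S.lab (S.U x)).y = 0 := by
              rcases q6 with h | h | h <;> omega
            have ho : own (S.lab x) = 3 := by
              unfold own
              rw [if_pos hx', if_pos]
              rw [q2, hy0]
              unfold d2y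
              split_ifs with h3
              · right; exact ⟨by ring, h3⟩
              · left; ring
            rw [if_pos ho, if_pos hx]
          · have ho : ¬ own (S.lab x) = 3 := by
              unfold own
              split_ifs <;> omega
            rw [if_neg ho, if_neg hx]
        rw [hw]
        unfold phi
        rw [if_neg hn, hx1, hx2]
        linear_combination (-1 : ℝ) * h2
      rw [hval, abs_mul, abs_of_nonneg hb]
      exact mul_le_mul_of_nonneg_left (hU _) hb
    · obtain ⟨q1, q2, q3, q4, q5, q6, q7⟩ := h
      have hval : phi a b (S.lab (S.U x)) + b * t (S.rt (S.U x)) -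
          (phi a b (S.lab x) + b * t (S.rt x)) - b + S.wU x =
          b * (t (S.R1 (S.rt x)) - t (S.rt x) - a' + S.der.wR (S.rt x)) := by
        rw [q7, S.der_wR]
        have ho : ¬ own (S.lab x) = 3 := by
          unfold own
          split_ifs <;> omega
        have hx1 : ((S.lab x).x : ℝ) = k - 1 := by
          rw [q3, hk x]; push_cast; ring
        have hx2 : ((S.lab x).y : ℝ) = - if 2 ≤ (S.lab x).s then 1 else 0 := by
          rw [q4]; unfold d1y; split_ifs <;> push_cast <;> ring
        unfold phi wU
        rw [if_neg ho, if_neg (show ¬ (S.lab x).x < 0 by omega), hx1, hx2, q1, q2,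
          if_pos (by norm_num)]
        push_cast
        linear_combination (-1 : ℝ) * h1
      rw [hval, abs_mul, abs_of_nonneg hb]
      exact mul_le_mul_of_nonneg_left (hR _) hb

end Sys

end BR13
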