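import Pool.Agent.LibBR13.Sys

/-! Owners, roots and paths in a system. -/

namespace BR13

theorem geo5 {k m s x y : ℤ} (hk : 3 ≤ k) (hm : 4 ≤ m) (h0 : 0 ≤ s) (_h3 : s ≤ 3)
    (h1 : InP k m s x y) : InP k m s (x - 1) y ∨ InP k m s x (y - 1) ∨
      InP k m s (x + 1) y ∨ InP k m s x (y + 1) := by
  grind (splits := 60)

theorem InP_zero {k m s : ℤ} (hk : 3 ≤ k) : InP k m s 0 0 := by
  right; left; omega

namespace Sys

variable {X : Type} (S : Sys X)

/-- The owner of the interior edges around the square `x`. -/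
noncomputable def O (x : X) : Lab := Classical.choose (S.exists_intOwn x)

theorem O_spec (x : X) : S.IntOwn x (S.O x) := Classical.choose_spec (S.exists_intOwn x)

theorem O_left {x : X}
    (h : InP (S.lab x).k (S.lab x).m (S.lab x).s ((S.lab x).x - 1) (S.lab x).y) :
    (S.c2 x).o = S.O x := (S.O_spec x).1 h

theorem O_bot {x : X}
    (h : InP (S.lab x).k (S.lab x).m (S.lab x).s (S.lab x).x ((S.lab x).y - 1)) :
    (S.c1 x).o = S.O x := (S.O_spec x).2.1 h

theorem O_R {x : X}
    (h : InP (S.lab x).k (S.lab x).m (S.lab x).s ((S.lab x).x + 1) (S.lab x).y) :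
    S.O (S.R x) = S.O x := by
  rw [← (S.O_spec x).2.2.1 h, ← S.O_left]
  rw [S.stepR h]
  simpa using (S.val x).2.2.2.2

theorem O_U {x : X}
    (h : InP (S.lab x).k (S.lab x).m (S.lab x).s (S.lab x).x ((S.lab x).y + 1)) :
    S.O (S.U x) = S.O x := by
  rw [← (S.O_spec x).2.2.2 h, ← S.O_bot]
  rw [S.stepU h]
  simpa using (S.val x).2.2.2.2

theorem own_O (x : X) : own (S.O x) = (S.lab x).s := by
  obtain ⟨v1, v2, v3, v4, v5⟩ := S.val x
  rcases geo5 v1 v2 v3 v4 v5 with h | h | h | h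
  · rw [← S.O_left h]
    exact (relV_int (S.hV x) h).2.2.2.2.2.2.2.2.2.2
  · rw [← S.O_bot h]
    exact (relH_int (S.hH x) h).2.2.2.2.2.2.2.2.2.2
  · rw [← (S.O_spec x).2.2.1 h]
    have hl := S.stepR h
    have := (relV_int (S.hV' x) (by rw [hl]; simpa using v5)).2.2.2.2.2.2.2.2.2.2
    rw [this, hl]
  · rw [← (S.O_spec x).2.2.2 h]
    have hl := S.stepU h
    have := (relH_int (S.hH' x) (by rw [hl]; simpa using v5)).2.2.2.2.2.2.2.2.2.2
    rw [this, hl]

/-- The patch around `x`. -/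
theorem patch (x : X) {i j : ℤ}
    (h : InP (S.lab x).k (S.lab x).m (S.lab x).s i j) :
    S.lab (S.act (i - (S.lab x).x) (j - (S.lab x).y) x) =
      ⟨(S.lab x).k, (S.lab x).m, i, j, (S.lab x).s⟩ ∧
    S.O (S.act (i - (S.lab x).x) (j - (S.lab x).y) x) = S.O x := by
  obtain ⟨v1, v2, v3, v4, v5⟩ := S.val x
  set l := S.lab x with hl
  have key := patch_conn v1 v2 v3 (fun i j =>
    S.lab (S.act (i - l.x) (j - l.y) x) = ⟨l.k, l.m, i, j, l.s⟩ ∧
    S.O (S.act (i - l.x) (j - l.y) x) = S.O x) (by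
      intro i j h1 h2
      have e : S.act (i + 1 - l.x) (j - l.y) x = S.R (S.act (i - l.x) (j - l.y) x) := by
        rw [S.act_R]; congr 1; ring
      rw [e]
      set z := S.act (i - l.x) (j - l.y) x with hz
      constructor
      · rintro ⟨q1, q2⟩
        have hi : InP (S.lab z).k (S.lab z).m (S.lab z).s ((S.lab z).x + 1) (S.lab z).y := by
          rw [q1]; exact h2
        refine ⟨?_, ?_⟩
        · rw [S.stepR hi, q1]
        · rw [S.O_R hi, q2]
      · rintro ⟨q1, q2⟩
        have hi : InP (S.lab (S.R z)).k (S.lab (S.R z)).m (S.lab (S.R z)).s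
            ((S.lab (S.R z)).x - 1) (S.lab (S.R z)).y := by
          rw [q1]; simpa using h1
        have h3 := S.stepL hi
        rw [S.R.symm_apply_apply, q1] at h3
        have h3' : S.lab z = ⟨l.k, l.m, i, j, l.s⟩ := by
          rw [h3]; simp
        refine ⟨h3', ?_⟩
        rw [← q2]
        exact (S.O_R (by rw [h3']; exact h2)).symm) (by
      intro i j h1 h2
      have e : S.act (i - l.x) (j + 1 - l.y) x = S.U (S.act (i - l.x) (j - l.y) x) := by
        rw [S.act_U]; congr 1; ring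
      rw [e]
      set z := S.act (i - l.x) (j - l.y) x with hz
      constructor
      · rintro ⟨q1, q2⟩
        have hi : InP (S.lab z).k (S.lab z).m (S.lab z).s (S.lab z).x ((S.lab z).y + 1) := by
          rw [q1]; exact h2
        refine ⟨?_, ?_⟩
        · rw [S.stepU hi, q1]
        · rw [S.O_U hi, q2]
      · rintro ⟨q1, q2⟩
        have hi : InP (S.lab (S.U z)).k (S.lab (S.U z)).m (S.lab (S.U z)).s
            (S.lab (S.U z)).x ((S.lab (S.U z)).y - 1) := by
          rw [q1]; simpa using h1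
        have h3 := S.stepD hi
        rw [S.U.symm_apply_apply, q1] at h3
        have h3' : S.lab z = ⟨l.k, l.m, i, j, l.s⟩ := by
          rw [h3]; simp
        refine ⟨h3', ?_⟩
        rw [← q2]
        exact (S.O_U (by rw [h3']; exact h2)).symm)
  have hself : S.lab (S.act (l.x - l.x) (l.y - l.y) x) = ⟨l.k, l.m, l.x, l.y, l.s⟩ ∧
    S.O (S.act (l.x - l.x) (l.y - l.y) x) = S.O x := by
    simp [S.act_zero, ← hl]
  exact (key i j h).2 ((key l.x l.y v5).1 hself)

/-- The origin of the patch around `x`. -/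
def root (x : X) : X := S.act (-(S.lab x).x) (-(S.lab x).y) x

theorem lab_root (x : X) :
    S.lab (S.root x) = ⟨(S.lab x).k, (S.lab x).m, 0, 0, (S.lab x).s⟩ := by
  have := (S.patch x (InP_zero (S.val x).1)).1
  simpa [root] using this

theorem O_root (x : X) : S.O (S.root x) = S.O x := by
  have := (S.patch x (InP_zero (S.val x).1)).2
  simpa [root] using this

/-- Labels of a patch seen from its origin. -/
theorem patch0 {p : X} (hx : (S.lab p).x = 0) (hy : (S.lab p).y = 0) {i j : ℤ}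
    (h : InP (S.lab p).k (S.lab p).m (S.lab p).s i j) :
    S.lab (S.act i j p) = ⟨(S.lab p).k, (S.lab p).m, i, j, (S.lab p).s⟩ ∧
    S.O (S.act i j p) = S.O p := by
  have := S.patch p h
  rw [hx, hy] at this
  simpa using this

theorem root_of_zero {p : X} (hx : (S.lab p).x = 0) (hy : (S.lab p).y = 0) :
    S.root p = p := by
  simp [root, hx, hy, act_zero]

theorem root_act (x : X) (i j : ℤ) (h : InP (S.lab x).k (S.lab x).m (S.lab x).s i j) :
    S.root (S.act (i - (S.lab x).x) (j - (S.lab x).y) x) = S.root x := by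
  have := (S.patch x h).1
  unfold root
  rw [this, S.act_add]
  congr 1 <;> ring

/-- Right neighbour of the patch at `p`. -/
theorem lab_R1 {p : X} (hx : (S.lab p).x = 0) (hy : (S.lab p).y = 0) :
    (S.lab (S.act (S.lab p).k (d1y (S.lab p).s) p)).x = 0 ∧
    (S.lab (S.act (S.lab p).k (d1y (S.lab p).s) p)).y = 0 ∧
    (S.lab (S.act (S.lab p).k (d1y (S.lab p).s) p)).k = (S.lab p).k ∧
    (S.lab (S.act (S.lab p).k (d1y (S.lab p).s) p)).m = (S.lab p).m ∧
    CH (S.lab p).s (S.lab (S.act (S.lab p).k (d1y (S.lab p).s) p)).s := by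
  obtain ⟨v1, v2, v3, v4, v5⟩ := S.val p
  have hin : InP (S.lab p).k (S.lab p).m (S.lab p).s ((S.lab p).k - 1) (d1y (S.lab p).s) := by
    unfold d1y
    split_ifs
    · right; right; left; omega
    · right; left; omega
  obtain ⟨q1, q2⟩ := S.patch0 hx hy hin
  have h := S.hV' (S.act ((S.lab p).k - 1) (d1y (S.lab p).s) p)
  rw [S.act_R, q1] at h
  have e : (S.lab p).k - 1 + 1 = (S.lab p).k := by ring
  rw [e] at h
  set l := S.lab p with hl
  set l' := S.lab (S.act l.k (d1y l.s) p) with hl'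
  obtain ⟨-, ⟨w1, w2, w3, w4, w5⟩, g1, g2, h | h | h⟩ := h
  · exfalso
    obtain ⟨-, e1, e2, e3, -⟩ := h
    simp only at e1 e2 e3 g1 g2
    have e4 : l'.x = l.k := by omega
    rw [e4, ← e2, ← e3, ← g1, ← g2] at w5
    clear hin v5
    unfold d1y at w5
    grind (splits := 60)
  · obtain ⟨-, -, e1, e2, e3⟩ := h
    simp only at e1 e2 e3 g1 g2
    refine ⟨by omega, by omega, by omega, by omega, e3⟩
  · exfalso
    obtain ⟨e1, e2, e3, e4, e5⟩ := h
    simp only at e3
    omega

/-- Upper neighbour of the patch at `p`. -/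
theorem lab_U1 {p : X} (hx : (S.lab p).x = 0) (hy : (S.lab p).y = 0) :
    (S.lab (S.act (-1) (d2y (S.lab p).m (S.lab p).s) p)).x = 0 ∧
    (S.lab (S.act (-1) (d2y (S.lab p).m (S.lab p).s) p)).y = 0 ∧
    (S.lab (S.act (-1) (d2y (S.lab p).m (S.lab p).s) p)).k = (S.lab p).k ∧
    (S.lab (S.act (-1) (d2y (S.lab p).m (S.lab p).s) p)).m = (S.lab p).m ∧
    CV (S.lab p).s (S.lab (S.act (-1) (d2y (S.lab p).m (S.lab p).s) p)).s := by
  obtain ⟨v1, v2, v3, v4, v5⟩ := S.val p
  have hin : InP (S.lab p).k (S.lab p).m (S.lab p).s (-1)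
      (d2y (S.lab p).m (S.lab p).s - 1) := by
    unfold d2y
    split_ifs
    · left; omega
    · right; right; right; omega
  obtain ⟨q1, q2⟩ := S.patch0 hx hy hin
  have h := S.hH' (S.act (-1) (d2y (S.lab p).m (S.lab p).s - 1) p)
  rw [S.act_U, q1] at h
  have e : d2y (S.lab p).m (S.lab p).s - 1 + 1 = d2y (S.lab p).m (S.lab p).s := by ring
  rw [e] at h
  set l := S.lab p with hl
  set l' := S.lab (S.act (-1) (d2y l.m l.s) p) with hl'
  obtain ⟨-, ⟨w1, w2, w3, w4, w5⟩, g1, g2, h | h | h⟩ := h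
  · exfalso
    obtain ⟨-, e1, e2, e3, -⟩ := h
    simp only at e1 e2 e3 g1 g2
    have e4 : l'.y = d2y l.m l.s := by omega
    rw [e4, ← e1, ← e3, ← g1, ← g2] at w5
    clear hin v5
    unfold d2y at w5
    grind (splits := 60)
  · obtain ⟨-, -, e1, e2, e3⟩ := h
    simp only at e1 e2 e3 g1 g2
    refine ⟨by omega, by omega, by omega, by omega, e3⟩
  · exfalso
    obtain ⟨e1, e2, e3, e4, e5⟩ := h
    simp only at e3
    omega

end Sys

end BR13
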