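import Pool.Agent.LibBR13.Density

/-!
# A family of rotation actions of `ℤ^n` that are not Baire-universal

`LCL`, `Act`, `BAIRE`, `BaireUniversal`, `rot`, `Indep` are in `Pool/Agent/LibBR13/Dyn.lean`,
`Adm` is in `Pool/Agent/LibBR13/Content.lean`, `Admissible` in `Pool/Agent/LibBR13/Family.lean`.
-/

namespace BR13.RotationFamilyOld

open BR13

/-- Let `1, α_1, ..., α_n` be linearly independent over `ℚ`, and suppose that some pair
`(u·α + p, w·α + q)`, with `u, w` integer vectors and `p, q` integers, is admissible, i.e. has a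
bounded two-digit expansion. Then the rotation action of `ℤ^n` on the circle is not
Baire-universal. Such `α` form an uncountable set in every non-empty open subset of `ℝ^n`,
`n ≥ 2`. Every bounded digit sequence belongs to an admissible pair, admissible pairs are
rationally independent with `1`, different digit sequences give different pairs, and the pairs
`(t, t^2)` with `t ^ 3 - k * t + 1 = 0`, `0 < t < 1/3`, `k ≥ 4`, are admissible. -/
theorem result :
    (∀ (n : ℕ) (α : Fin n → ℝ), Indep α → ∀ (u w : Fin n → ℤ) (p q : ℤ),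
      Admissible ((∑ i, (u i : ℝ) * α i) + p) ((∑ i, (w i : ℝ) * α i) + q) →
      (rot α).IsBorel ∧ (rot α).Free ∧ ¬ BaireUniversal (rot α) ∧
        ∃ P : LCL n, P ∉ BAIRE n ∧ (rot α).BaireSolves P) ∧
    (∀ n : ℕ, 2 ≤ n → ∀ O : Set (Fin n → ℝ), IsOpen O → O.Nonempty →
      ¬ (O ∩ {α : Fin n → ℝ | Indep α ∧ ∃ (u w : Fin n → ℤ) (p q : ℤ),
        Admissible ((∑ i, (u i : ℝ) * α i) + p) ((∑ i, (w i : ℝ) * α i) + q)}).Countable) ∧
    (∀ (k m : ℕ → ℤ) (M : ℤ), (∀ j, 3 ≤ k j ∧ k j ≤ M) → (∀ j, 4 ≤ m j ∧ m j ≤ M) →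
      ∃ a b, Adm a b k m ∧ Admissible (a 0) (b 0)) ∧
    (∀ x y : ℝ, Admissible x y → Indep ![x, y]) ∧
    (∀ (a b a' b' : ℕ → ℝ) (k m k' m' : ℕ → ℤ), Adm a b k m → Adm a' b' k' m' →
      a 0 = a' 0 → b 0 = b' 0 → k = k' ∧ m = m') ∧
    (∀ k : ℤ, 4 ≤ k → (∃ t : ℝ, 0 < t ∧ t < 1 / 3 ∧ t ^ 3 - k * t + 1 = 0) ∧
      ∀ t : ℝ, 0 < t → t < 1 / 3 → t ^ 3 - k * t + 1 = 0 → Admissible t (t ^ 2)) := by
  refine ⟨?_, ?_, ?_, ?_, ?_, ?_⟩
  · intro n α h u w p q hA
    obtain ⟨P, h1, h2⟩ := not_universal h hA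
    refine ⟨rot_borel α, rot_free h, ?_, P, h1, h2⟩
    intro hU
    exact h1 ((hU.2.2 P).1 h2)
  · intro n hn O hO hne
    exact good_uncountable hn hO hne
  · intro k m M hk hm
    exact exists_admissible hk hm
  · intro x y h
    exact h.indep
  · intro a b a' b' k m k' m' A B ha hb
    constructor
    · funext j
      exact ((A.digits_uniq B ha hb (j + 1)).2.2 j (Nat.lt_succ_self j)).1
    · funext j
      exact ((A.digits_uniq B ha hb (j + 1)).2.2 j (Nat.lt_succ_self j)).2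
  · intro k hk
    exact ⟨cubic_exists hk, fun t h0 h1 h => cubic_adm hk h0 h1 h⟩

end BR13.RotationFamilyOld
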