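import Pool.Agent.LibBR13.Vert2

/-! Systems: labellings obeying the local rules. -/

namespace BR13

/-- A connected system: two commuting bijections and a labelling obeying the rules. -/
structure Sys (X : Type) where
  R : Equiv.Perm X
  U : Equiv.Perm X
  comm : R * U = U * R
  lab : X → Lab
  c1 : X → Cont
  c2 : X → Cont
  hH : ∀ x, RelH (lab (U.symm x)) (lab x) (c1 x)
  hV : ∀ x, RelV (lab (R.symm x)) (lab x) (c2 x)
  hX : ∀ x, VR (c1 x) (c2 x) (c1 (R.symm x)) (c2 (U.symm x))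
  conn : ∀ Q : X → Prop, (∀ x, Q x ↔ Q (R x)) → (∀ x, Q x ↔ Q (U x)) → ∀ x y, Q x → Q y

namespace Sys

variable {X : Type} (S : Sys X)

/-- Translation by `(i, j)`. -/
def act (i j : ℤ) (x : X) : X := (S.R ^ i * S.U ^ j) x

theorem act_zero (x : X) : S.act 0 0 x = x := by simp [act]

theorem act_add (i j i' j' : ℤ) (x : X) :
    S.act i j (S.act i' j' x) = S.act (i + i') (j + j') x := by
  unfold act
  rw [← Equiv.Perm.mul_apply]
  congr 1
  have hc : Commute S.R S.U := S.comm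
  rw [zpow_add, zpow_add]
  have := (hc.symm.zpow_zpow j i').eq
  calc S.R ^ i * S.U ^ j * (S.R ^ i' * S.U ^ j')
      = S.R ^ i * (S.U ^ j * S.R ^ i') * S.U ^ j' := by group
    _ = S.R ^ i * (S.R ^ i' * S.U ^ j) * S.U ^ j' := by rw [this]
    _ = S.R ^ i * S.R ^ i' * (S.U ^ j * S.U ^ j') := by group

theorem R_act (x : X) : S.R x = S.act 1 0 x := by simp [act]

theorem U_act (x : X) : S.U x = S.act 0 1 x := by simp [act]

theorem Rs_act (x : X) : S.R.symm x = S.act (-1) 0 x := by simp [act]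

theorem Us_act (x : X) : S.U.symm x = S.act 0 (-1) x := by simp [act]

theorem act_R (i j : ℤ) (x : X) : S.R (S.act i j x) = S.act (i + 1) j x := by
  rw [R_act, act_add]; ring_nf

theorem act_U (i j : ℤ) (x : X) : S.U (S.act i j x) = S.act i (j + 1) x := by
  rw [U_act, act_add]; ring_nf

theorem act_Rs (i j : ℤ) (x : X) : S.R.symm (S.act i j x) = S.act (i - 1) j x := by
  rw [Rs_act, act_add]; ring_nf

theorem act_Us (i j : ℤ) (x : X) : S.U.symm (S.act i j x) = S.act i (j - 1) x := by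
  rw [Us_act, act_add]; ring_nf

theorem comm_apply (x : X) : S.R (S.U x) = S.U (S.R x) := by
  rw [S.U_act, S.R_act, S.R_act, S.U_act, act_add, act_add]; ring_nf

theorem commss (x : X) : S.R.symm (S.U.symm x) = S.U.symm (S.R.symm x) := by
  rw [S.Us_act, S.Rs_act, S.Rs_act, S.Us_act, act_add, act_add]; ring_nf

theorem val (x : X) : Val (S.lab x) := (S.hH x).2.1

/-- The rule for the common edge of `x` and its right neighbour. -/
theorem hV' (x : X) : RelV (S.lab x) (S.lab (S.R x)) (S.c2 (S.R x)) := by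
  simpa using S.hV (S.R x)

theorem hH' (x : X) : RelH (S.lab x) (S.lab (S.U x)) (S.c1 (S.U x)) := by
  simpa using S.hH (S.U x)

theorem stepR {x : X} (hi : InP (S.lab x).k (S.lab x).m (S.lab x).s ((S.lab x).x + 1) (S.lab x).y) :
    S.lab (S.R x) = ⟨(S.lab x).k, (S.lab x).m, (S.lab x).x + 1, (S.lab x).y, (S.lab x).s⟩ :=
  stepR_pure (S.hV' x) hi

theorem stepU {x : X} (hi : InP (S.lab x).k (S.lab x).m (S.lab x).s (S.lab x).x ((S.lab x).y + 1)) :
    S.lab (S.U x) = ⟨(S.lab x).k, (S.lab x).m, (S.lab x).x, (S.lab x).y + 1, (S.lab x).s⟩ :=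
  stepU_pure (S.hH' x) hi

theorem stepL {x : X} (hi : InP (S.lab x).k (S.lab x).m (S.lab x).s ((S.lab x).x - 1) (S.lab x).y) :
    S.lab (S.R.symm x) =
      ⟨(S.lab x).k, (S.lab x).m, (S.lab x).x - 1, (S.lab x).y, (S.lab x).s⟩ := by
  obtain ⟨a1, a2, a3, a4, a5, -⟩ := relV_int (S.hV x) hi
  ext <;> simp only <;> omega

theorem stepD {x : X} (hi : InP (S.lab x).k (S.lab x).m (S.lab x).s (S.lab x).x ((S.lab x).y - 1)) :
    S.lab (S.U.symm x) =
      ⟨(S.lab x).k, (S.lab x).m, (S.lab x).x, (S.lab x).y - 1, (S.lab x).s⟩ := by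
  obtain ⟨a1, a2, a3, a4, a5, -⟩ := relH_int (S.hH x) hi
  ext <;> simp only <;> omega

/-- All interior edges of the square `x` have owner `O`. -/
def IntOwn (x : X) (O : Lab) : Prop :=
  (InP (S.lab x).k (S.lab x).m (S.lab x).s ((S.lab x).x - 1) (S.lab x).y → (S.c2 x).o = O) ∧
  (InP (S.lab x).k (S.lab x).m (S.lab x).s (S.lab x).x ((S.lab x).y - 1) → (S.c1 x).o = O) ∧
  (InP (S.lab x).k (S.lab x).m (S.lab x).s ((S.lab x).x + 1) (S.lab x).y →
    (S.c2 (S.R x)).o = O) ∧
  (InP (S.lab x).k (S.lab x).m (S.lab x).s (S.lab x).x ((S.lab x).y + 1) →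
    (S.c1 (S.U x)).o = O)

theorem exists_intOwn (x : X) : ∃ O, S.IntOwn x O := by
  obtain ⟨v1, v2, v3, v4, v5⟩ := S.val x
  -- left-bottom
  have LB : InP (S.lab x).k (S.lab x).m (S.lab x).s ((S.lab x).x - 1) (S.lab x).y →
      InP (S.lab x).k (S.lab x).m (S.lab x).s (S.lab x).x ((S.lab x).y - 1) →
      (S.c1 x).o = (S.c2 x).o := fun h1 h2 => vert_a (S.hH x) (S.hV x) (S.hX x) h1 h2
  -- right-bottom
  have RB : InP (S.lab x).k (S.lab x).m (S.lab x).s ((S.lab x).x + 1) (S.lab x).y →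
      InP (S.lab x).k (S.lab x).m (S.lab x).s (S.lab x).x ((S.lab x).y - 1) →
      (S.c2 (S.R x)).o = (S.c1 x).o := by
    intro h1 h2
    have hl := S.stepR h1
    have h3 := S.hX (S.R x)
    have a1 := S.hH (S.R x)
    have a2 := S.hV (S.R x)
    have a3 := S.hH (S.R.symm (S.R x))
    have a4 := S.hV (S.U.symm (S.R x))
    rw [S.commss] at a4
    obtain ⟨b1, b2, b3⟩ := vert_i a1 a2 a3 a4 h3 (by
        rw [hl]; simpa using v5) (by
        rw [hl]; exact geo1 v1 v2 v3 v4 v5 h1 h2) (by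
        rw [hl]; simpa using h2)
    rw [S.R.symm_apply_apply] at b2
    rw [b1, b2]
  -- left-top
  have LT : InP (S.lab x).k (S.lab x).m (S.lab x).s ((S.lab x).x - 1) (S.lab x).y →
      InP (S.lab x).k (S.lab x).m (S.lab x).s (S.lab x).x ((S.lab x).y + 1) →
      (S.c1 (S.U x)).o = (S.c2 x).o := by
    intro h1 h2
    have hl := S.stepU h2
    have h3 := S.hX (S.U x)
    have a1 := S.hH (S.U x)
    have a2 := S.hV (S.U x)
    have a3 := S.hH (S.R.symm (S.U x))
    have a4 := S.hV (S.U.symm (S.U x))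
    rw [S.commss] at a4
    obtain ⟨b1, b2, b3⟩ := vert_i a1 a2 a3 a4 h3 (by
        rw [hl]; exact geo2 v1 v2 v3 v4 v5 h2 h1) (by
        rw [hl]; simpa using v5) (by
        rw [hl]; simpa using h1)
    rw [S.U.symm_apply_apply] at b3
    rw [b3]
  -- right-top
  have RT : InP (S.lab x).k (S.lab x).m (S.lab x).s ((S.lab x).x + 1) (S.lab x).y →
      InP (S.lab x).k (S.lab x).m (S.lab x).s (S.lab x).x ((S.lab x).y + 1) →
      (S.c1 (S.U x)).o = (S.c2 (S.R x)).o := by
    intro h1 h2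
    have hl := S.stepU h2
    have hr := S.stepR h1
    have h3 := S.hX (S.R (S.U x))
    have a3 := S.hH (S.R.symm (S.R (S.U x)))
    have a4 := S.hV (S.U.symm (S.R (S.U x)))
    have e1 : S.R.symm (S.R (S.U x)) = S.U x := by simp
    have e2 : S.U.symm (S.R (S.U x)) = S.R x := by rw [S.comm_apply]; simp
    rw [e1] at a3 h3
    rw [e2] at a4 h3
    have e3 : S.R.symm (S.R x) = S.U.symm (S.U x) := by simp
    rw [e3] at a4
    exact vert_f a3 a4 h3 (by rw [hl]; simpa using v5) (by rw [hr]; simpa using v5)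
  by_cases hL : InP (S.lab x).k (S.lab x).m (S.lab x).s ((S.lab x).x - 1) (S.lab x).y
  · refine ⟨(S.c2 x).o, fun _ => rfl, fun hB => LB hL hB, fun hR => ?_, fun hT => LT hL hT⟩
    rcases geo3 v1 v2 v3 v4 v5 hR hL with hB | hT
    · rw [RB hR hB, LB hL hB]
    · rw [← RT hR hT, LT hL hT]
  · by_cases hB : InP (S.lab x).k (S.lab x).m (S.lab x).s (S.lab x).x ((S.lab x).y - 1)
    · refine ⟨(S.c1 x).o, fun h => absurd h hL, fun _ => rfl, fun hR => RB hR hB, fun hT => ?_⟩
      rcases geo4 v1 v2 v3 v4 v5 hT hB with hL' | hR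
      · exact absurd hL' hL
      · rw [RT hR hT, RB hR hB]
    · by_cases hR : InP (S.lab x).k (S.lab x).m (S.lab x).s ((S.lab x).x + 1) (S.lab x).y
      · exact ⟨(S.c2 (S.R x)).o, fun h => absurd h hL, fun h => absurd h hB, fun _ => rfl,
          fun hT => RT hR hT⟩
      · exact ⟨(S.c1 (S.U x)).o, fun h => absurd h hL, fun h => absurd h hB,
          fun h => absurd h hR, fun _ => rfl⟩

end Sys

end BR13
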