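import Pool.Agent.LibBR13.Exact

/-! No Toeplitz labelling of the plane obeys the rules. -/

namespace BR13

theorem near_int {c : ℝ} (h : ∀ m : ℤ, ∃ n : ℤ, |(m : ℝ) * c - n| ≤ 1 / 16) :
    ∃ n : ℤ, c = n := by
  obtain ⟨n1, hn1⟩ := h 1
  by_contra hc
  push Not at hc
  have hd : c - n1 ≠ 0 := fun h0 => hc n1 (by linarith)
  set d := c - n1 with hdd
  have hd0 : 0 < |d| := abs_pos.2 hd
  have hd1 : |d| ≤ 1 / 16 := by
    have : (((1 : ℤ) : ℝ) * c - n1) = d := by push_cast; ring
    rwa [this] at hn1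
  -- choose m with m |d| in (1/16, 3/16]
  obtain ⟨M, hM⟩ : ∃ M : ℕ, 1 / 16 < (M : ℝ) * |d| ∧ (M : ℝ) * |d| ≤ 3 / 16 := by
    refine ⟨⌊1 / 16 / |d|⌋₊ + 1, ?_, ?_⟩
    · have := Nat.lt_floor_add_one (1 / 16 / |d|)
      rw [div_lt_iff₀ hd0] at this
      push_cast
      exact this
    · have := Nat.floor_le (show 0 ≤ 1 / 16 / |d| by positivity)
      rw [le_div_iff₀ hd0] at this
      push_cast
      linarith
  obtain ⟨n2, hn2⟩ := h M
  have e1 : ((M : ℤ) : ℝ) * c - n2 = M * d - (n2 - M * n1 : ℤ) := by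
    push_cast
    rw [hdd]
    ring
  rw [e1] at hn2
  have e2 : |(M : ℝ) * d| = M * |d| := by rw [abs_mul, Nat.abs_cast]
  set r : ℤ := n2 - M * n1 with hr
  by_cases hr0 : r = 0
  · rw [hr0] at hn2
    simp only [Int.cast_zero, sub_zero] at hn2
    rw [e2] at hn2
    linarith [hM.1]
  · have hr1 : (1 : ℝ) ≤ |(r : ℝ)| := by
      rw [← Int.cast_abs]
      exact_mod_cast Int.one_le_abs hr0
    have : |(r : ℝ)| ≤ |(M : ℝ) * d| + |(M : ℝ) * d - r| := by
      have h3 : (r : ℝ) = M * d - (M * d - r) := by ring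
      calc |(r : ℝ)| = |M * d - (M * d - r)| := by rw [← h3]
        _ ≤ _ := abs_sub _ _
    rw [e2] at this
    linarith [hM.2]

/-- Eventually in the powers of two. -/
def Ev (P : ℕ → Prop) : Prop := ∃ J, ∀ j, J ≤ j → P j

theorem Ev.and {P Q : ℕ → Prop} (h1 : Ev P) (h2 : Ev Q) : Ev fun j => P j ∧ Q j := by
  obtain ⟨J, hJ⟩ := h1
  obtain ⟨J', hJ'⟩ := h2
  exact ⟨max J J', fun j hj => ⟨hJ j ((le_max_left _ _).trans hj),
    hJ' j ((le_max_right _ _).trans hj)⟩⟩

theorem Ev.mono {P Q : ℕ → Prop} (h1 : Ev P) (h : ∀ j, P j → Q j) : Ev Q := by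
  obtain ⟨J, hJ⟩ := h1
  exact ⟨J, fun j hj => h j (hJ j hj)⟩

/-- The shifted point. -/
def sh (j : ℕ) (v z : ℤ × ℤ) : ℤ × ℤ := (z.1 + 2 ^ j * v.1, z.2 + 2 ^ j * v.2)

theorem no_toeplitz (lab : ℤ × ℤ → Lab) (c1 c2 : ℤ × ℤ → Cont)
    (hH : ∀ z : ℤ × ℤ, RelH (lab (z.1, z.2 - 1)) (lab z) (c1 z))
    (hV : ∀ z : ℤ × ℤ, RelV (lab (z.1 - 1, z.2)) (lab z) (c2 z))
    (hX : ∀ z : ℤ × ℤ, VR (c1 z) (c2 z) (c1 (z.1 - 1, z.2)) (c2 (z.1, z.2 - 1)))
    (hT : ∀ z : ℤ × ℤ, ∃ j : ℕ, ∀ v : ℤ × ℤ, lab (sh j v z) = lab z) : False := by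
  let S : Sys (ℤ × ℤ) :=
    { R := ⟨fun z => (z.1 + 1, z.2), fun z => (z.1 - 1, z.2), by intro z; simp, by intro z; simp⟩
      U := ⟨fun z => (z.1, z.2 + 1), fun z => (z.1, z.2 - 1), by intro z; simp, by intro z; simp⟩
      comm := by ext z <;> rfl
      lab := lab
      c1 := c1
      c2 := c2
      hH := hH
      hV := hV
      hX := hX
      conn := by
        intro Q hR hU
        have hR' : ∀ x y : ℤ, Q (x, y) ↔ Q (x + 1, y) := fun x y => hR (x, y)
        have hU' : ∀ x y : ℤ, Q (x, y) ↔ Q (x, y + 1) := fun x y => hU (x, y)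
        have k1 : ∀ x y : ℤ, Q (x, y) ↔ Q (0, y) := by
          intro x y
          induction x using Int.induction_on with
          | zero => rfl
          | succ n ih => rw [← hR', ih]
          | pred n ih =>
            rw [← ih]
            have := hR' (-(n : ℤ) - 1) y
            rw [sub_add_cancel] at this
            exact this
        have k2 : ∀ y : ℤ, Q (0, y) ↔ Q (0, 0) := by
          intro y
          induction y using Int.induction_on with
          | zero => rfl
          | succ n ih => rw [← hU', ih]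
          | pred n ih =>
            rw [← ih]
            have := hU' 0 (-(n : ℤ) - 1)
            rw [sub_add_cancel] at this
            exact this
        rintro ⟨x, y⟩ ⟨x', y'⟩ h
        rw [k1, k2]
        rwa [k1, k2] at h }
  obtain ⟨a, b, t, h⟩ := S.exact (0, 0)
  obtain ⟨e1, e2⟩ := Sys.ph_zero h
  have hbd := h.2.2.2.2.1
  -- integrality
  have hint : ∀ z : ℤ × ℤ, ∃ n : ℤ, t z - t (0, 0) = z.1 * a + z.2 * b - n := by
    intro z
    refine S.conn (fun z => ∃ n : ℤ, t z - t (0, 0) = z.1 * a + z.2 * b - n) ?_ ?_ (0, 0) z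
      ⟨0, by simp⟩
    · intro x
      have h3 : t (x.1 + 1, x.2) = t x + a - S.wR x := e1 x
      obtain ⟨w, hw⟩ : ∃ w : ℤ, S.wR x = w := by
        unfold Sys.wR
        split_ifs
        · exact ⟨1, by simp⟩
        · exact ⟨0, by simp⟩
      constructor
      · rintro ⟨n, hn⟩
        refine ⟨n + w, ?_⟩
        change t (x.1 + 1, x.2) - t (0, 0) = ((x.1 + 1 : ℤ) : ℝ) * a + (x.2 : ℝ) * b - _
        rw [h3, hw]; push_cast; linarith
      · rintro ⟨n, hn⟩
        change t (x.1 + 1, x.2) - t (0, 0) = ((x.1 + 1 : ℤ) : ℝ) * a + (x.2 : ℝ) * b - _ at hn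
        refine ⟨n - w, ?_⟩
        rw [h3, hw] at hn; push_cast at hn ⊢; linarith
    · intro x
      have h3 : t (x.1, x.2 + 1) = t x + b - S.wU x := e2 x
      obtain ⟨w, hw⟩ : ∃ w : ℤ, S.wU x = w := by
        unfold Sys.wU
        split_ifs
        · exact ⟨1, by simp⟩
        · exact ⟨0, by simp⟩
      constructor
      · rintro ⟨n, hn⟩
        refine ⟨n + w, ?_⟩
        change t (x.1, x.2 + 1) - t (0, 0) = (x.1 : ℝ) * a + ((x.2 + 1 : ℤ) : ℝ) * b - _
        rw [h3, hw]; push_cast; linarith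
      · rintro ⟨n, hn⟩
        change t (x.1, x.2 + 1) - t (0, 0) = (x.1 : ℝ) * a + ((x.2 + 1 : ℤ) : ℝ) * b - _ at hn
        refine ⟨n - w, ?_⟩
        rw [h3, hw] at hn; push_cast at hn ⊢; linarith
  -- eventual invariance of differences
  have hTe : ∀ z, Ev fun j => ∀ v, lab (sh j v z) = lab z := by
    intro z
    obtain ⟨j, hj⟩ := hT z
    refine ⟨j, fun i hi v => ?_⟩
    have := hj (2 ^ (i - j) * v.1, 2 ^ (i - j) * v.2)
    have e : (2 : ℤ) ^ i = 2 ^ j * 2 ^ (i - j) := by
      rw [← pow_add]; congr 1; omega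
    unfold sh at this ⊢
    dsimp only at this
    rw [e, mul_assoc, mul_assoc]
    exact this
  have hdiff : ∀ z : ℤ × ℤ,
      Ev fun j => ∀ v, t (sh j v z) - t (sh j v (0, 0)) = t z - t (0, 0) := by
    intro z
    refine S.conn (fun z => Ev fun j => ∀ v, t (sh j v z) - t (sh j v (0, 0)) = t z - t (0, 0))
      ?_ ?_ (0, 0) z ⟨0, by intros; simp⟩
    · intro x
      have step : Ev fun j => ∀ v, t (sh j v (x.1 + 1, x.2)) - t (sh j v x) =
          t (x.1 + 1, x.2) - t x := by
        refine (hTe x).mono fun j hj v => ?_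
        have h3 : t (x.1 + 1, x.2) = t x + a - S.wR x := e1 x
        have h4 : t ((sh j v x).1 + 1, (sh j v x).2) = t (sh j v x) + a - S.wR (sh j v x) :=
          e1 (sh j v x)
        have h5 : S.wR (sh j v x) = S.wR x := by
          unfold Sys.wR
          change (if 2 ≤ own (lab (sh j v x)) then (1 : ℝ) else 0) =
            if 2 ≤ own (lab x) then (1 : ℝ) else 0
          rw [hj v]
        have h6 : sh j v (x.1 + 1, x.2) = ((sh j v x).1 + 1, (sh j v x).2) := by
          unfold sh; ext <;> simp only; ring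
        rw [h6, h4, h3, h5]; ring
      constructor
      · intro hx
        refine (hx.and step).mono fun j hj v => ?_
        have := hj.1 v
        have h2 := hj.2 v
        change t (sh j v (x.1 + 1, x.2)) - _ = t (x.1 + 1, x.2) - _
        linarith
      · intro hx
        refine (Ev.and hx step).mono fun j hj v => ?_
        have := hj.1 v
        change t (sh j v (x.1 + 1, x.2)) - _ = t (x.1 + 1, x.2) - _ at this
        have h2 := hj.2 v
        linarith
    · intro x
      have step : Ev fun j => ∀ v, t (sh j v (x.1, x.2 + 1)) - t (sh j v x) =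
          t (x.1, x.2 + 1) - t x := by
        refine (hTe x).mono fun j hj v => ?_
        have h3 : t (x.1, x.2 + 1) = t x + b - S.wU x := e2 x
        have h4 : t ((sh j v x).1, (sh j v x).2 + 1) = t (sh j v x) + b - S.wU (sh j v x) :=
          e2 (sh j v x)
        have h5 : S.wU (sh j v x) = S.wU x := by
          unfold Sys.wU
          change (if own (lab (sh j v x)) = 3 then (1 : ℝ) else 0) =
            if own (lab x) = 3 then (1 : ℝ) else 0
          rw [hj v]
        have h6 : sh j v (x.1, x.2 + 1) = ((sh j v x).1, (sh j v x).2 + 1) := by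
          unfold sh; ext <;> simp only; ring
        rw [h6, h4, h3, h5]; ring
      constructor
      · intro hx
        refine (hx.and step).mono fun j hj v => ?_
        have := hj.1 v
        have h2 := hj.2 v
        change t (sh j v (x.1, x.2 + 1)) - _ = t (x.1, x.2 + 1) - _
        linarith
      · intro hx
        refine (Ev.and hx step).mono fun j hj v => ?_
        have := hj.1 v
        change t (sh j v (x.1, x.2 + 1)) - _ = t (x.1, x.2 + 1) - _ at this
        have h2 := hj.2 v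
        linarith
  -- points near the supremum and the infimum
  have hba : BddAbove (Set.range t) := ⟨2, by
    rintro _ ⟨z, rfl⟩
    exact (abs_le.1 (hbd z)).2⟩
  have hbb : BddBelow (Set.range t) := ⟨-2, by
    rintro _ ⟨z, rfl⟩
    exact (abs_le.1 (hbd z)).1⟩
  obtain ⟨_, ⟨z1, rfl⟩, hz1⟩ := exists_lt_of_lt_csSup (Set.range_nonempty t)
    (show sSup (Set.range t) - 1 / 16 < sSup (Set.range t) by linarith)
  obtain ⟨_, ⟨z2, rfl⟩, hz2⟩ := exists_lt_of_csInf_lt (Set.range_nonempty t)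
    (show sInf (Set.range t) < sInf (Set.range t) + 1 / 16 by linarith)
  obtain ⟨J, hJ⟩ := (hdiff z1).and (hdiff z2)
  obtain ⟨hJ1, hJ2⟩ := hJ J le_rfl
  have hclose : ∀ v, |t (sh J v (0, 0)) - t (0, 0)| ≤ 1 / 16 := by
    intro v
    have h1 := hJ1 v
    have h2 := hJ2 v
    have h3 : t (sh J v z1) ≤ sSup (Set.range t) := le_csSup hba ⟨_, rfl⟩
    have h4 : sInf (Set.range t) ≤ t (sh J v z2) := csInf_le hbb ⟨_, rfl⟩
    rw [abs_le]
    constructor <;> linarith
  have ha : ∃ n : ℤ, 2 ^ J * a = n := by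
    apply near_int
    intro m
    obtain ⟨n, hn⟩ := hint (sh J (m, 0) (0, 0))
    refine ⟨n, ?_⟩
    have := hclose (m, 0)
    rw [hn] at this
    unfold sh at this
    dsimp only at this
    push_cast at this
    have e : (m : ℝ) * (2 ^ J * a) - n = (0 + 2 ^ J * (m : ℝ)) * a + (0 + 2 ^ J * 0) * b - n := by
      ring
    rw [e]
    exact this
  have hb : ∃ n : ℤ, 2 ^ J * b = n := by
    apply near_int
    intro m
    obtain ⟨n, hn⟩ := hint (sh J (0, m) (0, 0))
    refine ⟨n, ?_⟩
    have := hclose (0, m)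
    rw [hn] at this
    unfold sh at this
    dsimp only at this
    push_cast at this
    have e : (m : ℝ) * (2 ^ J * b) - n = (0 + 2 ^ J * 0) * a + (0 + 2 ^ J * (m : ℝ)) * b - n := by
      ring
    rw [e]
    exact this
  obtain ⟨A, hA⟩ := ha
  obtain ⟨B, hB⟩ := hb
  refine Sys.irrational (2 ^ J) (ℤ × ℤ) S (0, 0) a b t h (by positivity) ⟨A, B, ?_, ?_⟩
  · push_cast; rw [← hA]; ring
  · push_cast; rw [← hB]; ring

end BR13
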