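import Pool.Agent.LibBR13.Defs

/-! Vertex lemmas. -/

namespace BR13

/-- Squares of a patch on the left path. -/
theorem left_cls {k m s x y : ℤ} (hk : 3 ≤ k) (hm : 4 ≤ m) (h0 : 0 ≤ s) (_h3 : s ≤ 3)
    (h : InP k m s x y) (hx : ¬ InP k m s (x - 1) y) (h2 : ¬ (x = 1 ∧ y = -1)) :
    (x = 0 ∧ y = 0) ∨ (x = -1 ∧ 1 ≤ y ∧ y ≤ m - 1 ∧ (y = m - 1 → s ≠ 3)) := by
  grind (splits := 40)

/-- Squares of a patch on the bottom path. -/
theorem bot_cls {k m s x y : ℤ} (hk : 3 ≤ k) (hm : 4 ≤ m) (h0 : 0 ≤ s) (h3 : s ≤ 3)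
    (h : InP k m s x y) (hx : ¬ InP k m s x (y - 1)) (h2 : ¬ (x = -1 ∧ y = 1)) :
    (x = 0 ∧ y = 0) ∨ (y = 0 ∧ 1 ≤ x ∧ x ≤ k - 1 ∧ s ≤ 1) ∨
      (y = -1 ∧ 1 ≤ x ∧ x ≤ k - 1 ∧ 2 ≤ s) := by
  grind (splits := 40)

theorem relH_int {l l' : Lab} {c : Cont} (h : RelH l l' c)
    (hi : InP l'.k l'.m l'.s l'.x (l'.y - 1)) :
    l.k = l'.k ∧ l.m = l'.m ∧ l.x = l'.x ∧ l.y = l'.y - 1 ∧ l.s = l'.s ∧
      c.k = l'.k ∧ c.m = l'.m ∧ c.d = 1 ∧ c.x = l'.x ∧ c.y = l'.y ∧ own c.o = l'.s := by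
  obtain ⟨h1, h2, h3, h4, ⟨_, e1, e2, e3, c1, c2, c3, c4, c5, c6⟩ | h5 | h5⟩ := h
  · exact ⟨h3, h4, e1, e2, e3, c1, c2, c3, c4, c5, c6⟩
  · exact absurd hi h5.1
  · grind (splits := 40)

theorem relV_int {l l' : Lab} {c : Cont} (h : RelV l l' c)
    (hi : InP l'.k l'.m l'.s (l'.x - 1) l'.y) :
    l.k = l'.k ∧ l.m = l'.m ∧ l.x = l'.x - 1 ∧ l.y = l'.y ∧ l.s = l'.s ∧
      c.k = l'.k ∧ c.m = l'.m ∧ c.d = 2 ∧ c.x = l'.x ∧ c.y = l'.y ∧ own c.o = l'.s := by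
  obtain ⟨h1, h2, h3, h4, ⟨_, e1, e2, e3, c1, c2, c3, c4, c5, c6⟩ | h5 | h5⟩ := h
  · exact ⟨h3, h4, e1, e2, e3, c1, c2, c3, c4, c5, c6⟩
  · exact absurd hi h5.1
  · grind (splits := 40)

theorem relH_B {l l' : Lab} {c : Cont} (h : RelH l l' c)
    (hi : ¬ InP l'.k l'.m l'.s l'.x (l'.y - 1)) (hn : ¬ (l'.x = -1 ∧ l'.y = 1)) :
    l.k = l'.k ∧ l.m = l'.m ∧ l.x = l'.x - 1 ∧ l.y = l'.y + d2y l.m l.s - 1 ∧
      CV l.s l'.s := by
  obtain ⟨h1, h2, h3, h4, h5 | ⟨-, -, e1, e2, e3⟩ | h5⟩ := h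
  · exact absurd h5.1 hi
  · exact ⟨h3, h4, e1, e2, e3⟩
  · exact absurd ⟨h5.1, h5.2.1⟩ hn

theorem relH_L {l l' : Lab} {c : Cont} (h : RelH l l' c) (hx : l'.x = -1) (hy : l'.y = 1) :
    l.k = l'.k ∧ l.m = l'.m ∧ l.x = l'.k - 1 ∧ l.y = d1y l.s ∧ CH l.s l'.s := by
  obtain ⟨h1, h2, h3, h4, h5 | h5 | ⟨-, -, e1, e2, e3⟩⟩ := h
  · exfalso
    have := h5.1
    clear h1 h5
    rw [hx, hy] at this
    grind (splits := 40)
  · exact absurd ⟨hx, hy⟩ h5.2.1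
  · exact ⟨h3, h4, by rw [e1, hx]; omega, by rw [e2, hy]; omega, e3⟩

theorem relV_L {l l' : Lab} {c : Cont} (h : RelV l l' c)
    (hi : ¬ InP l'.k l'.m l'.s (l'.x - 1) l'.y) (hn : ¬ (l'.x = 1 ∧ l'.y = -1)) :
    l.k = l'.k ∧ l.m = l'.m ∧ l.x = l'.x + l.k - 1 ∧ l.y = l'.y + d1y l.s ∧
      CH l.s l'.s := by
  obtain ⟨h1, h2, h3, h4, h5 | ⟨-, -, e1, e2, e3⟩ | h5⟩ := h
  · exact absurd h5.1 hi
  · exact ⟨h3, h4, e1, e2, e3⟩
  · exact absurd ⟨h5.1, h5.2.1⟩ hn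

theorem relV_B {l l' : Lab} {c : Cont} (h : RelV l l' c) (hx : l'.x = 1) (hy : l'.y = -1) :
    l.k = l'.k ∧ l.m = l'.m ∧ l.x = -1 ∧ l.y = d2y l.m l.s - 1 ∧ CV l.s l'.s := by
  obtain ⟨h1, h2, h3, h4, h5 | h5 | ⟨-, -, e1, e2, e3⟩⟩ := h
  · exfalso
    have := h5.1
    clear h1 h5
    rw [hx, hy] at this
    grind (splits := 40)
  · exact absurd ⟨hx, hy⟩ h5.2.1
  · exact ⟨h3, h4, by rw [e1, hx]; omega, by rw [e2, hy]; omega, e3⟩

theorem relH_val {l l' : Lab} {c : Cont} (h : RelH l l' c) : Val l' := h.2.1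

theorem relV_val {l l' : Lab} {c : Cont} (h : RelV l l' c) : Val l' := h.2.1

/-- Bottom and left edge of a square, both interior. -/
theorem vert_a {l lW lS : Lab} {cE cN cW cS : Cont} (h1 : RelH lS l cE) (h2 : RelV lW l cN)
    (h : VR cE cN cW cS) (ha : InP l.k l.m l.s (l.x - 1) l.y)
    (hb : InP l.k l.m l.s l.x (l.y - 1)) : cE.o = cN.o := by
  obtain ⟨-, -, -, -, -, e1, e2, e3, e4, e5, e6⟩ := relH_int h1 hb
  obtain ⟨-, -, -, -, -, f1, f2, f3, f4, f5, f6⟩ := relV_int h2 ha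
  clear h1 h2
  rcases h with h | h | h | h | h | h | h
  · exact h.2.2.2.2.2.2.1.symm
  · exfalso
    obtain ⟨g1, g2, g3, g4, g5, g6, g7, g8, g9⟩ := h
    rw [f1, f2, f6, f4, f5] at g8
    exact g8 hb
  · exfalso
    obtain ⟨g1, g2, g3, g4, g5, g6, g7, g8, g9⟩ := h
    rw [e1, e2, e6, e4, e5] at g8
    exact g8 ha
  · exact h.2.1
  · exact h.2.1
  · have := congrArg Cont.d h.1
    omega
  · have := congrArg Cont.d h.1
    omega

/-- Straight vertex of a bottom path. -/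
theorem vert_b {l lW lS lSW : Lab} {cE cN cW cS : Cont} (h1 : RelH lS l cE)
    (h2 : RelV lW l cN) (h4 : RelV lSW lS cS)
    (h : VR cE cN cW cS) (ha : InP l.k l.m l.s (l.x - 1) l.y)
    (hb : ¬ InP l.k l.m l.s l.x (l.y - 1)) : cE = cW ∧ RelH cS.o cN.o cE := by
  obtain ⟨v1, v2, v3, v4, v5⟩ := relV_val h2
  obtain ⟨-, -, -, -, -, f1, f2, f3, f4, f5, f6⟩ := relV_int h2 ha
  have hne : ¬ (l.x = -1 ∧ l.y = 1) := by
    rintro ⟨hx, -⟩
    clear h h1 h2 h4 hb v5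
    rw [hx] at ha
    grind (splits := 40)
  obtain ⟨e1, e2, e3, e4, e5⟩ := relH_B h1 hb hne
  have hcl := bot_cls v1 v2 v3 v4 v5 hb hne
  have hcl2 : (l.y = 0 ∧ 1 ≤ l.x ∧ l.x ≤ l.k - 1 ∧ l.s ≤ 1) ∨
      (l.y = -1 ∧ 2 ≤ l.x ∧ l.x ≤ l.k - 1 ∧ 2 ≤ l.s) := by
    clear h h1 h2 h4 hb v5 f1 f2 f3 f4 f5 f6 e1 e2 e3 e4 e5
    grind (splits := 40)
  obtain ⟨w1, w2, w3, w4, -⟩ := relV_val h4
  have hl : InP lS.k lS.m lS.s (lS.x - 1) lS.y := by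
    rw [e4, e3, e1, e2]
    rw [e2] at w2
    rw [e1] at w1
    clear h h1 h2 h4 hb v5 f1 f2 f3 f4 f5 f6 e1 e2 e3 e4 ha hcl
    unfold d2y
    grind (splits := 40)
  obtain ⟨-, -, -, -, -, g1, g2, g3, g4, g5, g6⟩ := relV_int h4 hl
  clear h1 h2 h4
  rcases h with h | h | h | h | h | h | h
  · exfalso
    obtain ⟨i1, i2, i3, i4, i5, i6, i7, i8, i9, i10, i11, i12, i13, i14, i15, i16, i17, i18,
      i19, i20, i21, i22, i23⟩ := h
    rw [← i1, ← i4, ← i7, ← i14, ← i15, f1, f2, f6, f4, f5] at i22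
    exact hb i22
  · exact ⟨h.1, h.2.2.2.2.2.2.2.2.2.2.2.2.2.2.2⟩
  · exfalso
    have hy := congrArg Cont.y h.1
    rw [f5, g5, e4] at hy
    unfold d2y at hy
    clear h
    split_ifs at hy <;> omega
  · exfalso
    obtain ⟨-, -, -, -, -, -, -, -, i1, i2⟩ := h
    omega
  · exfalso
    obtain ⟨-, i0, -, -, -, -, -, -, i1, i2, i3⟩ := h
    rw [i0, f6] at i3
    omega
  · exfalso
    obtain ⟨-, i0, i1, -, -, -, -, -, i2, i3⟩ := h
    rw [i1, g1, g4] at i2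
    omega
  · exfalso
    obtain ⟨-, i0, i1, -, -, -, i2, -, -, i3, i4⟩ := h
    rw [i0, g6] at i2
    rw [g4] at i3
    clear hb ha
    omega

/-- Straight vertex of a left path. -/
theorem vert_c {l lW lS lSW : Lab} {cE cN cW cS : Cont} (h1 : RelH lS l cE)
    (h2 : RelV lW l cN) (h3 : RelH lSW lW cW)
    (h : VR cE cN cW cS) (ha : ¬ InP l.k l.m l.s (l.x - 1) l.y)
    (hb : InP l.k l.m l.s l.x (l.y - 1)) : cN = cS ∧ RelV cW.o cE.o cN := by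
  obtain ⟨v1, v2, v3, v4, v5⟩ := relH_val h1
  obtain ⟨-, -, -, -, -, f1, f2, f3, f4, f5, f6⟩ := relH_int h1 hb
  have hne : ¬ (l.x = 1 ∧ l.y = -1) := by
    rintro ⟨-, hy⟩
    clear h h1 h2 h3 ha v5
    rw [hy] at hb
    grind (splits := 40)
  obtain ⟨e1, e2, e3, e4, e5⟩ := relV_L h2 ha hne
  have hcl := left_cls v1 v2 v3 v4 v5 ha hne
  have hcl2 : l.x = -1 ∧ 2 ≤ l.y ∧ l.y ≤ l.m - 1 ∧ (l.y = l.m - 1 → l.s ≠ 3) := by
    clear h h1 h2 h3 ha v5 f1 f2 f3 f4 f5 f6 e1 e2 e3 e4 e5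
    grind (splits := 40)
  obtain ⟨w1, w2, w3, w4, -⟩ := relH_val h3
  have hl : InP lW.k lW.m lW.s lW.x (lW.y - 1) := by
    rw [e4, e3, e1, e2]
    rw [e2] at w2
    rw [e1] at w1
    clear h h1 h2 h3 hb v5 f1 f2 f3 f4 f5 f6 e1 e2 e3 e4 ha hcl
    unfold d1y
    grind (splits := 40)
  obtain ⟨-, -, -, -, -, g1, g2, g3, g4, g5, g6⟩ := relH_int h3 hl
  clear h1 h2 h3
  rcases h with h | h | h | h | h | h | h
  · exfalso
    obtain ⟨i1, i2, i3, i4, i5, i6, i7, i8, i9, i10, i11, i12, i13, i14, i15, i16, i17, i18,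
      i19, i20, i21, i22, i23⟩ := h
    rw [f1, f2, f6, f4, f5] at i21
    exact ha i21
  · exfalso
    have hx := congrArg Cont.x h.1
    rw [f4, g4] at hx
    clear h ha hb
    omega
  · exact ⟨h.1, h.2.2.2.2.2.2.2.2.2.2.2.2.2.2.2⟩
  · exfalso
    obtain ⟨-, -, -, -, -, -, i1, i2, -, -⟩ := h
    omega
  · exfalso
    obtain ⟨-, i0, -, -, -, -, i1, i2, -, -, i3⟩ := h
    omega
  · exfalso
    obtain ⟨-, i0, i1, -, -, -, -, i2, -, -⟩ := h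
    rw [g5, g6, e4] at i2
    omega
  · exfalso
    obtain ⟨-, i0, i1, -, -, -, i2, i3, -, -, -⟩ := h
    rw [g4] at i3
    clear hb ha
    omega

/-- Second corner of a left path. -/
theorem vert_d {l lW lS lSW : Lab} {cE cN cW cS : Cont} (h1 : RelH lS l cE)
    (h2 : RelV lW l cN) (h3 : RelH lSW lW cW) (h4 : RelV lSW lS cS)
    (h : VR cE cN cW cS) (hx : l.x = -1) (hy : l.y = 1) : cE = cN := by
  obtain ⟨v1, v2, v3, v4, v5⟩ := relH_val h1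
  obtain ⟨e1, e2, e3, e4, e5⟩ := relH_L h1 hx hy
  have ha : ¬ InP l.k l.m l.s (l.x - 1) l.y := by
    rw [hx, hy]
    clear h h1 h2 h3 h4 v5
    grind (splits := 40)
  obtain ⟨f1, f2, f3, f4, f5⟩ := relV_L h2 ha (by omega)
  obtain ⟨w1, w2, w3, w4, -⟩ := relH_val h3
  obtain ⟨u1, u2, u3, u4, -⟩ := relV_val h4
  have hl : InP lW.k lW.m lW.s lW.x (lW.y - 1) := by
    rw [f4, f3, hx, hy]
    clear h h1 h2 h3 h4 v5 ha
    unfold d1y
    grind (splits := 40)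
  have hl2 : InP lS.k lS.m lS.s (lS.x - 1) lS.y := by
    rw [e4, e3, e1]
    clear h h1 h2 h3 h4 v5 ha hl
    unfold d1y
    grind (splits := 40)
  obtain ⟨-, -, -, -, s1, g1, g2, g3, g4, g5, g6⟩ := relH_int h3 hl
  obtain ⟨-, -, -, -, s2, k1, k2, k3, k4, k5, k6⟩ := relV_int h4 hl2
  clear h1 h2 h3 h4 hl hl2 ha v5
  rcases h with h | h | h | h | h | h | h
  · exfalso
    obtain ⟨i1, i2, i3, i4, i5, i6, i7, i8, i9, i10, i11, i12, i13, i14, i15, i16, i17, i18,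
      i19, i20, i21, i22, i23⟩ := h
    have hcx : cE.x = l.k - 1 := by omega
    have hcy : cE.y = 1 + d1y lW.s := by omega
    rw [← i2, ← i5, ← i8, g6, g1, g2, hcx, hcy, f1, f2] at i20
    clear i21 i22 i23
    unfold d1y at i20
    grind (splits := 40)
  · exfalso
    obtain ⟨i1, i2, i3, i4, i5, i6, i7, i8, i9, i10, i11, i12, -⟩ := h
    have hcx : cN.x = l.k := by omega
    rw [hcx, i4, k1, e1, i5, k2, e2] at i6
    clear i7 i8 i9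
    grind (splits := 40)
  · exfalso
    obtain ⟨i1, i2, i3, i4, i5, i6, i7, i8, i9, i10, i11, i12, -⟩ := h
    have hcx : cE.x = -1 := by omega
    rw [g6, g5, f4] at i12
    have hcy : cE.y = 1 := by omega
    rw [hcx, hcy, i4, g1, f1, i5, g2, f2] at i7
    clear i6 i8 i9
    grind (splits := 40)
  · have := congrArg Cont.d h.1
    omega
  · have := congrArg Cont.d h.1
    omega
  · exact h.1
  · exact h.1

/-- Second corner of a bottom path. -/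
theorem vert_e {l lW lS lSW : Lab} {cE cN cW cS : Cont} (h1 : RelH lS l cE)
    (h2 : RelV lW l cN) (h3 : RelH lSW lW cW) (h4 : RelV lSW lS cS)
    (h : VR cE cN cW cS) (hx : l.x = 1) (hy : l.y = -1) : cE = cN := by
  obtain ⟨v1, v2, v3, v4, v5⟩ := relH_val h1
  have hs : 2 ≤ l.s := by
    rw [hx, hy] at v5
    clear h h1 h2 h3 h4
    grind (splits := 40)
  have hb : ¬ InP l.k l.m l.s l.x (l.y - 1) := by
    rw [hx, hy]
    clear h h1 h2 h3 h4 v5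
    grind (splits := 40)
  obtain ⟨e1, e2, e3, e4, e5⟩ := relH_B h1 hb (by omega)
  obtain ⟨f1, f2, f3, f4, f5⟩ := relV_B h2 hx hy
  have hsS : lS.s = 1 ∨ lS.s = 2 := e5.2 hs
  have hsW : lW.s = 1 ∨ lW.s = 2 := f5.2 hs
  have e4' : lS.y = lS.m - 2 := by
    rw [e4, hy]; unfold d2y; split_ifs <;> omega
  have f4' : lW.y = lW.m - 1 := by
    rw [f4]; unfold d2y; split_ifs <;> omega
  have hl : InP lW.k lW.m lW.s lW.x (lW.y - 1) := by
    rw [f4', f3]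
    clear h h1 h2 h3 h4 v5 hb
    grind (splits := 40)
  have hl2 : InP lS.k lS.m lS.s (lS.x - 1) lS.y := by
    rw [e4', e3, hx]
    clear h h1 h2 h3 h4 v5 hl hb
    grind (splits := 40)
  obtain ⟨-, -, -, -, s1, g1, g2, g3, g4, g5, g6⟩ := relH_int h3 hl
  obtain ⟨-, -, -, -, s2, k1, k2, k3, k4, k5, k6⟩ := relV_int h4 hl2
  clear h1 h2 h3 h4 hl hl2 hb v5
  rcases h with h | h | h | h | h | h | h
  · exfalso
    obtain ⟨i1, i2, i3, i4, i5, i6, i7, i8, i9, i10, i11, i12, i13, i14, i15, i16, i17, i18,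
      i19, i20, i21, i22, i23⟩ := h
    have hcx : cE.x = 0 := by omega
    have hcy : cE.y = l.m - 1 := by omega
    rw [← i2, ← i5, ← i8, g6, g1, g2, hcx, hcy, f1, f2] at i20
    clear i21 i22 i23
    grind (splits := 40)
  · exfalso
    obtain ⟨i1, i2, i3, i4, i5, i6, i7, i8, i9, i10, i11, i12, -⟩ := h
    have hcx : cN.x = 1 := by omega
    rw [k6, k5, k2, e4'] at i12
    have hcy : cN.y = -1 := by
      unfold d2y at i12
      split_ifs at i12 <;> omega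
    rw [hcx, hcy, i4, k1, e1, i5, k2, e2] at i7
    clear i6 i8 i9
    grind (splits := 40)
  · exfalso
    obtain ⟨i1, i2, i3, i4, i5, i6, i7, i8, i9, i10, i11, i12, -⟩ := h
    have hcx : cE.x = -l.k := by omega
    rw [hcx, i4, g1, f1, i5, g2, f2] at i6
    clear i7 i8 i9
    grind (splits := 40)
  · have := congrArg Cont.d h.1
    omega
  · have := congrArg Cont.d h.1
    omega
  · exact h.1
  · exact h.1

end BR13
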