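import Pool.Agent.LibBR13.Level
import Pool.Agent.LibBR13.Vert

/-! Transitions of the phase decomposition. -/

namespace BR13

variable {k m : ℤ} {a b a' b' : ℝ}

/-- The type of a phase is the own type of its label. -/
theorem Dec.typ (L : Lev k m a b a' b') {t : ℝ} {x y : ℤ} {e : ℝ}
    (h : Dec k m a b a' b' t x y e) : Typ a b t = own ⟨k, m, x, y, Typ a' b' e⟩ := by
  have hcol := h.col L
  obtain ⟨he0, he1, hP, ht⟩ := h
  have hb := L.hb
  have hs1 := L.hs
  have ha : 0 < a := L.hb.trans L.hab
  obtain ⟨hba1, hba2, hba3, hba4, hba5⟩ := L.ba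
  have ha3 := L.a3
  have h1 := L.h1
  have h2 := L.h2
  have hk := L.hk
  have hm := L.hm
  have hbe0 : 0 ≤ b * e := by positivity
  have hbe1 : b * e < b := by nlinarith
  have hT := Typ_cases (a := a') (b := b') e L.hb' L.hab'
  have hTt := Typ_cases (a := a) (b := b) t L.hb L.hab
  have hmb : ∀ (u v : ℝ), u ≤ v → b * u ≤ b * v := fun u v h => mul_le_mul_of_nonneg_left h hb.le
  have hmb' : ∀ (u v : ℝ), u < v → b * u < b * v := fun u v h => mul_lt_mul_of_pos_left h hb
  unfold own
  dsimp only
  rcases hcol with ⟨x1, x2, c1, c2, c3, c4⟩ | ⟨x1, c1, c2⟩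
  · rw [if_neg (by omega)]
    by_cases hx : x = k - 1
    · rw [if_pos hx]
      have hx' : (x : ℝ) = k - 1 := by rw [hx]; push_cast; ring
      rw [hx'] at c1 c2
      rcases hTt with h | h | h | h
      · linarith
      · linarith
      · exact h.1
      · linarith
    · rw [if_neg hx]
      have hyk : (k - 2 : ℤ) - x = 0 ∨ 1 ≤ (k - 2 : ℤ) - x := by omega
      rcases hyk with hx2 | hx2
      · have hx3 : x = k - 2 := by omega
        have hx' : (x : ℝ) = k - 2 := by rw [hx3]; push_cast; ring
        unfold ph at ht
        rw [if_neg (by omega), hx'] at ht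
        rw [hx'] at c1 c2
        -- the row
        have hrow : (y ≤ m - 3) ∨ (y = m - 2) ∨ (y = m - 1 ∧ Typ a' b' e = 0) := by
          rcases hP with h | h | h | h
          · omega
          · omega
          · omega
          · right; right
            obtain ⟨h3, h4 | h4⟩ := h
            · exact ⟨h3, h4.1⟩
            · omega
        rcases hrow with hy | hy | ⟨hy, hy2⟩
        · rw [if_neg (by omega), if_neg (by omega)]
          have hy' : (y : ℝ) ≤ m - 3 := by exact_mod_cast hy
          have hyb : (y : ℝ) * b ≤ (m - 3) * b := mul_le_mul_of_nonneg_right hy' hb.le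
          rcases hTt with h | h | h | h
          · exact h.1
          · linarith
          · linarith
          · linarith
        · rw [if_pos ⟨hx3, hy⟩]
          have hy' : (y : ℝ) = m - 2 := by rw [hy]; push_cast; ring
          rw [hy'] at ht
          split_ifs with hS
          · have he : b * e < b * (1 - a' - b') := by
              apply hmb'
              rcases hT with h' | h' | h' | h'
              · exact h'.2
              · omega
              · omega
              · omega
            rcases hTt with h | h | h | h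
            · exact h.1
            · linarith
            · linarith
            · linarith
          · have he : b * (1 - a' - b') ≤ b * e := by
              apply hmb
              rcases hT with h' | h' | h' | h'
              · exact absurd h'.1 hS
              · exact h'.2.1
              · linarith [L.hb']
              · linarith [L.hab', L.hb']
            rcases hTt with h | h | h | h
            · linarith
            · exact h.1
            · linarith
            · linarith
        · rw [if_neg (by omega), if_pos ⟨hx3, hy⟩]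
          have hy' : (y : ℝ) = m - 1 := by rw [hy]; push_cast; ring
          rw [hy'] at ht
          rcases hTt with h | h | h | h
          · linarith
          · exact h.1
          · linarith
          · linarith
      · rw [if_neg (by omega), if_neg (by omega)]
        have hx' : (x : ℝ) + 1 ≤ k - 2 := by
          have : x + 1 ≤ k - 2 := by omega
          exact_mod_cast this
        have := mul_le_mul_of_nonneg_right hx' ha.le
        rcases hTt with h | h | h | h
        · exact h.1
        · linarith
        · linarith
        · linarith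
  · rw [if_pos x1]
    subst x1
    unfold ph at ht
    norm_num at ht
    have hrow : 1 ≤ y ∧ ((y ≤ m - 3) ∨ (y = m - 2) ∨ (y = m - 1)) := by
      rcases hP with h | h | h | h <;> omega
    obtain ⟨hy1, hrow⟩ := hrow
    rcases hrow with hy | hy | hy
    · rw [if_neg (by omega)]
      have hy' : (y : ℝ) ≤ m - 3 := by exact_mod_cast hy
      have hyb : (y : ℝ) * b ≤ (m - 3) * b := mul_le_mul_of_nonneg_right hy' hb.le
      rcases hTt with h | h | h | h
      · linarith
      · linarith
      · exact h.1
      · linarith
    · have hy' : (y : ℝ) = m - 2 := by rw [hy]; push_cast; ring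
      rw [hy'] at ht
      by_cases hS : Typ a' b' e = 3
      · rw [if_pos (Or.inr ⟨hy, hS⟩)]
        have he : b * (1 - b') ≤ b * e := by
          apply hmb
          rcases hT with h' | h' | h' | h'
          · omega
          · omega
          · omega
          · exact h'.2
        rcases hTt with h | h | h | h
        · linarith
        · linarith
        · linarith
        · exact h.1
      · rw [if_neg (by omega)]
        have he : b * e < b * (1 - b') := by
          apply hmb'
          rcases hT with h' | h' | h' | h'
          · linarith [L.hab', L.hb']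
          · linarith [L.hab']
          · exact h'.2.2
          · exact absurd h'.1 hS
        rcases hTt with h | h | h | h
        · linarith
        · linarith
        · exact h.1
        · linarith
    · rw [if_pos (Or.inl hy)]
      have hy' : (y : ℝ) = m - 1 := by rw [hy]; push_cast; ring
      rw [hy'] at ht
      rcases hTt with h | h | h | h
      · linarith
      · linarith
      · linarith
      · exact h.1

theorem Rm_range {a t : ℝ} (ha : 0 < a) (ha1 : a < 1) (h0 : 0 ≤ t) (h1 : t < 1) :
    0 ≤ Rm a t ∧ Rm a t < 1 := by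
  unfold Rm
  split_ifs with h
  · constructor <;> linarith
  · constructor <;> linarith

theorem Rm_int (a t : ℝ) : ∃ n : ℤ, Rm a t = t - a + n := by
  unfold Rm
  split_ifs
  · exact ⟨1, by simp⟩
  · exact ⟨0, by simp⟩

/-- Build a decomposition of the rotated phase. -/
theorem Dec.mk' (L : Lev k m a b a' b') {t r : ℝ} (hr : 0 < r) (hr1 : r < 1)
    (h0 : 0 ≤ t) (h1 : t < 1) {x y : ℤ} {e : ℝ} (he0 : 0 ≤ e) (he1 : e < 1)
    (hP : InP k m (Typ a' b' e) x y) {n : ℤ} (hn : ph a b x y + b * e - (t - r) = n) :
    Dec k m a b a' b' (Rm r t) x y e := by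
  have hd : Dec k m a b a' b' (ph a b x y + b * e) x y e := ⟨he0, he1, hP, rfl⟩
  obtain ⟨g0, g1⟩ := hd.range L
  obtain ⟨r0, r1⟩ := Rm_range hr hr1 h0 h1
  obtain ⟨n', hn'⟩ := Rm_int r t
  have : Rm r t = ph a b x y + b * e := by
    have k1 : ((n' - n : ℤ) : ℝ) < 1 := by push_cast; linarith
    have k2 : (-1 : ℝ) < ((n' - n : ℤ) : ℝ) := by push_cast; linarith
    have k1' : n' - n < 1 := by exact_mod_cast k1
    have k2' : -1 < n' - n := by exact_mod_cast k2
    have : n' = n := by omega
    subst this
    linarith
  rw [this]
  exact hd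

theorem typ_left (L : Lev k m a b a' b') {e : ℝ} (he0 : 0 ≤ e) (he1 : e < 1) :
    CH (Typ a' b' (Rm a' e)) (Typ a' b' e) ∧ (2 ≤ Typ a' b' (Rm a' e) ↔ e < a') := by
  have h1 := L.hb'
  have h2 := L.hab'
  have h3 := L.hs'
  have hT := Typ_cases (a := a') (b := b') e L.hb' L.hab'
  have hT' := Typ_cases (a := a') (b := b') (Rm a' e) L.hb' L.hab'
  have hR : (e < a' ∧ Rm a' e = e - a' + 1) ∨ (a' ≤ e ∧ Rm a' e = e - a') := by
    unfold Rm
    split_ifs with h
    · left; exact ⟨h, rfl⟩
    · right; exact ⟨not_lt.1 h, rfl⟩
  constructor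
  · constructor
    · intro h
      rcases hT' with c | c | c | c
      · omega
      · rcases hR with d | d
        · exfalso; linarith
        · rcases hT with f | f | f | f
          · exfalso; linarith
          · exfalso; linarith
          · exfalso; linarith
          · exact f.1
      · omega
      · omega
    · intro h
      rcases hT with c | c | c | c
      · omega
      · omega
      · omega
      · rcases hR with d | d
        · exfalso; linarith
        · rcases hT' with f | f | f | f
          · exfalso; linarith
          · exact f.1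
          · exfalso; linarith
          · exfalso; linarith
  · constructor
    · intro h
      by_contra hc
      push Not at hc
      rcases hR with d | d
      · linarith
      · rcases hT' with f | f | f | f
        · omega
        · omega
        · linarith
        · linarith
    · intro h
      rcases hR with d | d
      · rcases hT' with f | f | f | f
        · exfalso; linarith
        · exfalso; linarith
        · omega
        · omega
      · linarith

theorem typ_down (L : Lev k m a b a' b') {e : ℝ} (he0 : 0 ≤ e) (he1 : e < 1) :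
    CV (Typ a' b' (Rm b' e)) (Typ a' b' e) ∧ (Typ a' b' (Rm b' e) = 3 ↔ e < b') := by
  have h1 := L.hb'
  have h2 := L.hab'
  have h3 := L.hs'
  have hT := Typ_cases (a := a') (b := b') e L.hb' L.hab'
  have hT' := Typ_cases (a := a') (b := b') (Rm b' e) L.hb' L.hab'
  have hR : (e < b' ∧ Rm b' e = e - b' + 1) ∨ (b' ≤ e ∧ Rm b' e = e - b') := by
    unfold Rm
    split_ifs with h
    · left; exact ⟨h, rfl⟩
    · right; exact ⟨not_lt.1 h, rfl⟩
  constructor
  · constructor
    · intro h
      rcases hR with d | d
      · rcases hT' with c | c | c | c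
        · omega
        · linarith
        · linarith
        · omega
      · rcases hT' with c | c | c | c
        · omega
        · rcases hT with f | f | f | f
          · exfalso; linarith
          · exfalso; linarith
          · omega
          · omega
        · rcases hT with f | f | f | f
          · exfalso; linarith
          · exfalso; linarith
          · omega
          · omega
        · omega
    · intro h
      rcases hT with c | c | c | c
      · omega
      · omega
      · rcases hR with d | d
        · exfalso; linarith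
        · rcases hT' with f | f | f | f
          · exfalso; linarith
          · left; exact f.1
          · right; exact f.1
          · exfalso; linarith
      · rcases hR with d | d
        · exfalso; linarith
        · rcases hT' with f | f | f | f
          · exfalso; linarith
          · left; exact f.1
          · right; exact f.1
          · exfalso; linarith
  · constructor
    · intro h
      by_contra hc
      push Not at hc
      rcases hR with d | d
      · linarith
      · rcases hT' with f | f | f | f
        · omega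
        · omega
        · omega
        · linarith
    · intro h
      rcases hR with d | d
      · rcases hT' with f | f | f | f
        · exfalso; linarith
        · exfalso; linarith
        · exfalso; linarith
        · exact f.1
      · linarith

theorem Lev.a1 (L : Lev k m a b a' b') : 0 < a ∧ a < 1 ∧ 0 < b ∧ b < 1 ∧ 0 < a' ∧ a' < 1 ∧
    0 < b' ∧ b' < 1 := by
  have := L.hb
  have := L.hab
  have := L.hs
  have := L.hb'
  have := L.hab'
  have := L.hs'
  refine ⟨by linarith, by linarith, by linarith, by linarith, by linarith, by linarith,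
    by linarith, by linarith⟩

/-- Left neighbour in the same patch. -/
theorem Dec.left_int (L : Lev k m a b a' b') {t : ℝ} {x y : ℤ} {e : ℝ}
    (h : Dec k m a b a' b' t x y e) (hi : InP k m (Typ a' b' e) (x - 1) y) :
    Dec k m a b a' b' (Rm a t) (x - 1) y e := by
  obtain ⟨r0, r1⟩ := h.range L
  obtain ⟨he0, he1, hP, ht⟩ := h
  have hx : -1 ≤ x - 1 := by rcases hi with h | h | h | h <;> omega
  obtain ⟨n, hn⟩ : ∃ n : ℤ, ph a b (x - 1) y + b * e - (t - a) = n := by
    rw [ht]
    unfold ph
    rw [if_neg (show ¬ x < 0 by omega)]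
    split_ifs
    · exact ⟨1, by push_cast; ring⟩
    · exact ⟨0, by push_cast; ring⟩
  exact Dec.mk' L L.a1.1 L.a1.2.1 r0 r1 he0 he1 hi hn

/-- Lower neighbour in the same patch. -/
theorem Dec.down_int (L : Lev k m a b a' b') {t : ℝ} {x y : ℤ} {e : ℝ}
    (h : Dec k m a b a' b' t x y e) (hi : InP k m (Typ a' b' e) x (y - 1)) :
    Dec k m a b a' b' (Rm b t) x (y - 1) e := by
  obtain ⟨r0, r1⟩ := h.range L
  obtain ⟨he0, he1, hP, ht⟩ := h
  have hn : ph a b x (y - 1) + b * e - (t - b) = (0 : ℤ) := by
    rw [ht]
    unfold ph
    push_cast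
    ring
  exact Dec.mk' L L.a1.2.2.1 L.a1.2.2.2.1 r0 r1 he0 he1 hi hn

/-- Left neighbour in the tile on the left. -/
theorem Dec.left_L (L : Lev k m a b a' b') {t : ℝ} {x y : ℤ} {e : ℝ}
    (h : Dec k m a b a' b' t x y e) (hi : ¬ InP k m (Typ a' b' e) (x - 1) y)
    (hn : ¬ (x = 1 ∧ y = -1)) :
    Dec k m a b a' b' (Rm a t) (x + k - 1) (y + d1y (Typ a' b' (Rm a' e))) (Rm a' e) := by
  obtain ⟨r0, r1⟩ := h.range L
  obtain ⟨he0, he1, hP, ht⟩ := h
  obtain ⟨s0, s1⟩ := Rm_range L.a1.2.2.2.2.1 L.a1.2.2.2.2.2.1 he0 he1
  obtain ⟨tl1, tl2⟩ := typ_left L he0 he1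
  have hk := L.hk
  have hm := L.hm
  have hcl := left_cls hk hm (Typ_range a' b' e).1 (Typ_range a' b' e).2 hP hi hn
  have hS := Typ_range a' b' (Rm a' e)
  have hd : (d1y (Typ a' b' (Rm a' e)) : ℝ) = - if e < a' then 1 else 0 := by
    unfold d1y
    by_cases h : e < a'
    · rw [if_pos h, if_pos (tl2.2 h)]; push_cast; ring
    · rw [if_neg h, if_neg (fun h' => h (tl2.1 h'))]; simp
  have hR : Rm a' e = e - a' + if e < a' then 1 else 0 := by
    unfold Rm; split_ifs <;> ring
  have hin : InP k m (Typ a' b' (Rm a' e)) (x + k - 1) (y + d1y (Typ a' b' (Rm a' e))) := by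
    unfold d1y
    generalize Typ a' b' (Rm a' e) = S at *
    generalize Typ a' b' e = T at *
    clear hi hP
    rcases hcl with ⟨rfl, rfl⟩ | ⟨rfl, h2, h3, h4⟩
    · split_ifs with hc
      · right; right; left; omega
      · right; left; omega
    · split_ifs with hc
      · by_cases hy : y = 1
        · right; left; omega
        · left; omega
      · by_cases hy : y = m - 1
        · right; right; right
          refine ⟨by omega, Or.inl ⟨?_, by omega, by omega⟩⟩
          have := h4 hy
          omega
        · left; omega
  obtain ⟨n, hnn⟩ : ∃ n : ℤ, ph a b (x + k - 1) (y + d1y (Typ a' b' (Rm a' e))) +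
      b * (Rm a' e) - (t - a) = n := by
    rw [ht]
    unfold ph
    rw [if_neg (show ¬ x + k - 1 < 0 by rcases hcl with h | h <;> omega)]
    have h1 := L.h1
    push_cast
    rw [hd, hR]
    by_cases hx : x < 0
    · rw [if_pos hx]
      exact ⟨0, by push_cast; linear_combination h1⟩
    · rw [if_neg hx]
      exact ⟨1, by push_cast; linear_combination h1⟩
  exact Dec.mk' L L.a1.1 L.a1.2.1 r0 r1 s0 s1 hin hnn

/-- Left neighbour in the tile below. -/
theorem Dec.left_B (L : Lev k m a b a' b') {t : ℝ} {x y : ℤ} {e : ℝ}
    (h : Dec k m a b a' b' t x y e) (hx : x = 1) (hy : y = -1) :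
    Dec k m a b a' b' (Rm a t) (-1) (m - 1) (Rm b' e) ∧
      (Typ a' b' (Rm b' e) = 1 ∨ Typ a' b' (Rm b' e) = 2) := by
  obtain ⟨r0, r1⟩ := h.range L
  obtain ⟨he0, he1, hP, ht⟩ := h
  obtain ⟨s0, s1⟩ := Rm_range L.a1.2.2.2.2.2.2.1 L.a1.2.2.2.2.2.2.2 he0 he1
  obtain ⟨tl1, tl2⟩ := typ_down L he0 he1
  have hk := L.hk
  have hm := L.hm
  subst hx
  subst hy
  have hS2 : 2 ≤ Typ a' b' e := by
    clear tl1 tl2
    grind (splits := 40)
  have hS := tl1.2 hS2
  have hnb : ¬ e < b' := by
    intro h
    have := tl2.2 h
    omega
  have hR : Rm b' e = e - b' := by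
    unfold Rm; rw [if_neg hnb]
  have hin : InP k m (Typ a' b' (Rm b' e)) (-1) (m - 1) := by
    right; right; right
    refine ⟨rfl, Or.inr ⟨by omega, by omega, rfl⟩⟩
  have hnn : ph a b (-1) (m - 1) + b * (Rm b' e) - (t - a) = (1 : ℤ) := by
    rw [hR, ht]
    unfold ph
    have h2 := L.h2
    norm_num
    linear_combination h2
  exact ⟨Dec.mk' L L.a1.1 L.a1.2.1 r0 r1 s0 s1 hin hnn, hS⟩

/-- Lower neighbour in the tile below. -/
theorem Dec.down_B (L : Lev k m a b a' b') {t : ℝ} {x y : ℤ} {e : ℝ}
    (h : Dec k m a b a' b' t x y e) (hi : ¬ InP k m (Typ a' b' e) x (y - 1))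
    (hn : ¬ (x = -1 ∧ y = 1)) :
    Dec k m a b a' b' (Rm b t) (x - 1) (y + d2y m (Typ a' b' (Rm b' e)) - 1) (Rm b' e) := by
  obtain ⟨r0, r1⟩ := h.range L
  obtain ⟨he0, he1, hP, ht⟩ := h
  obtain ⟨s0, s1⟩ := Rm_range L.a1.2.2.2.2.2.2.1 L.a1.2.2.2.2.2.2.2 he0 he1
  obtain ⟨tl1, tl2⟩ := typ_down L he0 he1
  have hk := L.hk
  have hm := L.hm
  have hcl := bot_cls hk hm (Typ_range a' b' e).1 (Typ_range a' b' e).2 hP hi hn
  have hS := Typ_range a' b' (Rm b' e)
  have hT := Typ_range a' b' e
  have hd : (d2y m (Typ a' b' (Rm b' e)) : ℝ) = m - if e < b' then 1 else 0 := by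
    unfold d2y
    by_cases h : e < b'
    · rw [if_pos h, if_pos (tl2.2 h)]; push_cast; ring
    · rw [if_neg h, if_neg (fun h' => h (tl2.1 h'))]; simp
  have hR : Rm b' e = e - b' + if e < b' then 1 else 0 := by
    unfold Rm; split_ifs <;> ring
  have hin : InP k m (Typ a' b' (Rm b' e)) (x - 1) (y + d2y m (Typ a' b' (Rm b' e)) - 1) := by
    unfold d2y
    generalize Typ a' b' (Rm b' e) = S at *
    generalize Typ a' b' e = T at *
    clear hi hP
    rcases hcl with ⟨rfl, rfl⟩ | ⟨rfl, h2, h3, h4⟩ | ⟨rfl, h2, h3, h4⟩
    · split_ifs with hc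
      · left; omega
      · right; right; right; omega
    · have hne : ¬ (S = 1 ∨ S = 2) := fun h => by have := tl1.1 h; omega
      split_ifs with hc
      · left; omega
      · right; right; right; omega
    · have hne := tl1.2 h4
      rw [if_neg (by omega)]
      left; omega
  have hx0 : 0 ≤ x := by rcases hcl with h | h | h <;> omega
  obtain ⟨n, hnn⟩ : ∃ n : ℤ, ph a b (x - 1) (y + d2y m (Typ a' b' (Rm b' e)) - 1) +
      b * (Rm b' e) - (t - b) = n := by
    rw [ht]
    unfold ph
    rw [if_neg (show ¬ x < 0 by omega)]
    have h2 := L.h2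
    push_cast
    rw [hd, hR]
    by_cases hx : x - 1 < 0
    · rw [if_pos hx]
      exact ⟨1, by push_cast; linear_combination h2⟩
    · rw [if_neg hx]
      exact ⟨0, by push_cast; linear_combination h2⟩
  exact Dec.mk' L L.a1.2.2.1 L.a1.2.2.2.1 r0 r1 s0 s1 hin hnn

/-- Lower neighbour in the tile on the left. -/
theorem Dec.down_L (L : Lev k m a b a' b') {t : ℝ} {x y : ℤ} {e : ℝ}
    (h : Dec k m a b a' b' t x y e) (hx : x = -1) (hy : y = 1) :
    Dec k m a b a' b' (Rm b t) (k - 1) (d1y (Typ a' b' (Rm a' e))) (Rm a' e) := by
  obtain ⟨r0, r1⟩ := h.range L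
  obtain ⟨he0, he1, hP, ht⟩ := h
  obtain ⟨s0, s1⟩ := Rm_range L.a1.2.2.2.2.1 L.a1.2.2.2.2.2.1 he0 he1
  obtain ⟨tl1, tl2⟩ := typ_left L he0 he1
  have hk := L.hk
  have hm := L.hm
  have hS := Typ_range a' b' (Rm a' e)
  subst hx
  subst hy
  have hd : (d1y (Typ a' b' (Rm a' e)) : ℝ) = - if e < a' then 1 else 0 := by
    unfold d1y
    by_cases h : e < a'
    · rw [if_pos h, if_pos (tl2.2 h)]; push_cast; ring
    · rw [if_neg h, if_neg (fun h' => h (tl2.1 h'))]; simp
  have hR : Rm a' e = e - a' + if e < a' then 1 else 0 := by
    unfold Rm; split_ifs <;> ring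
  have hin : InP k m (Typ a' b' (Rm a' e)) (k - 1) (d1y (Typ a' b' (Rm a' e))) := by
    unfold d1y
    generalize Typ a' b' (Rm a' e) = S at *
    clear hP
    split_ifs with hc
    · right; right; left; omega
    · right; left; omega
  have hnn : ph a b (k - 1) (d1y (Typ a' b' (Rm a' e))) +
      b * (Rm a' e) - (t - b) = (0 : ℤ) := by
    rw [ht]
    unfold ph
    rw [if_neg (show ¬ k - 1 < 0 by omega)]
    have h1 := L.h1
    push_cast
    rw [hd, hR]
    linear_combination h1
  exact Dec.mk' L L.a1.2.2.1 L.a1.2.2.2.1 r0 r1 s0 s1 hin hnn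

end BR13
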